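import Pool.Agent.KIso.Final
import Pool.Agent.TInc.Main

/-!
# Cubics over a function field, `α = 0` or `B = 0` allowed
-/

set_option autoImplicit false

noncomputable section

namespace Pool.Agent.KFam.Iso

open Pool.Agent.ZCyc Pool.Agent.Dess Pool.Agent.KFam Pool.Agent.TInf Pool.Agent.TInc Module
open Pool.Agent.VFP (Om tt)
open scoped Classical

variable {k L : Type} [Field k] [IsAlgClosed k] [CharZero k] [Field L] [Algebra k L] {n r : ℕ}
  {W : Type*} [AddCommGroup W] [Module ℚ W]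

/-- The class of an `n`-tuple of points over different places is zero if
`n ≥ (∑ d i) / 2 + g`. Coefficients which are zero are allowed. -/
theorem zero_baseI (X : Cub k L r) (hL : IsCurve k L) {d : Fin r → ℕ} (hX : X.OkZ d)
    {U : Set (Place k L)} (hU : ∀ c ∈ U, X.Good c) (Z : Fin r → Set (Place k L)) {g : ℕ}
    (hg : Riemann hL g) {n₀ : ℕ} (hd : ∑ i, d i = 2 * n₀) (hn₀ : 0 < n₀) (hn : n₀ + g ≤ n)
    (Y : SysB (X.base hL U hU Z) n W) (s : Fin n → (X.base hL U hU Z).P)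
    (hgen : GenI (X.base hL U hU Z) s) (hs : Function.Injective fun j => (s j).1)
    (hs1 : ∀ j q, (s j).2 q = 1) {i₀ : Fin r} {δ : Place k L} (hδ : δ ∈ Z i₀) (hδU : δ ∉ U)
    (p : Fin r → Fin n → EPt k) : Y.F s p = 0 := by
  obtain ⟨F, hF⟩ := exists_familyZ X hL hX hU Z hg s hs hs1 hδ hδU (ρ := n₀) hn
  exact zero_iso Y hd hn₀ (by omega) hgen F (le_of_eq hF.symm) p

omit [IsAlgClosed k] [CharZero k] in
private theorem val_zero' (c : Place k L) : val c (0 : L) = 0 := by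
  have h : c.At (0 : L) (0 : k) := by
    have h1 := Place.at_const (v := c) (0 : k)
    rwa [map_zero] at h1
  exact val_eq h

private theorem val_ne' (hL : IsCurve k L) {c : Place k L} {f : L} (h : f ∈ c.ring)
    (h' : f⁻¹ ∈ c.ring) (hf : f ≠ 0) : val c f ≠ 0 := by
  intro h0
  have h1 := at_val hL h
  rw [h0] at h1
  have h2 := h1.mul (at_val hL h')
  rw [mul_inv_cancel₀ hf, zero_mul] at h2
  have h3 : c.At (1 : L) (1 : k) := by
    have h4 := Place.at_const (v := c) (1 : k)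
    rwa [map_one] at h4
  exact one_ne_zero (h3.unique h2)

omit [IsAlgClosed k] [CharZero k] in
private theorem scl_ne' {K : Type} [Field K] (l : Place k L → Kˣ) (D : Place k L →₀ ℤ) :
    scl l D ≠ 0 := by
  unfold scl Finsupp.prod
  exact Finset.prod_ne_zero_iff.2 fun q _ => Units.ne_zero _

omit [IsAlgClosed k] [CharZero k] in
private theorem evO_zero {U : Set (Place k L)} (S : (L →ₐ[k] Om k) ⊕ U) : evO S (0 : L) = 0 := by
  rcases S with σ | c
  · show σ 0 = 0
    rw [map_zero]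
  · show algebraMap k (Om k) (val c.1 0) = 0
    rw [val_zero', map_zero]

/-- For every index `α_i = 0`, or `B_i = 0`, or `B_i ² / α_i ³` is constant, or its values at the
places are different. -/
theorem base_genI (X : Cub k L r) (hL : IsCurve k L) {d : Fin r → ℕ} (hX : X.OkZ d)
    {U : Set (Place k L)} (hU : ∀ c ∈ U, X.Good c) (Z : Fin r → Set (Place k L))
    (s : Fin n → (X.base hL U hU Z).P)
    (h : ∀ i, X.α i = 0 ∨ X.B i = 0 ∨ (∃ c : k, X.B i ^ 2 = algebraMap k L c * X.α i ^ 3) ∨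
      ∀ j j', j ≠ j' → val (s j).1.1 (X.B i ^ 2 / X.α i ^ 3) ≠
        val (s j').1.1 (X.B i ^ 2 / X.α i ^ 3)) : GenI (X.base hL U hU Z) s := by
  intro i
  have hg : ∀ j, X.Good (s j).1.1 := fun j => hU _ (s j).1.2
  have hm : ∀ j, scl (s j).2 (X.D i) ≠ 0 := fun j => scl_ne' _ _
  by_cases hα : X.α i = 0
  · refine Or.inr (Or.inl ⟨fun x => ?_, fun S => ?_, fun j => ?_⟩)
    · show scl x.2 (X.D i) ^ 2 * val x.1.1 (X.α i) = 0
      rw [hα, val_zero', mul_zero]
    · show scl S.2 (X.D i) ^ 2 * evO S.1 (X.α i) = 0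
      rw [hα, evO_zero, mul_zero]
    · show scl (s j).2 (X.D i) ^ 3 * val (s j).1.1 (X.B i) ≠ 0
      have hB : X.B i ≠ 0 := by
        intro h0
        apply hX.disc i
        rw [hα, h0]
        ring
      exact mul_ne_zero (pow_ne_zero 3 (hm j))
        (val_ne' hL (hg j i).2.1.1 (hg j i).2.1.2 hB)
  by_cases hB : X.B i = 0
  · refine Or.inr (Or.inr ⟨fun x => ?_, fun S => ?_, fun j => ?_⟩)
    · show scl x.2 (X.D i) ^ 3 * val x.1.1 (X.B i) = 0
      rw [hB, val_zero', mul_zero]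
    · show scl S.2 (X.D i) ^ 3 * evO S.1 (X.B i) = 0
      rw [hB, evO_zero, mul_zero]
    · show scl (s j).2 (X.D i) ^ 2 * val (s j).1.1 (X.α i) ≠ 0
      exact mul_ne_zero (pow_ne_zero 2 (hm j))
        (val_ne' hL (hg j i).1.1 (hg j i).1.2 hα)
  -- the cubic with the index `i` only
  have h1 := ((h i).resolve_left hα).resolve_left hB
  obtain ⟨X', hX'⟩ : ∃ X' : Cub k L 1, X' = ⟨fun _ => X.α i, fun _ => X.B i, fun _ => X.D i⟩ :=
    ⟨_, rfl⟩
  subst hX'
  have hok : Cub.Ok ⟨fun _ => X.α i, fun _ => X.B i, fun _ => X.D i⟩ fun _ : Fin 1 => d i :=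
    ⟨fun _ => hα, fun _ => hB, fun _ => hX.disc i, fun _ => hX.α_mem i hα,
      fun _ => hX.B_mem i hB, fun _ => hX.deg i⟩
  have hU' : ∀ c ∈ U, Cub.Good (⟨fun _ => X.α i, fun _ => X.B i, fun _ => X.D i⟩ : Cub k L 1) c :=
    fun c hc _ => hU c hc i
  have h2 := base_gen (⟨fun _ => X.α i, fun _ => X.B i, fun _ => X.D i⟩ : Cub k L 1) hL hok hU'
    (fun _ => ∅) s fun _ => h1
  exact Or.inl ⟨h2.nd 0, h2.iso 0⟩

end Pool.Agent.KFam.Iso
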