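import Pool.Agent.KIso.Twist
import Pool.Agent.KFam.SysMulti

/-!
# Isotrivial indices of a base

We consider a base with `r + q` indices, where for every one of the last `q` indices one of the
coefficients `α`, `B` is zero for all points. We restrict it to the points where the other coefficient is
not zero, and keep the first `r` indices.
-/

set_option autoImplicit false

noncomputable section

namespace Pool.Agent.KFam.Iso

open Pool.Agent.ZCyc Pool.Agent.TInf Polynomial
open Pool.Agent.VFP (Om tt)

universe u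

/-- `(a₀, b₀)` is `(0, 1)` or `(1, 0)` and `α` or `B` is zero for all points. -/
def IsoIdx {k : Type u} [Field k] {N : ℕ} (D : Base k N) (i : Fin N) (a₀ b₀ : k) : Prop :=
  (a₀ = 0 ∧ b₀ = 1 ∧ (∀ s, D.al i s = 0) ∧ ∀ S, D.alQ i S = 0) ∨
    (a₀ = 1 ∧ b₀ = 0 ∧ (∀ s, D.be i s = 0) ∧ ∀ S, D.beQ i S = 0)

open Classical in
/-- the twist -/
def rt {K : Type*} [Field K] (a₀ b₀ α β : K) : K :=
  if h : ∃ c : K, c ≠ 0 ∧ α = c ^ 4 * a₀ ∧ β = c ^ 6 * b₀ then h.choose else 1

theorem rt_spec {K : Type*} [Field K] {a₀ b₀ α β : K}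
    (h : ∃ c : K, c ≠ 0 ∧ α = c ^ 4 * a₀ ∧ β = c ^ 6 * b₀) :
    rt a₀ b₀ α β ≠ 0 ∧ α = rt a₀ b₀ α β ^ 4 * a₀ ∧ β = rt a₀ b₀ α β ^ 6 * b₀ := by
  unfold rt
  rw [dif_pos h]
  exact h.choose_spec

theorem rt_exists {K : Type*} [Field K] [IsAlgClosed K] {a₀ b₀ α β : K}
    (h : (a₀ = 0 ∧ b₀ = 1 ∧ α = 0) ∨ (a₀ = 1 ∧ b₀ = 0 ∧ β = 0)) (h0 : α ≠ 0 ∨ β ≠ 0) :
    ∃ c : K, c ≠ 0 ∧ α = c ^ 4 * a₀ ∧ β = c ^ 6 * b₀ := by
  rcases h with ⟨h1, h2, h3⟩ | ⟨h1, h2, h3⟩
  · have hβ : β ≠ 0 := by
      rcases h0 with h | h
      · exact absurd h3 h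
      · exact h
    obtain ⟨c, hc⟩ := IsAlgClosed.exists_pow_nat_eq β (n := 6) (by norm_num)
    refine ⟨c, ?_, ?_, ?_⟩
    · rintro rfl
      rw [zero_pow (by norm_num)] at hc
      exact hβ hc.symm
    · rw [h1, h3, mul_zero]
    · rw [h2, mul_one, hc]
  · have hα : α ≠ 0 := by
      rcases h0 with h | h
      · exact h
      · exact absurd h3 h
    obtain ⟨c, hc⟩ := IsAlgClosed.exists_pow_nat_eq α (n := 4) (by norm_num)
    refine ⟨c, ?_, ?_, ?_⟩
    · rintro rfl
      rw [zero_pow (by norm_num)] at hc
      exact hα hc.symm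
    · rw [h1, mul_one, hc]
    · rw [h2, h3, mul_zero]

section base

variable {k : Type u} [Field k] {N r n q : ℕ}

/-- the base restricted to the good points and to the first `r` indices -/
def subBase (D : Base k N) (E : Fin r ⊕ Fin q ≃ Fin N) : Base k r where
  P := {s : D.P // ∀ i, D.al (E (.inr i)) s ≠ 0 ∨ D.be (E (.inr i)) s ≠ 0}
  Q := {S : D.Q // ∀ i, D.alQ (E (.inr i)) S ≠ 0 ∨ D.beQ (E (.inr i)) S ≠ 0}
  al i s := D.al (E (.inl i)) s.1
  be i s := D.be (E (.inl i)) s.1
  alQ i S := D.alQ (E (.inl i)) S.1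
  beQ i S := D.beQ (E (.inl i)) S.1
  At v S s := D.At v S.1 s.1
  Bad v S i := D.Bad v S.1 (E (.inl i))
  cst s := ⟨D.cst s.1, fun i => by
    rw [D.cst_al, D.cst_be]
    exact (s.2 i).imp (fun h => (_root_.map_ne_zero _).2 h) fun h => (_root_.map_ne_zero _).2 h⟩
  at_al v S s h i := D.at_al v S.1 s.1 h _
  at_be v S s h i := D.at_be v S.1 s.1 h _
  cst_at v s := D.cst_at v s.1
  cst_al s i := D.cst_al s.1 _
  cst_be s i := D.cst_be s.1 _

/-- the coefficients of the curves for the isotrivial indices -/
def subTot (D : Base k N) (E : Fin r ⊕ Fin q ≃ Fin N) : Tot (subBase D E) n q where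
  ta s i := ∏ j, D.al (E (.inr i)) (s j).1
  tb s i := ∏ j, D.be (E (.inr i)) (s j).1
  taQ S i := ∏ j, D.alQ (E (.inr i)) (S j).1
  tbQ S i := ∏ j, D.beQ (E (.inr i)) (S j).1
  End v S := ∃ i, D.Bad v S.1 i
  at_ta v S s h i := Place.At.prod fun j _ => D.at_al v _ _ (h j) _
  at_tb v S s h i := Place.At.prod fun j _ => D.at_be v _ _ (h j) _
  cst_ta s i := by
    rw [map_prod]
    exact Finset.prod_congr rfl fun j _ => D.cst_al _ _
  cst_tb s i := by
    rw [map_prod]
    exact Finset.prod_congr rfl fun j _ => D.cst_be _ _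

/-- the system of rows -/
def comb {V : Type*} (E : Fin r ⊕ Fin q ≃ Fin N) (p : Fin r → Fin n → V) (R : Fin q → Fin n → V) :
    Fin N → Fin n → V := fun i => Sum.elim p R (E.symm i)

theorem comb_inl {V : Type*} (E : Fin r ⊕ Fin q ≃ Fin N) (p : Fin r → Fin n → V)
    (R : Fin q → Fin n → V) (i : Fin r) : comb E p R (E (.inl i)) = p i := by
  unfold comb
  rw [Equiv.symm_apply_apply, Sum.elim_inl]

theorem comb_inr {V : Type*} (E : Fin r ⊕ Fin q ≃ Fin N) (p : Fin r → Fin n → V)
    (R : Fin q → Fin n → V) (i : Fin q) : comb E p R (E (.inr i)) = R i := by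
  unfold comb
  rw [Equiv.symm_apply_apply, Sum.elim_inr]

theorem comb_ind {V : Type*} {E : Fin r ⊕ Fin q ≃ Fin N} {p : Fin r → Fin n → V}
    {R : Fin q → Fin n → V} {C : Fin N → (Fin n → V) → Prop}
    (h1 : ∀ i, C (E (.inl i)) (p i)) (h2 : ∀ i, C (E (.inr i)) (R i)) (i : Fin N) :
    C i (comb E p R i) := by
  obtain ⟨x, rfl⟩ := E.surjective i
  rcases x with i | i
  · rw [comb_inl]
    exact h1 i
  · rw [comb_inr]
    exact h2 i

theorem comb_update_inl {V : Type*} (E : Fin r ⊕ Fin q ≃ Fin N) (p : Fin r → Fin n → V)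
    (R : Fin q → Fin n → V) (i : Fin r) (A : Fin n → V) :
    comb E (Function.update p i A) R = Function.update (comb E p R) (E (.inl i)) A := by
  funext l
  obtain ⟨x, rfl⟩ := E.surjective l
  rcases x with i' | i'
  · rw [comb_inl]
    by_cases h : i' = i
    · subst h
      rw [Function.update_self, Function.update_self]
    · rw [Function.update_of_ne h, Function.update_of_ne (by
        intro h1
        exact h (Sum.inl_injective (E.injective h1))), comb_inl]
  · rw [comb_inr, Function.update_of_ne (by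
      intro h1
      exact absurd (E.injective h1) (by simp)), comb_inr]

theorem comb_update_inr {V : Type*} (E : Fin r ⊕ Fin q ≃ Fin N) (p : Fin r → Fin n → V)
    (R : Fin q → Fin n → V) (i : Fin q) (A : Fin n → V) :
    comb E p (Function.update R i A) = Function.update (comb E p R) (E (.inr i)) A := by
  funext l
  obtain ⟨x, rfl⟩ := E.surjective l
  rcases x with i' | i'
  · rw [comb_inl, Function.update_of_ne (by
      intro h1
      exact absurd (E.injective h1) (by simp)), comb_inl]
  · rw [comb_inr]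
    by_cases h : i' = i
    · subst h
      rw [Function.update_self, Function.update_self]
    · rw [Function.update_of_ne h, Function.update_of_ne (by
        intro h1
        exact h (Sum.inr_injective (E.injective h1))), comb_inr]

/-- all rows with isotrivial indices are replaced -/
theorem rows_smul {W : Type*} [AddCommGroup W] (E : Fin r ⊕ Fin q ≃ Fin N)
    (F : (Fin N → Fin n → EPt k) → W) (ε : ℤ) (p : Fin r → Fin n → EPt k)
    (U V : Fin q → Fin n → EPt k)
    (h : ∀ (i : Fin q) (P : Fin N → Fin n → EPt k),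
      F (Function.update P (E (.inr i)) (V i)) = ε • F (Function.update P (E (.inr i)) (U i))) :
    F (comb E p V) = ε ^ q • F (comb E p U) := by
  classical
  have key : ∀ J : Finset (Fin q), F (comb E p fun i => if i ∈ J then V i else U i) =
      ε ^ J.card • F (comb E p U) := by
    intro J
    induction J using Finset.induction_on with
    | empty => simp
    | insert i J hi ih =>
      rw [Finset.card_insert_of_notMem hi, pow_succ', mul_smul, ← ih]
      have e1 : (fun i' => if i' ∈ insert i J then V i' else U i') =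
          Function.update (fun i' => if i' ∈ J then V i' else U i') i (V i) := by
        funext i'
        by_cases h' : i' = i
        · subst h'
          rw [Function.update_self, if_pos (Finset.mem_insert_self _ _)]
        · rw [Function.update_of_ne h']
          simp only [Finset.mem_insert, h', false_or]
      have e2 : (fun i' => if i' ∈ J then V i' else U i') =
          Function.update (fun i' => if i' ∈ J then V i' else U i') i (U i) := by
        funext i'
        by_cases h' : i' = i
        · subst h'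
          rw [Function.update_self, if_neg hi]
        · rw [Function.update_of_ne h']
      rw [e1, comb_update_inr, h i, ← comb_update_inr, ← e2]
  have h1 := key Finset.univ
  simp only [Finset.mem_univ, if_true, Finset.card_univ, Fintype.card_fin] at h1
  exact h1

end base

end Pool.Agent.KFam.Iso
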