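import Pool.Agent.KFam.Defs

/-!
# Isotrivial fibre indices: definitions

Besides the `r` families of cubics of the base `D` we consider `q` cubics
`y ² = x ³ - 3 ta_i(s) x + tb_i(s)` whose coefficients depend on a whole tuple `s` of `n` points of the
base (for an isotrivial family the product of the twists of the constant curve). The class functions of
a system `SysG` depend on a tuple `s`, on `q` points of these curves, and on the `n`-tuples of points of
the `r` families.
-/

set_option autoImplicit false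

noncomputable section

namespace Pool.Agent.KFam.Iso

open Pool.Agent.ZCyc Pool.Agent.TInf Polynomial
open Pool.Agent.VFP (Om tt)

universe u

/-- the twist by `b` -/
def tw {K : Type*} [Field K] (b : K) : EPt K → EPt K :=
  Option.map fun z => (b ^ 2 * z.1, b ^ 3 * z.2)

/-- the constant point over `Om k` -/
def cpt {k : Type u} [Field k] : EPt k → EPt (Om k) :=
  Option.map fun z => (algebraMap k (Om k) z.1, algebraMap k (Om k) z.2)

/-- The coefficients of the `q` cubics for tuples of points of the base, and the end `End v S`: at the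
place `v` the point `S` tends to a point with a degenerate fibre. -/
structure Tot {k : Type u} [Field k] {r : ℕ} (D : Base k r) (n q : ℕ) where
  /-- the coefficient of `-3 x` -/
  ta : (Fin n → D.P) → Fin q → k
  /-- the constant coefficient -/
  tb : (Fin n → D.P) → Fin q → k
  /-- the same over `Om k` -/
  taQ : (Fin n → D.Q) → Fin q → Om k
  /-- the same over `Om k` -/
  tbQ : (Fin n → D.Q) → Fin q → Om k
  /-- the point tends to a point with a degenerate fibre -/
  End : Place k (Om k) → D.Q → Prop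
  at_ta : ∀ (v : Place k (Om k)) (S : Fin n → D.Q) (s : Fin n → D.P),
    (∀ j, D.At v (S j) (s j)) → ∀ i, v.At (taQ S i) (ta s i)
  at_tb : ∀ (v : Place k (Om k)) (S : Fin n → D.Q) (s : Fin n → D.P),
    (∀ j, D.At v (S j) (s j)) → ∀ i, v.At (tbQ S i) (tb s i)
  cst_ta : ∀ (s : Fin n → D.P) (i : Fin q),
    taQ (fun j => D.cst (s j)) i = algebraMap k (Om k) (ta s i)
  cst_tb : ∀ (s : Fin n → D.P) (i : Fin q),
    tbQ (fun j => D.cst (s j)) i = algebraMap k (Om k) (tb s i)

variable {k : Type u} [Field k] {r n q : ℕ} {D : Base k r}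

/-- the points `g i` are on the curves -/
def Tot.On (T : Tot D n q) (s : Fin n → D.P) (g : Fin q → EPt k) : Prop :=
  ∀ i, EOn (T.ta s i) (T.tb s i) (g i)

/-- the points `G i` are on the curves, over `Om k` -/
def Tot.OnQ (T : Tot D n q) (S : Fin n → D.Q) (G : Fin q → EPt (Om k)) : Prop :=
  ∀ i, EOn (T.taQ S i) (T.tbQ S i) (G i)

/-- A system of classes which also depend on `q` points of the curves of `T`. -/
structure SysG (D : Base k r) (T : Tot D n q) (W : Type*) [AddCommGroup W] [Module ℚ W] where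
  /-- the class -/
  F : (Fin n → D.P) → (Fin q → EPt k) → (Fin r → Fin n → EPt k) → W
  /-- the tuple over `Om k` has a value with this class -/
  Val : Place k (Om k) → (Fin n → D.Q) → (Fin q → EPt (Om k)) →
    (Fin r → Fin n → EPt (Om k)) → W → Prop
  perm : ∀ (s : Fin n → D.P) (g : Fin q → EPt k) (p : Fin r → Fin n → EPt k)
    (π : Equiv.Perm (Fin n)),
    F (s ∘ π) g (fun i => p i ∘ π) = (((Equiv.Perm.sign π : ℤˣ) : ℤ) ^ r) • F s g p
  odd : ∀ (s : Fin n → D.P) (g : Fin q → EPt k) (p : Fin r → Fin n → EPt k) (i : Fin r)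
    (j : Fin n) (x y : k), p i j = some (x, y) →
    F s g (Function.update p i (Function.update (p i) j (some (x, -y)))) = -F s g p
  inf : ∀ (s : Fin n → D.P) (g : Fin q → EPt k) (p : Fin r → Fin n → EPt k) (i : Fin r)
    (j : Fin n), p i j = none → F s g p = 0
  off : ∀ (s : Fin n → D.P) (g : Fin q → EPt k) (p : Fin r → Fin n → EPt k), ¬ D.On s p →
    F s g p = 0
  oddG : ∀ (s : Fin n → D.P) (g : Fin q → EPt k) (p : Fin r → Fin n → EPt k) (i : Fin q)
    (x y : k), g i = some (x, y) → F s (Function.update g i (some (x, -y))) p = -F s g p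
  infG : ∀ (s : Fin n → D.P) (g : Fin q → EPt k) (p : Fin r → Fin n → EPt k) (i : Fin q),
    g i = none → F s g p = 0
  offG : ∀ (s : Fin n → D.P) (g : Fin q → EPt k) (p : Fin r → Fin n → EPt k), ¬ T.On s g →
    F s g p = 0
  fin : ∀ (v : Place k (Om k)) (S : Fin n → D.Q) (G : Fin q → EPt (Om k))
    (P : Fin r → Fin n → EPt (Om k)), D.OnQ S P → T.OnQ S G → ∀ (s : Fin n → D.P)
    (g : Fin q → EPt k) (p : Fin r → Fin n → EPt k), (∀ j, D.At v (S j) (s j)) →
    (∀ i, EVal v (G i) (g i)) → (∀ i j, EVal v (P i j) (p i j)) → Val v S G P (F s g p)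
  pole : ∀ (v : Place k (Om k)) (S : Fin n → D.Q) (G : Fin q → EPt (Om k))
    (P : Fin r → Fin n → EPt (Om k)), D.OnQ S P → T.OnQ S G → ∀ (i : Fin r) (j : Fin n)
    (c : D.P), D.At v (S j) c → EVal v (P i j) none → Val v S G P 0
  poleG : ∀ (v : Place k (Om k)) (S : Fin n → D.Q) (G : Fin q → EPt (Om k))
    (P : Fin r → Fin n → EPt (Om k)), D.OnQ S P → T.OnQ S G → ∀ (i : Fin q)
    (s : Fin n → D.P), (∀ j, D.At v (S j) (s j)) → EVal v (G i) none → Val v S G P 0
  sing : ∀ (v : Place k (Om k)) (S : Fin n → D.Q) (G : Fin q → EPt (Om k))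
    (P : Fin r → Fin n → EPt (Om k)), D.OnQ S P → T.OnQ S G → ∀ (j : Fin n), T.End v (S j) →
    Val v S G P 0
  bridge : ∀ {I : Type} [Fintype I] (w : I → ℚ) (S : I → Fin n → D.Q)
    (G : I → Fin q → EPt (Om k)) (P : I → Fin r → Fin n → EPt (Om k)),
    (∀ x, D.OnQ (S x) (P x)) → (∀ x, T.OnQ (S x) (G x)) → ∀ (c₀ c₁ : k) (C₀ C₁ : W),
    (∀ v : Place k (Om k), v.At (tt k) c₀ → ∃ C : I → W,
      (∀ x, Val v (S x) (G x) (P x) (C x)) ∧ ∑ x, w x • C x = C₀) →
    (∀ v : Place k (Om k), v.At (tt k) c₁ → ∃ C : I → W,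
      (∀ x, Val v (S x) (G x) (P x) (C x)) ∧ ∑ x, w x • C x = C₁) → C₀ = C₁

/-- the base with constant points over `Om k` only -/
def constBase (D : Base k r) : Base k r where
  P := D.P
  Q := D.P
  al := D.al
  be := D.be
  alQ i s := algebraMap k (Om k) (D.al i s)
  beQ i s := algebraMap k (Om k) (D.be i s)
  At _ S s := S = s
  Bad _ _ _ := False
  cst s := s
  at_al v S s h i := by
    subst h
    exact Place.at_const _
  at_be v S s h i := by
    subst h
    exact Place.at_const _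
  cst_at _ _ := rfl
  cst_al _ _ := rfl
  cst_be _ _ := rfl

theorem eon_cpt {α B : k} {A b : Om k} (hA : A = algebraMap k (Om k) α)
    (hb : b = algebraMap k (Om k) B) {p : EPt k} (h : EOn α B p) : EOn A b (cpt p) := by
  subst hA
  subst hb
  rcases p with _ | ⟨x, y⟩
  · trivial
  · have h' : y ^ 2 = x ^ 3 - 3 * α * x + B := h
    show algebraMap k (Om k) y ^ 2 = algebraMap k (Om k) x ^ 3 -
      3 * algebraMap k (Om k) α * algebraMap k (Om k) x + algebraMap k (Om k) B
    rw [← map_pow, h']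
    simp only [map_add, map_sub, map_mul, map_pow, map_ofNat]

theorem eval_cpt (v : Place k (Om k)) (p : EPt k) : EVal v (cpt p) p := by
  rcases p with _ | ⟨x, y⟩
  · trivial
  · exact ⟨Place.at_const x, Place.at_const y⟩

theorem Tot.onQ_cst {T : Tot D n q} {s : Fin n → D.P} {g : Fin q → EPt k} (h : T.On s g) :
    T.OnQ (fun j => D.cst (s j)) fun i => cpt (g i) := fun i =>
  eon_cpt (T.cst_ta s i) (T.cst_tb s i) (h i)

theorem onQ_constBase {S : Fin n → D.P} {P : Fin r → Fin n → EPt (Om k)}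
    (h : (constBase D).OnQ S P) : D.OnQ (fun j => D.cst (S j)) P := by
  intro i j
  have h1 : EOn (algebraMap k (Om k) (D.al i (S j))) (algebraMap k (Om k) (D.be i (S j)))
    (P i j) := h i j
  rw [← D.cst_al (S j) i, ← D.cst_be (S j) i] at h1
  exact h1

open Classical in
/-- The system of the classes for fixed points `g i`, for the constant base. -/
def SysG.at {T : Tot D n q} {W : Type*} [AddCommGroup W] [Module ℚ W] (Y : SysG D T W)
    (g : Fin q → EPt k) : SysB (constBase D) n W where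
  F s p := Y.F s g p
  Val v S P C := if T.On S g then Y.Val v (fun j => D.cst (S j)) (fun i => cpt (g i)) P C
    else C = 0
  perm s p π := Y.perm s g p π
  odd s p i j x y h := Y.odd s g p i j x y h
  inf s p i j h := Y.inf s g p i j h
  off s p h := Y.off s g p h
  fin := by
    intro v S P hP s p hs hp
    have e : S = s := funext hs
    subst e
    by_cases hg : T.On S g
    · rw [if_pos hg]
      exact Y.fin v _ _ P (onQ_constBase hP) (Tot.onQ_cst hg) S g p (fun j => D.cst_at v _)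
        (fun i => eval_cpt v (g i)) hp
    · rw [if_neg hg]
      exact Y.offG _ _ _ hg
  pole := by
    intro v S P hP i j c _ hp
    by_cases hg : T.On S g
    · rw [if_pos hg]
      exact Y.pole v _ _ P (onQ_constBase hP) (Tot.onQ_cst hg) i j (S j) (D.cst_at v _) hp
    · rw [if_neg hg]
  sing := by
    intro v S P _ i j h
    exact h.elim
  bridge := by
    intro I _ w S P hP c₀ c₁ C₀ C₁ h₀ h₁
    have key : ∀ (v : Place k (Om k)) (C : I → W),
        (∀ x, if T.On (S x) g then Y.Val v (fun j => D.cst (S x j)) (fun i => cpt (g i)) (P x) (C x)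
          else C x = 0) → ∀ x, Y.Val v (fun j => D.cst (S x j))
          (if T.On (S x) g then fun i => cpt (g i) else fun _ => none) (P x) (C x) := by
      intro v C hC x
      have h2 := hC x
      by_cases hg : T.On (S x) g
      · rw [if_pos hg] at h2 ⊢
        exact h2
      · rw [if_neg hg] at h2 ⊢
        rw [h2]
        have h3 : ∃ i, ¬ EOn (T.ta (S x) i) (T.tb (S x) i) (g i) := by
          by_contra h4
          push Not at h4
          exact hg h4
        obtain ⟨i, -⟩ := h3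
        exact Y.poleG v _ _ (P x) (onQ_constBase (hP x)) (fun _ => trivial) i (S x)
          (fun j => D.cst_at v _) trivial
    refine Y.bridge w (fun x j => D.cst (S x j))
      (fun x => if T.On (S x) g then fun i => cpt (g i) else fun _ => none) P
      (fun x => onQ_constBase (hP x)) (fun x => ?_) c₀ c₁ C₀ C₁ ?_ ?_
    · by_cases hg : T.On (S x) g
      · rw [if_pos hg]
        exact Tot.onQ_cst hg
      · rw [if_neg hg]
        exact fun _ => trivial
    · intro v hv
      obtain ⟨C, h2, h3⟩ := h₀ v hv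
      exact ⟨C, key v C h2, h3⟩
    · intro v hv
      obtain ⟨C, h2, h3⟩ := h₁ v hv
      exact ⟨C, key v C h2, h3⟩

/-- Deformations of the tuple `s`, with the parameters `z ∈ k ^ ρ`, compare
`Pool.Agent.KFam.CurveFam`; also the coefficients `ta`, `tb` are polynomials in `z` and the variable
`τ`. -/
structure CurveFamG (D : Base k r) (T : Tot D n q) (d : Fin r → ℕ) (e : Fin q → ℕ)
    (s : Fin n → D.P) where
  /-- the number of parameters -/
  ρ : ℕ
  /-- the norm of `α_i` -/
  nα : Fin r → MvPolynomial (Fin ρ) k[X]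
  /-- the norm of `b_i` -/
  nb : Fin r → MvPolynomial (Fin ρ) k[X]
  /-- the norm of `b_i ² - θ_j (b_i ² - α_i ³)` -/
  nθ : Fin r → Fin n → MvPolynomial (Fin ρ) k[X]
  /-- the coefficient `ta i` -/
  nta : Fin q → MvPolynomial (Fin ρ) k[X]
  /-- the coefficient `tb i` -/
  ntb : Fin q → MvPolynomial (Fin ρ) k[X]
  /-- the values of `θ` -/
  θ : Fin n → k
  inj : Function.Injective θ
  ne : ∀ j, θ j ≠ 0
  dα : ∀ i (z : Fin ρ →₀ ℕ), ((nα i).coeff z).natDegree ≤ 2 * d i
  db : ∀ i (z : Fin ρ →₀ ℕ), ((nb i).coeff z).natDegree ≤ 3 * d i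
  dθ : ∀ i j (z : Fin ρ →₀ ℕ), ((nθ i j).coeff z).natDegree ≤ 6 * d i
  dta : ∀ i (z : Fin ρ →₀ ℕ), ((nta i).coeff z).natDegree ≤ 2 * e i
  dtb : ∀ i (z : Fin ρ →₀ ℕ), ((ntb i).coeff z).natDegree ≤ 3 * e i
  zα : ∀ i (z : Fin ρ → k), ((nα i).eval fun m => C (z m)).eval 0 = ∏ j, D.ea s i j
  zb : ∀ i (z : Fin ρ → k), ((nb i).eval fun m => C (z m)).eval 0 = ∏ j, (-D.eb s i j / 2)
  zθ : ∀ i j (z : Fin ρ → k), ((nθ i j).eval fun m => C (z m)).eval 0 =
    ∏ l, ((-D.eb s i l / 2) ^ 2 - θ j * ((-D.eb s i l / 2) ^ 2 - D.ea s i l ^ 3))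
  zta : ∀ i (z : Fin ρ → k), ((nta i).eval fun m => C (z m)).eval 0 = T.ta s i
  ztb : ∀ i (z : Fin ρ → k), ((ntb i).eval fun m => C (z m)).eval 0 = T.tb s i
  cα : ∀ i, (nα i).eval 0 = C (∏ j, D.ea s i j)
  cb : ∀ i, (nb i).eval 0 = C (∏ j, (-D.eb s i j / 2))
  cθ : ∀ i j, (nθ i j).eval 0 =
    C (∏ l, ((-D.eb s i l / 2) ^ 2 - θ j * ((-D.eb s i l / 2) ^ 2 - D.ea s i l ^ 3)))
  cta : ∀ i, (nta i).eval 0 = C (T.ta s i)
  ctb : ∀ i, (ntb i).eval 0 = C (T.tb s i)
  /-- the value at `δ` of the form at `τ = 0` -/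
  u : k
  /-- the value at `δ` of the direction `z` -/
  h : (Fin ρ → k) → k
  u_ne : u ≠ 0
  pts : ∀ z : Fin ρ → k, z ≠ 0 → ∀ τ : Om k, Transcendental k τ →
    (∃ v : Place k (Om k), v.At τ 0) → ∃ S : Fin n → D.Q,
    (∀ i, ∏ j, D.EA S i j = aeval τ ((nα i).eval fun m => C (z m))) ∧
    (∀ i, ∏ j, (-D.EB S i j / 2) = aeval τ ((nb i).eval fun m => C (z m))) ∧
    (∀ i j, ∏ l, ((-D.EB S i l / 2) ^ 2 - algebraMap k (Om k) (θ j) *
      ((-D.EB S i l / 2) ^ 2 - D.EA S i l ^ 3)) = aeval τ ((nθ i j).eval fun m => C (z m))) ∧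
    (∀ i, T.taQ S i = aeval τ ((nta i).eval fun m => C (z m))) ∧
    (∀ i, T.tbQ S i = aeval τ ((ntb i).eval fun m => C (z m))) ∧
    (∀ v : Place k (Om k), v.At τ 0 → ∃ π : Equiv.Perm (Fin n), ∀ j, D.At v (S j) (s (π j))) ∧
    ∀ v : Place k (Om k), ((∃ τ₁ : k, v.At τ τ₁ ∧ u + τ₁ * h z = 0) ∨
      (τ ∉ v.ring ∧ h z = 0)) → ∃ j, T.End v (S j)

end Pool.Agent.KFam.Iso
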