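import Pool.Agent.KIso.Sum
import Pool.Agent.KFam.GenZero
import Pool.Agent.TInf.GenZero
import Pool.Agent.TInf.MultiZero
import Pool.Agent.TInf.Generic

/-!
# The classes of general tuples are zero
-/

set_option autoImplicit false

noncomputable section

namespace Pool.Agent.KFam.Iso

open Pool.Agent.ZCyc Pool.Agent.TInf Polynomial
open Pool.Agent.VFP (Om tt)

universe u

variable {k : Type u} [Field k] [IsAlgClosed k] [CharZero k] {r n q : ℕ} {D : Base k r}
  {W : Type*} [AddCommGroup W] [Module ℚ W]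

omit [IsAlgClosed k] in
private theorem gz_V0 {α' B' : Fin n → k} {c : Cfg k n} (hc : c.Good α' B') :
    (c.M B').V0 = ∏ j, (c.side B' j).V := by
  have h1 : ∀ s ∈ c.sides B', s.Good := Cfg.sides_good hc
  unfold Mq.V0
  rw [Cfg.M_eq, V_st h1, Cfg.sides, List.map_map]
  have h2 : ∏ a, (c.side B' (c.ord a)).V = ∏ j, (c.side B' j).V :=
    Equiv.prod_comp c.ord fun j => (c.side B' j).V
  rw [← h2, Fin.prod_univ_def]
  rfl

omit [IsAlgClosed k] in
private theorem gz_V_ne {s : Side k} (hs : s.Good) : s.V ≠ 0 := by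
  obtain ⟨h1, h2, h3⟩ := hs
  exact div_ne_zero (mul_ne_zero h2 h3) (mul_ne_zero two_ne_zero h1)

private theorem gz_sgz (o : Equiv.Perm (Fin n)) : sgz o * sgz o = 1 := by
  unfold sgz
  rcases Int.units_eq_one_or (Equiv.Perm.sign o) with h | h <;> rw [h] <;> norm_num

/-- If the closing side for some index is degenerate or `Sg₀ = 0` use `MSl_closing`. Otherwise let
`P i = ∏ w i j`, `M i` the states, `Ξ`, `Θ` as in `clo_of_state`, `u i = γ i / P i`,
`γ i ² = ∏ α_i(s_j)`. For all `c : Fin r → ZMod 3` apply `GG_sum` to `ζ ^ (2 c) P`, `ζ ^ (- 2 c) u`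
(`Ξ` changes, but `Θ`, `P ³`, `u ³` do not). By `GG_shift` this is the hypothesis of `four1` for
`S κ l = GG Y ζ s M Θ (if κ i then u i else P i) l`. The sums over one coordinate of `l` are zero by
`Psi_sum`. So `S (fun _ => false) l = 0`, which is the claim by `clo_of_state`, `Psi_eq`. -/
theorem gen_zero' (Y : SysB D n W) (hn : 0 < n) {ζ : k}
    (hζ : IsPrimitiveRoot ζ 3) {s : Fin n → D.P} (hs : ∀ i, NdU (D.ea s i) (D.eb s i))
    (hsm : ∀ {M : Fin r → Mq k}, (∀ i, IsSt (D.ea s i) (D.eb s i) (M i)) → ∀ {Ξ Θ : Fin r → k}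
      {w : Bool → Fin r → k}, (∀ b i, Clo (D.ea s i) (M i) (Ξ i) (Θ i) (w b i)) →
      (∀ i, w false i ^ 2 + w true i ^ 2 = Ξ i) →
      (∀ i, w false i ^ 2 * w true i ^ 2 = ∏ j, D.ea s i j) → (∀ i, Θ i ≠ 0) →
      ∀ l : Fin r → ZMod 3, ∑ κ : Fin r → Bool, GG Y ζ s M Θ (fun i => w (κ i) i) l = 0)
    {c : Fin r → Cfg k n}
    (hc : ∀ i, (c i).Good (D.ea s i) (D.eb s i))
    (hA : ∀ i, Adm (D.ea s i) (D.eb s i) (c i).β) {w : Fin r → Fin n → k}
    (hw : ∀ i j, w i j ^ 6 = ((c i).side (D.eb s i) j).V) (l : Fin r → ZMod 3) :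
    MSl (Y.F s) ζ (D.ea s) (fun i => (c i).side (D.eb s i)) w l = 0 := by
  classical
  by_cases hcl : ∃ i, ((c i).M (D.eb s i)).b.eval 1 = 0 ∨
      ((c i).M (D.eb s i)).c.eval 1 = 0 ∨
      ((c i).M (D.eb s i)).b.eval 1 + ((c i).M (D.eb s i)).c.eval 1 = 0
  · obtain ⟨i, hi⟩ := hcl
    exact MSl_closing Y hζ hn hs hc hw i hi l
  push Not at hcl
  -- the states and the products
  obtain ⟨M, hM⟩ : ∃ M : Fin r → Mq k, ∀ i, (c i).M (D.eb s i) = M i := ⟨_, fun _ => rfl⟩
  obtain ⟨P, hP⟩ : ∃ P : Fin r → k, ∀ i, ∏ j, w i j = P i := ⟨_, fun _ => rfl⟩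
  have hP0 : ∀ i, P i ≠ 0 := by
    intro i
    rw [← hP i]
    refine Finset.prod_ne_zero_iff.2 fun j _ h => ?_
    have h1 := hw i j
    rw [h, zero_pow (by norm_num)] at h1
    exact gz_V_ne ((hc i).2 j) h1.symm
  have hSt : ∀ i, IsSt (D.ea s i) (D.eb s i) (M i) := fun i => by
    rw [← hM i]
    exact isSt_of_cfg (hc i)
  have hV0 : ∀ i, (M i).V0 = P i ^ 6 := by
    intro i
    rw [← hM i, gz_V0 (hc i), ← hP i, ← Finset.prod_pow]
    exact Finset.prod_congr rfl fun j _ => (hw i j).symm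
  have hne : ∀ i, (M i).b.eval 1 * (M i).c.eval 1 ≠ 0 := by
    intro i
    have h1 := hcl i
    rw [hM i] at h1
    exact mul_ne_zero h1.1 h1.2.1
  have hsum : ∀ i, (M i).b.eval 1 + (M i).c.eval 1 ≠ 0 := by
    intro i
    have h1 := hcl i
    rw [hM i] at h1
    exact h1.2.2
  obtain ⟨Θ, hΘ⟩ : ∃ Θ : Fin r → k, ∀ i, -((M i).b.eval 1 + (M i).c.eval 1) / 2 / P i ^ 3 = Θ i :=
    ⟨_, fun _ => rfl⟩
  have hclo := fun i => clo_of_state (α := D.ea s i) (M := M i) (w := P i) (hSt i).bc (hne i)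
    (hP0 i) (hV0 i)
  simp only [hΘ] at hclo
  have hΘ0 : ∀ i, Θ i ≠ 0 := by
    intro i
    rw [← hΘ i]
    exact div_ne_zero (div_ne_zero (neg_ne_zero.2 (hsum i)) two_ne_zero) (pow_ne_zero 3 (hP0 i))
  have hγ : ∀ i, ∃ γ : k, γ ^ 2 = ∏ j, D.ea s i j := fun i =>
    IsAlgClosed.exists_pow_nat_eq _ (by norm_num)
  choose γ hγ using hγ
  have hα0 : ∀ i, ∏ j, D.ea s i j ≠ 0 := fun i =>
    Finset.prod_ne_zero_iff.2 fun j _ => (hs i).hα j
  have hγ0 : ∀ i, γ i ≠ 0 := by
    intro i h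
    apply hα0 i
    rw [← hγ i, h]
    norm_num
  obtain ⟨u, hu⟩ : ∃ u : Fin r → k, ∀ i, γ i / P i = u i := ⟨_, fun _ => rfl⟩
  have hu0 : ∀ i, u i ≠ 0 := fun i => by
    rw [← hu i]
    exact div_ne_zero (hγ0 i) (hP0 i)
  have huP : ∀ i, P i ^ 2 * u i ^ 2 = ∏ j, D.ea s i j := by
    intro i
    rw [← hu i, ← hγ i, ← mul_pow, mul_div_cancel₀ _ (hP0 i)]
  have hth : ∀ i, Θ i ^ 2 = P i ^ 6 + u i ^ 6 - 2 * (M i).a.eval 1 := by
    intro i
    have h1 := (hclo i).1.th
    have h2 : (∏ j, D.ea s i j) / P i ^ 2 = u i ^ 2 := by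
      rw [← huP i, mul_div_cancel_left₀ _ (pow_ne_zero 2 (hP0 i))]
    rw [h2] at h1
    rw [h1, ← huP i]
    ring
  have hζ3 : ζ ^ 3 = 1 := hζ.pow_eq_one
  -- the hypothesis of `four1`
  let S : (Fin r → Bool) → (Fin r → ZMod 3) → W := fun κ m =>
    GG Y ζ s M Θ (fun i => if κ i then u i else P i) m
  have key : S (fun _ => false) l = 0 := by
    refine four1 S ?_ ?_ l
    · intro m x
      -- the exponents
      let e : (Fin r → Bool) → Fin r → ℕ := fun κ i =>
        if κ i then (x i).val else 2 * (x i).val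
      have h1 : ∀ κ : Fin r → Bool, S κ (fun i => if κ i then m i - x i else m i + x i) =
          GG Y ζ s M Θ (fun i => ζ ^ e κ i * (if κ i then u i else P i)) m := by
        intro κ
        rw [GG_shift Y hζ hn hs]
        simp only [S]
        congr 1
        funext i
        have hx : (((x i).val : ℕ) : ZMod 3) = x i := ZMod.natCast_zmod_val (x i)
        by_cases hκ : κ i
        · simp only [hκ, if_true, e, hx]
          have : (3 : ZMod 3) = 0 := rfl
          linear_combination (-(x i)) * this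
        · simp only [hκ, Bool.false_eq_true, if_false, e]
          push_cast
          rw [hx]
          have : (3 : ZMod 3) = 0 := rfl
          linear_combination (-(x i)) * this
      rw [Finset.sum_congr rfl fun κ _ => h1 κ]
      -- the roots
      let v : Bool → Fin r → k := fun b i =>
        if b then ζ ^ (x i).val * u i else ζ ^ (2 * (x i).val) * P i
      have h2 : ∀ κ : Fin r → Bool, (fun i => ζ ^ e κ i * (if κ i then u i else P i)) =
          fun i => v (κ i) i := by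
        intro κ
        funext i
        by_cases hκ : κ i
        · simp only [hκ, if_true, e, v]
        · simp only [hκ, Bool.false_eq_true, if_false, e, v]
      simp only [h2]
      have hz : ∀ i, (ζ ^ (x i).val) ^ 3 = 1 := fun i => by
        rw [← pow_mul, mul_comm, pow_mul, hζ3, one_pow]
      have hv2 : ∀ i, v false i ^ 2 * v true i ^ 2 = ∏ j, D.ea s i j := by
        intro i
        simp only [v, Bool.false_eq_true, if_false, if_true]
        rw [← huP i]
        have h3 : (ζ ^ (2 * (x i).val) * P i) ^ 2 * (ζ ^ (x i).val * u i) ^ 2 =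
            ((ζ ^ (x i).val) ^ 3) ^ 2 * (P i ^ 2 * u i ^ 2) := by
          rw [mul_comm 2 (x i).val, pow_mul]
          ring
        rw [h3, hz i, one_pow, one_mul]
      have hv0 : ∀ b i, v b i ≠ 0 := by
        intro b i
        have hζ0 : ζ ≠ 0 := hζ.ne_zero (by norm_num)
        cases b
        · simp only [v, Bool.false_eq_true, if_false]
          exact mul_ne_zero (pow_ne_zero _ hζ0) (hP0 i)
        · simp only [v, if_true]
          exact mul_ne_zero (pow_ne_zero _ hζ0) (hu0 i)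
      have hv6 : ∀ i, v false i ^ 6 = P i ^ 6 ∧ v true i ^ 6 = u i ^ 6 := by
        intro i
        simp only [v, Bool.false_eq_true, if_false, if_true]
        constructor
        · have h3 : (ζ ^ (2 * (x i).val) * P i) ^ 6 = ((ζ ^ (x i).val) ^ 3) ^ 4 * P i ^ 6 := by
            rw [mul_comm 2 (x i).val, pow_mul]
            ring
          rw [h3, hz i, one_pow, one_mul]
        · have h3 : (ζ ^ (x i).val * u i) ^ 6 = ((ζ ^ (x i).val) ^ 3) ^ 2 * u i ^ 6 := by ring
          rw [h3, hz i, one_pow, one_mul]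
      refine hsm hSt (Ξ := fun i => v false i ^ 2 + v true i ^ 2) (w := v) ?_
        (fun i => rfl) hv2 hΘ0 m
      intro b i
      refine ⟨(hSt i).bc, hne i, hv0 b i, ?_, ?_⟩
      · rw [← hv2 i]
        cases b <;> ring
      · rw [← hv2 i, hth i, ← (hv6 i).1, ← (hv6 i).2]
        ring
    · intro κ m i
      exact Psi_sum Y hζ hn hs _ _ m i
  -- the conclusion
  have hfin : Psi Y ζ s M P l = 0 := by
    have h1 : S (fun _ => false) l = Psi Y ζ s M P l := by
      simp only [S, GG, Bool.false_eq_true, if_false]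
      congr 1
      funext i
      exact (hclo i).2
    rw [← h1]
    exact key
  rw [Psi_eq Y hζ hs (c := c) (w := w) (fun i =>
    { good := hc i
      st := hM i
      w6 := hw i
      prod := hP i
      adm := hA i }) l] at hfin
  have hsg : (∏ i, sgz (c i).ord) * ∏ i, sgz (c i).ord = 1 := by
    rw [← Finset.prod_mul_distrib]
    exact Finset.prod_eq_one fun i _ => gz_sgz _
  have h1 := congrArg (fun y => (∏ i, sgz (c i).ord) • y) hfin
  simpa only [smul_smul, hsg, one_smul, smul_zero] using h1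

/-- compare `Pool.Agent.KFam.SysB.zero_gen` -/
theorem zero_gen' (Y : SysB D n W) (hn : 0 < n) {s : Fin n → D.P}
    (hN : ∀ i, NdU (D.ea s i) (D.eb s i)) {ζ : k} (hζ : IsPrimitiveRoot ζ 3)
    (hsm : ∀ {M : Fin r → Mq k}, (∀ i, IsSt (D.ea s i) (D.eb s i) (M i)) → ∀ {Ξ Θ : Fin r → k}
      {w : Bool → Fin r → k}, (∀ b i, Clo (D.ea s i) (M i) (Ξ i) (Θ i) (w b i)) →
      (∀ i, w false i ^ 2 + w true i ^ 2 = Ξ i) →
      (∀ i, w false i ^ 2 * w true i ^ 2 = ∏ j, D.ea s i j) → (∀ i, Θ i ≠ 0) →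
      ∀ l : Fin r → ZMod 3, ∑ κ : Fin r → Bool, GG Y ζ s M Θ (fun i => w (κ i) i) l = 0)
    (p : Fin r → Fin n → EPt k) : Y.F s p = 0 := by
  by_cases hp : D.On s p
  swap
  · exact Y.off s p hp
  have hadm := fun i => exists_adm (hN i) hn
  choose β hβ using hadm
  refine multi_zero (Y.multi s) hn hζ (fun i j => -D.eb s i j / 2 + β i j)
    (fun i j => -D.eb s i j / 2 - β i j) (fun i j => by ring) (fun i j => ?_)
    (fun i j => (hN i).hα j) (fun i j => ?_) ?_ p hp
  · have h4 := (hβ i).1 j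
    linear_combination 4 * h4
  · intro h0
    have h4 := (hβ i).1 j
    apply (hN i).disc j
    linear_combination 4 * h0 + 4 * h4
  · intro T w hT hw l
    have hg : ∀ i, (⟨1, β i, T i⟩ : Cfg k n).Good (D.ea s i) (D.eb s i) := fun i =>
      ⟨(hβ i).1, fun j => hT i j⟩
    exact gen_zero' Y hn hζ hN hsm (c := fun i => ⟨1, β i, T i⟩) hg hβ hw l

/-- The classes are zero for all points of the curves over a general tuple with deformations with
sufficiently many parameters. -/
theorem SysG.zero_gen {T : Tot D n q} (Y : SysG D T W) {d : Fin r → ℕ} {e : Fin q → ℕ} {n₀ : ℕ}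
    (hd : ∑ i, d i + ∑ i, e i = 2 * n₀) (hn₀ : 0 < n₀) (hn : 0 < n) {s : Fin n → D.P}
    (hs : D.Gen s) (F : CurveFamG D T d e s) (hρ₀ : n₀ ≤ F.ρ) (g : Fin q → EPt k)
    (p : Fin r → Fin n → EPt k) : Y.F s g p = 0 := by
  by_cases hg : T.On s g
  swap
  · exact Y.offG s g p hg
  by_cases hnone : ∃ i, g i = none
  · obtain ⟨i, hi⟩ := hnone
    exact Y.infG s g p i hi
  push Not at hnone
  have hex : ∀ i, ∃ z : k × k, g i = some z := fun i => Option.ne_none_iff_exists'.1 (hnone i)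
  choose z hz using hex
  have hgz : g = fun i => some ((z i).1, (z i).2) := funext hz
  by_cases h0 : ∃ i, (z i).2 = 0
  · obtain ⟨i, hi⟩ := h0
    have h1 := Y.oddG s g p i (z i).1 (z i).2 (hz i)
    have h2 : Function.update g i (some ((z i).1, -(z i).2)) = g := by
      rw [hi, neg_zero, Function.update_eq_self_iff, hz i]
      rw [← hi]
    rw [h2] at h1
    have h3 : (2 : ℚ) • Y.F s g p = 0 := by
      rw [two_smul]
      nth_rewrite 2 [h1]
      rw [add_neg_cancel]
    exact (smul_eq_zero.1 h3).resolve_left two_ne_zero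
  push Not at h0
  obtain ⟨ζ, hζ⟩ := HasEnoughRootsOfUnity.exists_primitiveRoot k 3
  rw [hgz]
  rw [hgz] at hg
  exact zero_gen' (D := constBase D) (Y.at fun i => some ((z i).1, (z i).2)) hn
    (s := s) hs.nd hζ (fun hSt _ _ _ hC hw1 hw2 hΘ l =>
      GG_sum Y hd hn₀ hn hζ hs F hρ₀ hSt hC hw1 hw2 hΘ h0 hg l) p

end Pool.Agent.KFam.Iso
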