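import Pool.Agent.KIso.MkSys
import Pool.Agent.KIso.Zero

/-!
# The classes are zero, isotrivial indices with `α = 0` or `B = 0` included
-/

set_option autoImplicit false

noncomputable section

namespace Pool.Agent.KFam.Iso

open Pool.Agent.ZCyc Pool.Agent.TInf Polynomial
open Pool.Agent.VFP (Om tt)

universe u

variable {k : Type u} [Field k]

/-- For every index the numbers `B ² / α ³` are distinct at the `s j`, or they are the same at all
points of the base, or `α = 0` at all points, or `B = 0` at all points. -/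
def GenI {N n : ℕ} (D : Base k N) (s : Fin n → D.P) : Prop :=
  ∀ i, (NdU (D.ea s i) (D.eb s i) ∧
    ((∀ j j', j ≠ j' → D.eb s i j ^ 2 * D.ea s i j' ^ 3 ≠ D.eb s i j' ^ 2 * D.ea s i j ^ 3) ∨
      ∃ c : k, c ≠ 0 ∧ (∀ x, D.be i x ^ 2 = c * D.al i x ^ 3) ∧
        ∀ X, D.beQ i X ^ 2 = algebraMap k (Om k) c * D.alQ i X ^ 3)) ∨
    ((∀ x, D.al i x = 0) ∧ (∀ X, D.alQ i X = 0) ∧ ∀ j, D.be i (s j) ≠ 0) ∨
    ((∀ x, D.be i x = 0) ∧ (∀ X, D.beQ i X = 0) ∧ ∀ j, D.al i (s j) ≠ 0)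

variable {N r n q : ℕ} {D : Base k N} {E : Fin r ⊕ Fin q ≃ Fin N}

/-- the family for the restricted base -/
def famG [CharZero k] {d : Fin N → ℕ} {s : Fin n → D.P} (F : CurveFam D d s)
    {s' : Fin n → (subBase D E).P} (hs : ∀ j, (s' j).1 = s j) :
    CurveFamG (subBase D E) (subTot D E : Tot _ n q) (fun i => d (E (.inl i)))
      (fun i => d (E (.inr i))) s' where
  ρ := F.ρ
  nα i := F.nα (E (.inl i))
  nb i := F.nb (E (.inl i))
  nθ i j := F.nθ (E (.inl i)) j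
  nta i := F.nα (E (.inr i))
  ntb i := MvPolynomial.C (C ((-2) ^ n)) * F.nb (E (.inr i))
  θ := F.θ
  inj := F.inj
  ne := F.ne
  dα i z := F.dα _ z
  db i z := F.db _ z
  dθ i j z := F.dθ _ j z
  dta i z := F.dα _ z
  dtb i z := by
    rw [MvPolynomial.coeff_C_mul]
    exact (natDegree_C_mul_le _ _).trans (F.db _ z)
  zα i z := by
    rw [F.zα]
    exact Finset.prod_congr rfl fun j _ => by
      show D.al _ (s j) = D.al _ (s' j).1
      rw [hs j]
  zb i z := by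
    rw [F.zb]
    exact Finset.prod_congr rfl fun j _ => by
      show -D.be _ (s j) / 2 = -D.be _ (s' j).1 / 2
      rw [hs j]
  zθ i j z := by
    rw [F.zθ]
    exact Finset.prod_congr rfl fun l _ => by
      show (-D.be _ (s l) / 2) ^ 2 - F.θ j * ((-D.be _ (s l) / 2) ^ 2 - D.al _ (s l) ^ 3) =
        (-D.be _ (s' l).1 / 2) ^ 2 - F.θ j * ((-D.be _ (s' l).1 / 2) ^ 2 - D.al _ (s' l).1 ^ 3)
      rw [hs l]
  zta i z := by
    rw [F.zα]
    exact Finset.prod_congr rfl fun j _ => by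
      show D.al _ (s j) = D.al _ (s' j).1
      rw [hs j]
  ztb i z := by
    rw [map_mul, MvPolynomial.eval_C, eval_mul, eval_C, F.zb]
    show _ = ∏ j, D.be _ (s' j).1
    have e : ((-2 : k)) ^ n = ∏ _j : Fin n, (-2 : k) := by simp
    rw [e, ← Finset.prod_mul_distrib]
    refine Finset.prod_congr rfl fun j _ => ?_
    show -2 * (-D.be _ (s j) / 2) = D.be _ (s' j).1
    rw [hs j]
    have : (2 : k) ≠ 0 := two_ne_zero
    field_simp
  cα i := by
    rw [F.cα]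
    congr 1
    exact Finset.prod_congr rfl fun j _ => by
      show D.al _ (s j) = D.al _ (s' j).1
      rw [hs j]
  cb i := by
    rw [F.cb]
    congr 1
    exact Finset.prod_congr rfl fun j _ => by
      show -D.be _ (s j) / 2 = -D.be _ (s' j).1 / 2
      rw [hs j]
  cθ i j := by
    rw [F.cθ]
    congr 1
    exact Finset.prod_congr rfl fun l _ => by
      show (-D.be _ (s l) / 2) ^ 2 - F.θ j * ((-D.be _ (s l) / 2) ^ 2 - D.al _ (s l) ^ 3) =
        (-D.be _ (s' l).1 / 2) ^ 2 - F.θ j * ((-D.be _ (s' l).1 / 2) ^ 2 - D.al _ (s' l).1 ^ 3)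
      rw [hs l]
  cta i := by
    rw [F.cα]
    congr 1
    exact Finset.prod_congr rfl fun j _ => by
      show D.al _ (s j) = D.al _ (s' j).1
      rw [hs j]
  ctb i := by
    rw [map_mul, MvPolynomial.eval_C, F.cb, ← C_mul]
    congr 1
    show _ = ∏ j, D.be _ (s' j).1
    have e : ((-2 : k)) ^ n = ∏ _j : Fin n, (-2 : k) := by simp
    rw [e, ← Finset.prod_mul_distrib]
    refine Finset.prod_congr rfl fun j _ => ?_
    show -2 * (-D.be _ (s j) / 2) = D.be _ (s' j).1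
    rw [hs j]
    have : (2 : k) ≠ 0 := two_ne_zero
    field_simp
  u := F.u
  h := F.h
  u_ne := F.u_ne
  pts := by
    intro z hz τ hτ hv
    obtain ⟨S, h1, h2, h3, h4, h5⟩ := F.pts z hz τ hτ hv
    obtain ⟨v, hv0⟩ := hv
    obtain ⟨π, hπ⟩ := h4 v hv0
    have hne : ∀ {x : Om k} {c : k}, v.At x c → c ≠ 0 → x ≠ 0 := by
      rintro x c hx hc rfl
      exact hc (hx.unique VFP.at_zero)
    have hS : ∀ j i, D.alQ (E (.inr i)) (S j) ≠ 0 ∨ D.beQ (E (.inr i)) (S j) ≠ 0 := by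
      intro j i
      have h6 := (s' (π j)).2 i
      rw [hs (π j)] at h6
      exact h6.imp (fun h => hne (D.at_al v _ _ (hπ j) _) h)
        fun h => hne (D.at_be v _ _ (hπ j) _) h
    refine ⟨fun j => ⟨S j, hS j⟩, fun i => h1 _, fun i => h2 _, fun i j => h3 _ j,
      fun i => h1 _, fun i => ?_, fun v' hv' => ?_, fun v' hv' => ?_⟩
    · have e1 : (subTot D E : Tot _ n q).tbQ (fun j => ⟨S j, hS j⟩) i =
          ∏ j, D.beQ (E (.inr i)) (S j) := rfl
      have e2 := h2 (E (.inr i))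
      rw [e1, map_mul, MvPolynomial.eval_C, map_mul, ← e2, aeval_C]
      have e : ((-2 : k)) ^ n = ∏ _j : Fin n, (-2 : k) := by simp
      rw [e, map_prod, ← Finset.prod_mul_distrib]
      refine Finset.prod_congr rfl fun j _ => ?_
      show D.beQ _ (S j) = algebraMap k (Om k) (-2) * (-D.beQ _ (S j) / 2)
      rw [map_neg, map_ofNat]
      have : (2 : Om k) ≠ 0 := two_ne_zero
      field_simp
    · obtain ⟨π', hπ'⟩ := h4 v' hv'
      refine ⟨π', fun j => ?_⟩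
      show D.At v' (S j) (s' (π' j)).1
      rw [hs]
      exact hπ' j
    · obtain ⟨j, i, hji⟩ := h5 v' hv'
      exact ⟨j, i, hji⟩

variable [IsAlgClosed k] [CharZero k] {W : Type*} [AddCommGroup W] [Module ℚ W]

/-- the class is zero for a base with `r + q` indices -/
theorem zero_part (Y : SysB D n W) {d : Fin N → ℕ} {n₀ : ℕ} (hd : ∑ i, d i = 2 * n₀)
    (hn₀ : 0 < n₀) (hn : 0 < n) {s : Fin n → D.P} (F : CurveFam D d s) (hρ₀ : n₀ ≤ F.ρ)
    (hgen : ∀ i : Fin r, NdU (D.ea s (E (.inl i))) (D.eb s (E (.inl i))) ∧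
      ((∀ j j', j ≠ j' → D.eb s (E (.inl i)) j ^ 2 * D.ea s (E (.inl i)) j' ^ 3 ≠
        D.eb s (E (.inl i)) j' ^ 2 * D.ea s (E (.inl i)) j ^ 3) ∨
      ∃ c : k, c ≠ 0 ∧ (∀ x, D.be (E (.inl i)) x ^ 2 = c * D.al (E (.inl i)) x ^ 3) ∧
        ∀ X, D.beQ (E (.inl i)) X ^ 2 = algebraMap k (Om k) c * D.alQ (E (.inl i)) X ^ 3))
    {a b : Fin q → k} (hI : ∀ i, IsoIdx D (E (.inr i)) (a i) (b i))
    (hu : ∀ i j, D.al (E (.inr i)) (s j) ≠ 0 ∨ D.be (E (.inr i)) (s j) ≠ 0)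
    (p : Fin N → Fin n → EPt k) : Y.F s p = 0 := by
  by_cases hp : D.On s p
  swap
  · exact Y.off s p hp
  have hidx : ∀ i j, rt (a i) (b i) (D.al (E (.inr i)) (s j)) (D.be (E (.inr i)) (s j)) ≠ 0 ∧
      D.al (E (.inr i)) (s j) =
        rt (a i) (b i) (D.al (E (.inr i)) (s j)) (D.be (E (.inr i)) (s j)) ^ 4 * a i ∧
      D.be (E (.inr i)) (s j) =
        rt (a i) (b i) (D.al (E (.inr i)) (s j)) (D.be (E (.inr i)) (s j)) ^ 6 * b i := by
    intro i j
    refine rt_spec (rt_exists ?_ (hu i j))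
    rcases hI i with h | h
    · exact Or.inl ⟨h.1, h.2.1, h.2.2.1 _⟩
    · exact Or.inr ⟨h.1, h.2.1, h.2.2.1 _⟩
  set c : Fin q → Fin n → k := fun i j =>
    rt (a i) (b i) (D.al (E (.inr i)) (s j)) (D.be (E (.inr i)) (s j)) with hc
  have hc0 : ∀ i j, c i j ≠ 0 := fun i j => (hidx i j).1
  have hp0 : ∀ i, ∏ l, c i l ≠ 0 := fun i => Finset.prod_ne_zero_iff.2 fun l _ => hc0 i l
  have hZ : ∀ i j, EOn (a i) (b i) (tw (c i j)⁻¹ (p (E (.inr i)) j)) := by
    intro i j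
    refine tw_inv_on (hc0 i j) ?_
    have h1 : D.al (E (.inr i)) (s j) = c i j ^ 4 * a i := (hidx i j).2.1
    have h2 : D.be (E (.inr i)) (s j) = c i j ^ 6 * b i := (hidx i j).2.2
    rw [← h1, ← h2]
    exact hp _ j
  let s' : Fin n → (subBase D E).P := fun j => ⟨s j, fun i => hu i j⟩
  let t : Dt D E n := ⟨a, b, hI, ⟨0, hn⟩, fun i j => tw (c i j)⁻¹ (p (E (.inr i)) j), hZ⟩
  have htc : t.c s' = c := rfl
  have hG : (subBase D E).Gen s' := by
    refine ⟨fun i => (hgen i).1, fun i => ?_⟩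
    rcases (hgen i).2 with h | ⟨c', h1, h2, h3⟩
    · exact Or.inl h
    · exact Or.inr ⟨c', h1, fun x => h2 x.1, fun X => h3 X.1⟩
  have hsum : ∑ i, d (E (.inl i)) + ∑ i, d (E (.inr i)) = 2 * n₀ := by
    rw [← hd, ← Equiv.sum_comp E d, Fintype.sum_sum_type]
  -- the variable points
  let g : Fin q → EPt k := fun i => tw ((∏ l, c i l) * (c i t.j₀)⁻¹) (p (E (.inr i)) t.j₀)
  have hzero : Y.F s (comb E (fun i => p (E (.inl i))) (t.rows s' g)) = 0 :=
    (t.sys Y).zero_gen hsum hn₀ hn hG (famG F (s' := s') fun _ => rfl) hρ₀ g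
      (fun i => p (E (.inl i)))
  have h3 : comb E (fun i => p (E (.inl i))) (t.rows s' g) = p := by
    funext i
    obtain ⟨x, rfl⟩ := E.surjective i
    rcases x with i | i
    · rw [comb_inl]
    · rw [comb_inr]
      funext l
      unfold Dt.rows row rr
      rw [htc]
      by_cases hl : l = t.j₀
      · rw [if_pos hl, hl]
        show tw (c i t.j₀) (tw (∏ l, c i l)⁻¹ (tw ((∏ l, c i l) * (c i t.j₀)⁻¹)
          (p (E (.inr i)) t.j₀))) = _
        rw [tw_tw, tw_tw]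
        have e : c i t.j₀ * (∏ l, c i l)⁻¹ * ((∏ l, c i l) * (c i t.j₀)⁻¹) = 1 := by
          have h1 := hc0 i t.j₀
          have h2 := hp0 i
          field_simp
        rw [e, tw_one]
      · rw [if_neg hl]
        show tw (c i l) (tw (c i l)⁻¹ (p (E (.inr i)) l)) = _
        rw [tw_tw, mul_inv_cancel₀ (hc0 i l), tw_one]
  rw [h3] at hzero
  exact hzero

/-- The class is zero for all points of the curves over a general tuple with deformations with
sufficiently many parameters; indices with `α = 0` or `B = 0` are allowed. -/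
theorem zero_iso (Y : SysB D n W) {d : Fin N → ℕ} {n₀ : ℕ} (hd : ∑ i, d i = 2 * n₀)
    (hn₀ : 0 < n₀) (hn : 0 < n) {s : Fin n → D.P} (hs : GenI D s) (F : CurveFam D d s)
    (hρ₀ : n₀ ≤ F.ρ) (p : Fin N → Fin n → EPt k) : Y.F s p = 0 := by
  classical
  let G : Fin N → Prop := fun i => NdU (D.ea s i) (D.eb s i) ∧
    ((∀ j j', j ≠ j' → D.eb s i j ^ 2 * D.ea s i j' ^ 3 ≠ D.eb s i j' ^ 2 * D.ea s i j ^ 3) ∨
      ∃ c : k, c ≠ 0 ∧ (∀ x, D.be i x ^ 2 = c * D.al i x ^ 3) ∧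
        ∀ X, D.beQ i X ^ 2 = algebraMap k (Om k) c * D.alQ i X ^ 3)
  let E : Fin (Fintype.card {i // G i}) ⊕ Fin (Fintype.card {i // ¬ G i}) ≃ Fin N :=
    (Equiv.sumCongr (Fintype.equivFin _).symm (Fintype.equivFin _).symm).trans (Equiv.sumCompl G)
  have hl : ∀ i, G (E (.inl i)) := fun i => ((Fintype.equivFin {i // G i}).symm i).2
  have hr : ∀ i, ¬ G (E (.inr i)) := fun i => ((Fintype.equivFin {i // ¬ G i}).symm i).2
  have hr2 : ∀ i, ((∀ x, D.al (E (.inr i)) x = 0) ∧ (∀ X, D.alQ (E (.inr i)) X = 0) ∧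
      ∀ j, D.be (E (.inr i)) (s j) ≠ 0) ∨ ((∀ x, D.be (E (.inr i)) x = 0) ∧
      (∀ X, D.beQ (E (.inr i)) X = 0) ∧ ∀ j, D.al (E (.inr i)) (s j) ≠ 0) := fun i =>
    (hs (E (.inr i))).resolve_left (hr i)
  have hab : ∀ i, ∃ ab : k × k, IsoIdx D (E (.inr i)) ab.1 ab.2 := by
    intro i
    rcases hr2 i with h | h
    · exact ⟨(0, 1), Or.inl ⟨rfl, rfl, h.1, h.2.1⟩⟩
    · exact ⟨(1, 0), Or.inr ⟨rfl, rfl, h.1, h.2.1⟩⟩
  choose ab hab using hab
  refine zero_part (E := E) Y hd hn₀ hn F hρ₀ hl (a := fun i => (ab i).1)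
    (b := fun i => (ab i).2) hab (fun i j => ?_) p
  rcases hr2 i with h | h
  · exact Or.inr (h.2.2 j)
  · exact Or.inl (h.2.2 j)

end Pool.Agent.KFam.Iso
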