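import Pool.Agent.KFam.GGSym
import Pool.Agent.KIso.Defs

/-!
# Changes of signs
-/

set_option autoImplicit false

noncomputable section

namespace Pool.Agent.KFam.Iso

open Pool.Agent.ZCyc Pool.Agent.TInf Polynomial
open Pool.Agent.VFP (Om tt)

universe u

variable {k : Type u} [Field k] {r n q : ℕ} {D : Base k r}
  {T : Tot D n q} {W : Type*} [AddCommGroup W] [Module ℚ W]

theorem Psi_smul {D : Base k r} {Y Y' : SysB D n W} {s : Fin n → D.P} {c : ℤ}
    (h : ∀ p, Y'.F s p = c • Y.F s p) (ζ : k) (M : Fin r → Mq k) (P : Fin r → k)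
    (l : Fin r → ZMod 3) : Psi Y' ζ s M P l = c • Psi Y ζ s M P l := by
  unfold Psi
  split_ifs with h1
  · rw [smul_comm]
    congr 1
    unfold MSl
    rw [Finset.smul_sum]
    refine Finset.sum_congr rfl fun a _ => ?_
    split_ifs
    · exact h _
    · rw [smul_zero]
  · rw [smul_zero]

theorem GG_smul {D : Base k r} {Y Y' : SysB D n W} {s : Fin n → D.P} {c : ℤ}
    (h : ∀ p, Y'.F s p = c • Y.F s p) (ζ : k) (M : Fin r → Mq k) (Θ w : Fin r → k)
    (l : Fin r → ZMod 3) : GG Y' ζ s M Θ w l = c • GG Y ζ s M Θ w l :=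
  Psi_smul h ζ _ _ l

/-- change of signs of the `y`-coordinates of the points `g i` -/
theorem SysG.F_signs (Y : SysG D T W) (s : Fin n → D.P) (X U U' : Fin q → k)
    (h : ∀ i, U' i = U i ∨ U' i = -U i) (hU : ∏ i, U i ≠ 0) {ε : ℤ}
    (hε : ∏ i, U' i = (ε : k) * ∏ i, U i) (h1 : ε = 1 ∨ ε = -1) (h2 : (2 : k) ≠ 0)
    (p : Fin r → Fin n → EPt k) :
    Y.F s (fun i => some (X i, U' i)) p = ε • Y.F s (fun i => some (X i, U i)) p := by
  classical
  have he : ∀ i, ∃ e : ℤ, (e = 1 ∨ e = -1) ∧ U' i = (e : k) * U i := by
    intro i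
    rcases h i with h | h
    · exact ⟨1, Or.inl rfl, by rw [h]; push_cast; ring⟩
    · exact ⟨-1, Or.inr rfl, by rw [h]; push_cast; ring⟩
  choose e he1 he2 using he
  have key : ∀ J : Finset (Fin q),
      Y.F s (fun i => some (X i, if i ∈ J then U' i else U i)) p =
        (∏ i ∈ J, e i) • Y.F s (fun i => some (X i, U i)) p := by
    intro J
    induction J using Finset.induction_on with
    | empty => simp
    | insert i J hi ih =>
      rw [Finset.prod_insert hi, mul_smul, ← ih]
      have e1 : (fun i' => (some (X i', if i' ∈ insert i J then U' i' else U i') : EPt k)) =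
          Function.update (fun i' => some (X i', if i' ∈ J then U' i' else U i')) i
            (some (X i, U' i)) := by
        funext i'
        by_cases h' : i' = i
        · subst h'
          rw [Function.update_self, if_pos (Finset.mem_insert_self _ _)]
        · rw [Function.update_of_ne h']
          simp only [Finset.mem_insert, h', false_or]
      rw [e1]
      rcases he1 i with h3 | h3
      · rw [h3, one_smul]
        congr 1
        have h4 : U' i = U i := by
          have := he2 i
          rw [h3] at this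
          simpa using this
        have h5 : (some (X i, U' i) : EPt k) = some (X i, if i ∈ J then U' i else U i) := by
          rw [if_neg hi, h4]
        rw [h5]
        exact Function.update_eq_self i fun i' => (some (X i', if i' ∈ J then U' i' else U i') :
          EPt k)
      · rw [h3, neg_smul, one_smul]
        have h4 : U' i = -U i := by
          have := he2 i
          rw [h3] at this
          simpa using this
        have h5 := Y.oddG s (fun i' => some (X i', if i' ∈ J then U' i' else U i')) p i (X i)
          (U i) (by rw [if_neg hi])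
        rw [h4]
        exact h5
  have h3 := key Finset.univ
  simp only [Finset.mem_univ, if_true] at h3
  rw [h3]
  congr 1
  have h4 : ((∏ i, e i : ℤ) : k) = (ε : k) := by
    have h5 : ∏ i, U' i = ((∏ i, e i : ℤ) : k) * ∏ i, U i := by
      push_cast
      rw [← Finset.prod_mul_distrib]
      exact Finset.prod_congr rfl fun i _ => he2 i
    rw [hε] at h5
    exact (mul_right_cancel₀ hU h5).symm
  have h5 : (∏ i, e i) = 1 ∨ (∏ i, e i) = -1 := by
    have h6 : ∀ J : Finset (Fin q), (∏ i ∈ J, e i) = 1 ∨ (∏ i ∈ J, e i) = -1 := by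
      intro J
      induction J using Finset.induction_on with
      | empty => left; simp
      | insert i J hi ih =>
        rw [Finset.prod_insert hi]
        rcases ih with h | h <;> rcases he1 i with h' | h' <;> rw [h, h'] <;> simp
    exact h6 _
  have h6 : (1 : k) ≠ -1 := by
    intro h7
    apply h2
    linear_combination h7
  rcases h5 with h5 | h5 <;> rcases h1 with h1 | h1 <;> rw [h5, h1] at h4 ⊢
  · exfalso
    apply h6
    push_cast at h4
    exact h4
  · exfalso
    apply h6
    push_cast at h4
    exact h4.symm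

variable [IsAlgClosed k] [CharZero k]

/-- `GG_signs` without the assumption about the parity -/
theorem GG_signs' {D : Base k r} (Y : SysB D n W) {ζ : k} (hζ : IsPrimitiveRoot ζ 3)
    (hn : 0 < n) {s : Fin n → D.P} (hs : ∀ i, NdU (D.ea s i) (D.eb s i)) {M : Fin r → Mq k}
    {Θ w Ξ Θ' w' : Fin r → k} (hC : ∀ i, Clo (D.ea s i) (M i) (Ξ i) (Θ i) (w i))
    (h1 : ∀ i, Θ' i = Θ i ∨ Θ' i = -Θ i) (h2 : ∀ i, w' i = w i ∨ w' i = -w i) {ε : ℤ}
    (hε : ε = 1 ∨ ε = -1) (h3 : ∏ i, Θ' i = (ε : k) * ∏ i, Θ i) (h4 : ∏ i, Θ i ≠ 0)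
    (l : Fin r → ZMod 3) :
    GG Y ζ s M Θ' w' l = ε • GG Y ζ s M Θ w l := by
  rcases hε with rfl | rfl
  · rw [one_smul]
    refine GG_signs Y hζ hn hs hC h1 h2 ?_ h4 l
    rw [h3]
    push_cast
    ring
  · rw [neg_smul, one_smul]
    have hr : 0 < r := by
      rcases Nat.eq_zero_or_pos r with h | h
      · subst h
        simp only [Finset.univ_eq_empty, Finset.prod_empty] at h3
        exfalso
        have h5 : (2 : k) = 0 := by
          push_cast at h3
          linear_combination h3
        exact two_ne_zero h5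
      · exact h
    set i₀ : Fin r := ⟨0, hr⟩
    have hC' : ∀ i, Clo (D.ea s i) (M i) (Ξ i) (Θ i) (w' i) := by
      intro i
      rcases h2 i with h | h
      · rw [h]
        exact hC i
      · rw [h]
        exact (hC i).negW
    have hC'' : Clo (D.ea s i₀) (M i₀) (Ξ i₀) (Θ' i₀) (w' i₀) := by
      rcases h1 i₀ with h | h
      · rw [h]
        exact hC' i₀
      · rw [h]
        exact (hC' i₀).negΘ
    have h5 := GG_negΘ Y hζ hs (Θ := Θ') (w := w') (i := i₀) hC'' l
    rw [← neg_eq_iff_eq_neg, ← h5]
    refine GG_signs Y hζ hn hs hC ?_ h2 ?_ h4 l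
    · intro i
      by_cases h : i = i₀
      · rw [h, Function.update_self]
        rcases h1 i₀ with h | h
        · exact Or.inr (by rw [h])
        · exact Or.inl (by rw [h, neg_neg])
      · rw [Function.update_of_ne h]
        exact h1 i
    · rw [Finset.prod_update_of_mem (Finset.mem_univ i₀), neg_mul]
      have h6 : ∏ i, Θ' i = Θ' i₀ * ∏ i ∈ Finset.univ \ {i₀}, Θ' i := by
        rw [← Finset.prod_update_of_mem (Finset.mem_univ i₀), Function.update_eq_self]
      rw [← h6, h3]
      push_cast
      ring

end Pool.Agent.KFam.Iso
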