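import Pool.Agent.KIso.Start
import Pool.Agent.KIso.Sign
import Pool.Agent.TInf.GGStart
import Pool.Agent.KFam.GGStart

/-!
# The value of the family at the start
-/

set_option autoImplicit false

noncomputable section

namespace Pool.Agent.KFam.Iso

open Pool.Agent.ZCyc Pool.Agent.TInf Polynomial
open Pool.Agent.VFP (Om tt)

universe u

variable {k : Type u} [Field k] [IsAlgClosed k] [CharZero k] {r n q : ℕ} {D : Base k r}
  {T : Tot D n q} {W : Type*} [AddCommGroup W] [Module ℚ W]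

omit [IsAlgClosed k] [CharZero k] in
private theorem ndu_perm {D : Base k r} {s : Fin n → D.P} {i : Fin r}
    (h : NdU (D.ea s i) (D.eb s i))
    (π : Equiv.Perm (Fin n)) : NdU (D.ea (s ∘ π) i) (D.eb (s ∘ π) i) := by
  refine ⟨fun j => h.hα (π j), fun j => h.hB (π j), fun j => h.disc (π j), ?_⟩
  rcases h.dist with h1 | h1
  · exact Or.inl fun i j hij => h1 (π i) (π j) fun h2 => hij (π.injective h2)
  · exact Or.inr fun i j => h1 (π i) (π j)

omit [IsAlgClosed k] [CharZero k] in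
private theorem at_ne {v : Place k (Om k)} {x : Om k} {c : k} (h : v.At x c) (hc : c ≠ 0) :
    x ≠ 0 := by
  rintro rfl
  exact hc (h.unique VFP.at_zero)

/-- The value of the family at a place above the start. For every `κ` use `Pts_start` for `s ∘ π`,
the states `famM` (`IsSt.rot`, `fr_at`, `Clo.V0`, `clo_om`) and the values `Θv i = ± Θ i` of the `Θ' i` (a square root
of an element with a value has a value; `∏ Θv = ∏ Θ` by `hΘp`) and `± w (σ i b) i` of the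
`w' b i` (`W_value`). The class is `GG Y ζ (s ∘ π) M Θv (± w (σ i (κ i)) i) l`; it is equal to
`GG Y ζ s M Θ (w (σ i (κ i)) i) l` by `Psi_perm` and `GG_signs`. The sum over `κ` is
invariant under the permutations `σ i`. -/
theorem GG_start (Y : SysG D T W) {ζ : k} (hζ : IsPrimitiveRoot ζ 3) (hn : 0 < n)
    {s : Fin n → D.P} (hs : D.Gen s) {M : Fin r → Mq k} {Ξ Θ : Fin r → k}
    {w : Bool → Fin r → k} (hC : ∀ b i, Clo (D.ea s i) (M i) (Ξ i) (Θ i) (w b i))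
    (hw1 : ∀ i, w false i ^ 2 + w true i ^ 2 = Ξ i)
    (hw2 : ∀ i, w false i ^ 2 * w true i ^ 2 = ∏ j, D.ea s i j) (hΘ : ∀ i, Θ i ≠ 0)
    {v : Place k (Om k)} {S : Fin n → D.Q} {π : Equiv.Perm (Fin n)}
    (hS : ∀ j, D.At v (S j) (s (π j))) {Mo : Fin r → Mq (Om k)}
    (hSt : ∀ i, IsSt (D.EA S i) (D.EB S i) (Mo i)) (hMo : ∀ i, MAt v (Mo i) (M i))
    {Ξ' Θ' : Fin r → Om k} (hΞ' : ∀ i, v.At (Ξ' i) (Ξ i))
    (hΘ' : ∀ i, Θ' i ^ 2 = Ξ' i ^ 3 - 3 * (∏ j, D.EA S i j) * Ξ' i - 2 * (Mo i).a.eval 1)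
    {X U : Fin q → k} (hU0 : ∀ i, U i ≠ 0) (hg : T.On s fun i => some (X i, U i))
    {X' U' : Fin q → Om k} (hG : T.OnQ S fun i => some (X' i, U' i))
    (hX : ∀ i, v.At (X' i) (X i)) (hta : ∀ i, v.At (T.taQ S i) (T.ta s i))
    (htb : ∀ i, v.At (T.tbQ S i) (T.tb s i))
    (hΘp : v.At ((∏ i, Θ' i) * ∏ i, U' i) ((∏ i, Θ i) * ∏ i, U i)) {w' : Bool → Fin r → Om k}
    (hw1' : ∀ i, w' false i ^ 2 + w' true i ^ 2 = Ξ' i)
    (hw2' : ∀ i, w' false i ^ 2 * w' true i ^ 2 = ∏ j, D.EA S i j)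
    {β' : Fin r → Fin n → Om k} (hβ : ∀ i j, β' i j ^ 2 = D.EA S i j ^ 3)
    (hβA : ∀ i, ∀ β : Fin n → k, (∀ j, v.At (β' i j) (β j)) →
      Adm (D.ea (s ∘ π) i) (D.eb (s ∘ π) i) β) (l : Fin r → ZMod 3) :
    ∃ C : (Fin r → Bool) × (Fin r → Fin n → ZMod 3) → W,
      (∀ x, Y.Val v S (fun i => some (X' i, U' i))
        (Pts ζ D S (famM Mo Θ' w' x.1) (fun i => w' (x.1 i) i) β' x.2) (C x)) ∧
      ∑ x : (Fin r → Bool) × (Fin r → Fin n → ZMod 3),
        (if ∀ i, ∑ j, x.2 i j = l i then (1 : ℚ) else 0) • C x =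
          ∑ κ : Fin r → Bool, GG (Y.at fun i => some (X i, U i)) ζ s M Θ
            (fun i => w (κ i) i) l := by
  classical
  have hnd : ∀ i, NdU (D.ea (s ∘ π) i) (D.eb (s ∘ π) i) := fun i => ndu_perm (hs.nd i) π
  have hαv : ∀ i j, v.At (D.EA S i j) (D.ea (s ∘ π) i j) := fun i j =>
    D.at_al v _ _ (hS j) i
  have hα0 : ∀ i j, D.EA S i j ≠ 0 := fun i j => at_ne (hαv i j) ((hnd i).hα j)
  have hprod : ∀ i, v.At (∏ j, D.EA S i j) (∏ j, D.ea s i j) := by
    intro i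
    have h1 := Place.At.prod (s := Finset.univ) fun j _ => hαv i j
    have h2 : ∏ j, D.ea (s ∘ π) i j = ∏ j, D.ea s i j :=
      Equiv.prod_comp π fun j => D.ea s i j
    rwa [h2] at h1
  have ha1 : ∀ i, v.At ((Mo i).a.eval 1) ((M i).a.eval 1) := fun i =>
    (hMo i).a.eval VFP.at_one
  -- the values of the `Θ' i`
  have hT : ∀ i, ∃ t : k, v.At (Θ' i) t ∧ t ^ 2 = Θ i ^ 2 := by
    intro i
    have h1 : v.At (Ξ' i ^ 3 - 3 * (∏ j, D.EA S i j) * Ξ' i - 2 * (Mo i).a.eval 1)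
        (Ξ i ^ 3 - 3 * (∏ j, D.ea s i j) * Ξ i - 2 * (M i).a.eval 1) :=
      (((hΞ' i).pow 3).sub (((VFP.at_num 3).mul (hprod i)).mul (hΞ' i))).sub
        ((VFP.at_num 2).mul (ha1 i))
    obtain ⟨t, ht, ht2⟩ := exists_at_sqrt v (hΘ' i) h1
    exact ⟨t, ht, by rw [ht2, (hC true i).th]⟩
  choose t ht ht2 using hT
  have htΘ : ∀ i, t i = Θ i ∨ t i = -Θ i := fun i => sq_eq_sq_iff_eq_or_eq_neg.1 (ht2 i)
  -- the values of the `U' i`
  have hV : ∀ i, ∃ t : k, v.At (U' i) t ∧ t ^ 2 = U i ^ 2 := by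
    intro i
    have h1 : v.At (X' i ^ 3 - 3 * T.taQ S i * X' i + T.tbQ S i)
        (X i ^ 3 - 3 * T.ta s i * X i + T.tb s i) :=
      (((hX i).pow 3).sub (((VFP.at_num 3).mul (hta i)).mul (hX i))).add (htb i)
    have h2 : U' i ^ 2 = X' i ^ 3 - 3 * T.taQ S i * X' i + T.tbQ S i := hG i
    have h3 : U i ^ 2 = X i ^ 3 - 3 * T.ta s i * X i + T.tb s i := hg i
    obtain ⟨t, ht, ht2⟩ := exists_at_sqrt v h2 h1
    exact ⟨t, ht, by rw [ht2, h3]⟩
  choose z hz hz2 using hV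
  have hzU : ∀ i, z i = U i ∨ z i = -U i := fun i => sq_eq_sq_iff_eq_or_eq_neg.1 (hz2 i)
  have hΘ0 : ∏ i, Θ i ≠ 0 := Finset.prod_ne_zero_iff.2 fun i _ => hΘ i
  have hU00 : ∏ i, U i ≠ 0 := Finset.prod_ne_zero_iff.2 fun i _ => hU0 i
  have htp : (∏ i, t i) * ∏ i, z i = (∏ i, Θ i) * ∏ i, U i :=
    ((Place.At.prod (s := Finset.univ) fun i _ => ht i).mul
      (Place.At.prod (s := Finset.univ) fun i _ => hz i)).unique hΘp
  obtain ⟨ε, hε, hε1, hε2⟩ : ∃ ε : ℤ, (ε = 1 ∨ ε = -1) ∧ ∏ i, t i = (ε : k) * ∏ i, Θ i ∧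
      ∏ i, z i = (ε : k) * ∏ i, U i := by
    have h1 : (∏ i, t i) ^ 2 = (∏ i, Θ i) ^ 2 := by
      rw [← Finset.prod_pow, ← Finset.prod_pow]
      exact Finset.prod_congr rfl fun i _ => ht2 i
    rcases sq_eq_sq_iff_eq_or_eq_neg.1 h1 with h | h
    · refine ⟨1, Or.inl rfl, by rw [h]; push_cast; ring, ?_⟩
      rw [h] at htp
      rw [mul_left_cancel₀ hΘ0 htp]
      push_cast
      ring
    · refine ⟨-1, Or.inr rfl, by rw [h]; push_cast; ring, ?_⟩
      rw [h] at htp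
      refine mul_left_cancel₀ hΘ0 ?_
      push_cast
      linear_combination -htp
  -- the values of the `w' b i`
  have hU : ∀ i, ∃ (u : Bool → k) (σ : Equiv.Perm Bool), (∀ b, v.At (w' b i) (u b)) ∧
      ∀ b, u b = w (σ b) i ∨ u b = -w (σ b) i := fun i =>
    W_value (hΞ' i) (hprod i) (w' := fun b => w' b i) (hw1' i) (hw2' i) (w := fun b => w b i)
      (hw1 i) (hw2 i)
  choose u σ hu huw using hU
  -- the closing sides for the values
  have hCw : ∀ i b, Clo (D.ea s i) (M i) (Ξ i) (Θ i) (u i b) := by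
    intro i b
    rcases huw i b with h | h
    · rw [h]
      exact hC _ i
    · rw [h]
      exact (hC _ i).negW
  have hCt : ∀ i b, Clo (D.ea s i) (M i) (Ξ i) (t i) (u i b) := by
    intro i b
    rcases htΘ i with h | h
    · rw [h]
      exact hCw i b
    · rw [h]
      exact (hCw i b).negΘ
  have hCo : ∀ i b, Clo (D.EA S i) (Mo i) (Ξ' i) (Θ' i) (w' b i) := fun i b =>
    clo_om (hSt i) (hMo i) (hC true i).ne (w' := fun b => w' b i) (hw1' i) (hw2' i) (hα0 i)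
      (hΘ' i) b
  -- every `κ`
  have hκ : ∀ κ : Fin r → Bool, ∃ C : (Fin r → Fin n → ZMod 3) → W,
      (∀ a, Y.Val v S (fun i => some (X' i, U' i))
        (Pts ζ D S (famM Mo Θ' w' κ) (fun i => w' (κ i) i) β' a) (C a)) ∧
      ∑ a, (if ∀ i, ∑ j, a i j = l i then C a else 0) =
        GG (Y.at fun i => some (X i, U i)) ζ s M Θ (fun i => w (σ i (κ i)) i) l := by
    intro κ
    obtain ⟨C, h1, h2⟩ := Pts_start Y hζ hn (s := s ∘ π) hS hG
      (g := fun i => some (X i, z i)) (fun i => ⟨hX i, hz i⟩) hnd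
      (M' := famM Mo Θ' w' κ) (M := fun i => (M i).fr ((M i).cT (t i) (u i (κ i))))
      (fun i => by
        refine (hSt i).rot ?_
        refine div_ne_zero (neg_ne_zero.2 ?_) (hCo i (κ i)).cT_ne
        exact fun h0 => (hCo i (κ i)).ne (by rw [h0, mul_zero]))
      (fun i => fr_at (hMo i) (ht i) (hu i (κ i))
        (fun h0 => (hC true i).ne (by rw [h0, mul_zero])) (hCt i (κ i)).cT_ne)
      (P' := fun i => w' (κ i) i) (P := fun i => u i (κ i)) (fun i => hu i (κ i))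
      (fun i => (hCt i (κ i)).W0) (fun i => ((hCo i (κ i)).V0).symm) hβ hβA l
    refine ⟨C, h1, h2.trans ?_⟩
    refine (Psi_perm (D := constBase D) (Y.at fun i => some (X i, z i)) hζ (s := s) hs.nd π _ _
      l).trans ?_
    have h3 := GG_signs' (D := constBase D) (Y.at fun i => some (X i, z i)) hζ hn
      (s := s) hs.nd (Ξ := Ξ) (Θ := Θ) (w := fun i => w (σ i (κ i)) i)
      (Θ' := t) (w' := fun i => u i (κ i)) (fun i => hC _ i) htΘ (fun i => huw i (κ i)) hε hε1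
      hΘ0 l
    have h4 := GG_smul (Y := Y.at fun i => some (X i, U i))
      (Y' := Y.at fun i => some (X i, z i)) (s := s) (c := ε) (fun p =>
        Y.F_signs s X U z hzU hU00 hε2 hε two_ne_zero p) ζ M Θ
        (fun i => w (σ i (κ i)) i) l
    rw [h4, smul_smul] at h3
    have h5 : ε * ε = 1 := by rcases hε with h | h <;> rw [h] <;> norm_num
    rw [h5, one_smul] at h3
    exact h3
  choose C hC1 hC2 using hκ
  refine ⟨fun x => C x.1 x.2, fun x => hC1 x.1 x.2, ?_⟩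
  rw [Fintype.sum_prod_type]
  have h3 : ∀ κ : Fin r → Bool, (∑ a : Fin r → Fin n → ZMod 3,
      (if ∀ i, ∑ j, a i j = l i then (1 : ℚ) else 0) • C κ a) =
        GG (Y.at fun i => some (X i, U i)) ζ s M Θ (fun i => w (σ i (κ i)) i) l := by
    intro κ
    rw [← hC2 κ]
    refine Finset.sum_congr rfl fun a _ => ?_
    split_ifs
    · rw [one_smul]
    · rw [zero_smul]
  rw [Finset.sum_congr rfl fun κ _ => h3 κ]
  exact Equiv.sum_comp (Equiv.piCongrRight σ) fun κ : Fin r → Bool =>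
    GG (Y.at fun i => some (X i, U i)) ζ s M Θ (fun i => w (κ i) i) l

end Pool.Agent.KFam.Iso
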