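import Pool.Agent.KIso.Line

/-!
# Isotrivial families: graphs of automorphisms, and the symmetry of the class
-/

set_option autoImplicit false

noncomputable section

namespace Pool.Agent.KFam.Iso

open Pool.Agent.ZCyc Pool.Agent.TInf Polynomial
open Pool.Agent.VFP (Om tt)

universe u

section tw

variable {K : Type*} [Field K]

theorem tw_none (b : K) : tw b none = none := rfl

theorem tw_some (b x y : K) : tw b (some (x, y)) = some (b ^ 2 * x, b ^ 3 * y) := rfl

theorem tw_one (P : EPt K) : tw 1 P = P := by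
  rcases P with _ | ⟨x, y⟩
  · rfl
  · rw [tw_some, one_pow, one_pow, one_mul, one_mul]

theorem tw_tw (a b : K) (P : EPt K) : tw a (tw b P) = tw (a * b) P := by
  rcases P with _ | ⟨x, y⟩
  · rfl
  · rw [tw_some, tw_some, tw_some]
    congr 2 <;> ring

theorem tw_on {a₀ b₀ c : K} {P : EPt K} (h : EOn a₀ b₀ P) :
    EOn (c ^ 4 * a₀) (c ^ 6 * b₀) (tw c P) := by
  rcases P with _ | ⟨x, y⟩
  · trivial
  · have h' : y ^ 2 = x ^ 3 - 3 * a₀ * x + b₀ := h
    show (c ^ 3 * y) ^ 2 = (c ^ 2 * x) ^ 3 - 3 * (c ^ 4 * a₀) * (c ^ 2 * x) + c ^ 6 * b₀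
    linear_combination c ^ 6 * h'

end tw

variable {k : Type u} [Field k] {n : ℕ}

/-- the curves are twists of the curve `y ² = x ³ - 3 a₀ x + b₀` -/
structure Twd (α B : Fin n → k) (a₀ b₀ : k) (c : Fin n → k) : Prop where
  ne : ∀ j, c j ≠ 0
  al : ∀ j, α j = c j ^ 4 * a₀
  be : ∀ j, B j = c j ^ 6 * b₀

variable {W : Type*} [AddCommGroup W] [Module ℚ W] {α B : Fin n → k}
  {f : (Fin n → EPt k) → W} {a₀ b₀ : k}

theorem Twd.on {c : Fin n → k} (hc : Twd α B a₀ b₀ c) {P : EPt k} (hP : EOn a₀ b₀ P)
    (j : Fin n) : EOn (α j) (B j) (tw (c j) P) := by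
  rw [hc.al j, hc.be j]
  exact tw_on hP

variable [IsAlgClosed k] [CharZero k]

omit [Field k] [IsAlgClosed k] [CharZero k] in
theorem upd3 {j j' : Fin n} (hj : j ≠ j') (p : Fin n → EPt k) (A A' C : EPt k) :
    Function.update (Function.update (Function.update p j A) j' C) j A' =
      Function.update (Function.update p j A') j' C := by
  rw [Function.update_comm hj.symm, Function.update_idem]

/-- a root of `x ³ - 3 a x + b` -/
theorem exists_two (a b : k) : ∃ e : k, e ^ 3 - 3 * a * e + b = 0 := by
  obtain ⟨r, h1, h2, h3⟩ := cubic_roots (0 : k) (-3 * a) b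
  refine ⟨r 0, ?_⟩
  linear_combination r 0 ^ 2 * h1 - r 0 * h2 + h3

/-- The class is zero for points with the same coordinates: consider the points with `x = t`. -/
theorem graph (hf : ClassFn α B f) {c : Fin n → k} (hc : Twd α B a₀ b₀ c) {j j' : Fin n}
    (hj : j ≠ j') (p : Fin n → EPt k) (hp : ∀ i, EOn (α i) (B i) (p i)) {Q : EPt k}
    (hQ : EOn a₀ b₀ Q) :
    f (Function.update (Function.update p j (tw (c j) Q)) j' (tw (c j') Q)) = 0 := by
  rcases Q with _ | ⟨x, y⟩
  · exact hf.inf _ j' (by rw [Function.update_self]; rfl)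
  set am : k →+* Om k := algebraMap k (Om k) with ham
  obtain ⟨η, hη⟩ := IsAlgClosed.exists_pow_nat_eq (tt k ^ 3 - 3 * am a₀ * tt k + am b₀)
    (n := 2) (by norm_num)
  set P : Unit → Fin n → EPt (Om k) := fun _ =>
    Function.update (Function.update (fun l => cpt (p l)) j (tw (am (c j)) (some (tt k, η)))) j'
      (tw (am (c j')) (some (tt k, η))) with hP
  have hon0 : ∀ l, EOn (am (α l)) (am (B l)) (tw (am (c l)) (some (tt k, η))) := by
    intro l
    rw [hc.al l, hc.be l, map_mul, map_mul, map_pow, map_pow]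
    exact tw_on hη
  have hon : ∀ i l, EOn (am (α l)) (am (B l)) (P i l) := by
    intro i l
    by_cases hl : l = j'
    · subst hl
      simp only [hP, Function.update_self]
      exact hon0 l
    · by_cases hl' : l = j
      · subst hl'
        simp only [hP]
        rw [Function.update_of_ne hl, Function.update_self]
        exact hon0 l
      · simp only [hP, Function.update_of_ne hl, Function.update_of_ne hl']
        exact eon_cpt rfl rfl (hp l)
  have hval : ∀ (v : Place k (Om k)) (t z : k), v.At (tt k) t → v.At η z →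
      ∀ i l, EVal v (P i l) (Function.update (Function.update p j (tw (c j) (some (t, z)))) j'
        (tw (c j') (some (t, z))) l) := by
    intro v t z hv hz i l
    have h0 : ∀ l, EVal v (tw (am (c l)) (some (tt k, η))) (tw (c l) (some (t, z))) := fun l =>
      ⟨((Place.at_const _).pow 2).mul hv, ((Place.at_const _).pow 3).mul hz⟩
    by_cases hl : l = j'
    · subst hl
      simp only [hP, Function.update_self]
      exact h0 l
    · by_cases hl' : l = j
      · subst hl'
        simp only [hP]
        rw [Function.update_of_ne hl, Function.update_self, Function.update_of_ne hl,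
          Function.update_self]
        exact h0 l
      · simp only [hP, Function.update_of_ne hl, Function.update_of_ne hl']
        exact eval_cpt v (p l)
  have hlim : ∀ (v : Place k (Om k)) (t : k), v.At (tt k) t → ∃ z : k, v.At η z ∧
      z ^ 2 = t ^ 3 - 3 * a₀ * t + b₀ := by
    intro v t hv
    have h3 : v.At (3 : Om k) (3 : k) := by
      have := Place.at_const (v := v) (3 : k)
      rwa [map_ofNat] at this
    have h1 : v.At (tt k ^ 3 - 3 * am a₀ * tt k + am b₀) (t ^ 3 - 3 * a₀ * t + b₀) :=
      ((hv.pow 3).sub ((h3.mul (Place.at_const _)).mul hv)).add (Place.at_const _)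
    have h4 : EOn (am a₀) (am b₀) (some (tt k, η)) := hη
    obtain ⟨q, hq⟩ := evalue_exists v (v.const_mem a₀) (v.const_mem b₀) h4
    rcases q with _ | ⟨x', z⟩
    · exact absurd hv.mem hq
    · refine ⟨z, hq.2, ?_⟩
      have h5 := hq.2.pow 2
      rw [hη] at h5
      exact h5.unique h1
  obtain ⟨e, he⟩ := exists_two a₀ b₀
  refine hf.bridge (fun _ : Unit => (1 : ℚ)) P hon x e _ 0 ?_ ?_
  · intro v hv
    obtain ⟨z, hz, hz2⟩ := hlim v x hv
    refine ⟨fun _ => Function.update (Function.update p j (tw (c j) (some (x, z)))) j'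
        (tw (c j') (some (x, z))), hval v x z hv hz, ?_⟩
    rw [Fintype.sum_unique, one_smul]
    have hQ' : y ^ 2 = x ^ 3 - 3 * a₀ * x + b₀ := hQ
    rcases sq_eq_sq_iff_eq_or_eq_neg.1 (hz2.trans hQ'.symm) with h | h
    · rw [h]
    · rw [h, tw_some, tw_some, tw_some, tw_some]
      have h1 := hf.odd (Function.update (Function.update p j
        (some (c j ^ 2 * x, c j ^ 3 * y))) j' (some (c j' ^ 2 * x, c j' ^ 3 * y))) j'
        (c j' ^ 2 * x) (c j' ^ 3 * y) (Function.update_self _ _ _)
      rw [Function.update_idem] at h1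
      have h2 := hf.odd (Function.update (Function.update p j
        (some (c j ^ 2 * x, c j ^ 3 * y))) j' (some (c j' ^ 2 * x, -(c j' ^ 3 * y)))) j
        (c j ^ 2 * x) (c j ^ 3 * y) (by rw [Function.update_of_ne hj, Function.update_self])
      rw [h1, neg_neg, upd3 hj] at h2
      rw [mul_neg, mul_neg]
      exact h2
  · intro v hv
    obtain ⟨z, hz, hz2⟩ := hlim v e hv
    refine ⟨fun _ => Function.update (Function.update p j (tw (c j) (some (e, z)))) j'
        (tw (c j') (some (e, z))), hval v e z hv hz, ?_⟩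
    rw [Fintype.sum_unique, one_smul]
    rw [he] at hz2
    have hz0 : z = 0 := by simpa using hz2
    refine f_two hf _ j' (x := c j' ^ 2 * e) ?_
    beta_reduce
    rw [Function.update_self, tw_some, hz0, mul_zero]

end Pool.Agent.KFam.Iso
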