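import Pool.Agent.KIso.Defs
import Pool.Agent.ZIso.Krull

/-!
# Rational curves through a point of the symmetric model, with isotrivial indices

The fibre indices are `i < r`, with `deg i = d i`, and there are `t` isotrivial indices with the degrees
`e i`, `∑ i, d i + ∑ i, e i = 2 n`; the deformations of the `N`-tuple of points have `ρ ≥ n`
parameters. There are `ρ + ∑ i, (3 d i (2 N + 1) + d i) + ∑ i, e i + (3 n - 1) + 2` unknown
coefficients and `∑ i, (3 d i + 6 d i N) + 6 n` equations.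
-/

set_option autoImplicit false

noncomputable section

namespace Pool.Agent.KFam.Iso

open Polynomial

universe u

variable {k : Type u} [Field k]

/-- The polynomial with constant coefficient `c` and the other coefficients `v`. -/
private def kq {S : Type*} [CommRing S] [Algebra k S] (c : k) (m : ℕ) (v : Fin m → S) : S[X] :=
  C (algebraMap k S c) + ∑ i : Fin m, C (v i) * X ^ (i.val + 1)

section kq

variable {S T : Type*} [CommRing S] [Algebra k S] [CommRing T] [Algebra k T]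

private theorem kq_natDegree (c : k) (m : ℕ) (v : Fin m → S) : (kq c m v).natDegree ≤ m := by
  unfold kq
  refine natDegree_add_le_of_degree_le (by simp) ?_
  refine natDegree_sum_le_of_forall_le _ _ fun i _ => ?_
  exact (natDegree_C_mul_X_pow_le _ _).trans i.2

private theorem kq_eval (c : k) (m : ℕ) (v : Fin m → k) : (kq c m v).eval 0 = c := by
  unfold kq
  rw [eval_add, eval_C, eval_finsetSum]
  simp

private theorem kq_map (f : S →ₐ[k] T) (c : k) (m : ℕ) (v : Fin m → S) :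
    Polynomial.mapAlgHom f (kq c m v) = kq c m fun i => f (v i) := by
  unfold kq
  simp [Polynomial.map_sum]

private theorem kq_zero (c : k) (m : ℕ) : kq c m (fun _ => (0 : k)) = C c := by
  unfold kq
  simp

private theorem kq_const {c c' : k} {m : ℕ} {v : Fin m → k} (h : kq c m v = C c') :
    ∀ i, v i = 0 := by
  intro i
  have h1 := congrArg (fun p => p.coeff (i.val + 1)) h
  simp only [kq, coeff_add, coeff_C_succ, finsetSum_coeff, coeff_C_mul, coeff_X_pow] at h1
  rw [zero_add, Finset.sum_eq_single i] at h1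
  · simpa using h1
  · intro j _ hj
    rw [if_neg, mul_zero]
    intro h2
    exact hj (Fin.ext (by omega))
  · intro h2
    exact absurd (Finset.mem_univ _) h2

end kq

/-- The value at `θ` of the polynomial with coefficients `kq (c j) m (v j)`. -/
private def sv {S : Type*} [CommRing S] [Algebra k S] (d m : ℕ) (c : ℕ → k) (v : Fin d × Fin m → S)
    (θ : k) : S[X] :=
  ∑ j : Fin d, algebraMap k S[X] (θ ^ (j : ℕ)) * kq (c j) m fun i => v (j, i)

private theorem sv_map {S T : Type*} [CommRing S] [Algebra k S] [CommRing T] [Algebra k T]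
    (f : S →ₐ[k] T) (d m : ℕ) (c : ℕ → k) (v : Fin d × Fin m → S) (θ : k) :
    Polynomial.mapAlgHom f (sv d m c v θ) = sv d m c (fun i => f (v i)) θ := by
  unfold sv
  rw [map_sum]
  refine Finset.sum_congr rfl fun j _ => ?_
  rw [map_mul, kq_map, AlgHom.commutes]

private theorem sv_natDegree {S : Type*} [CommRing S] [Algebra k S] (d m : ℕ) (c : ℕ → k)
    (v : Fin d × Fin m → S) (θ : k) : (sv d m c v θ).natDegree ≤ m := by
  unfold sv
  refine natDegree_sum_le_of_forall_le _ _ fun i _ => ?_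
  rw [Polynomial.algebraMap_apply]
  exact (natDegree_C_mul_le _ _).trans (kq_natDegree _ _ _)

private theorem eval_fin {p : k[X]} {d : ℕ} (h : p.degree < d) (θ : k) :
    p.eval θ = ∑ j : Fin d, θ ^ (j : ℕ) * p.coeff j := by
  by_cases hd : d = 0
  · subst hd
    have h1 : p = 0 := by
      rw [← degree_eq_bot]
      simpa using h
    simp [h1]
  · have h1 : p.natDegree < d := by
      by_cases h0 : p = 0
      · rw [h0, natDegree_zero]
        omega
      · exact (natDegree_lt_iff_degree_lt h0).2 h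
    rw [eval_eq_sum_range' h1, Fin.sum_univ_eq_sum_range (fun j => θ ^ j * p.coeff j) d]
    exact Finset.sum_congr rfl fun j _ => mul_comm _ _

private theorem sv_zero {p : k[X]} {d : ℕ} (h : p.degree < d) (m : ℕ) (θ : k) :
    sv d m p.coeff (fun _ => (0 : k)) θ = C (p.eval θ) := by
  unfold sv
  simp only [kq_zero]
  rw [eval_fin h, map_sum]
  refine Finset.sum_congr rfl fun j _ => ?_
  simp

/-- The polynomial in two variables. -/
private def bp (d m : ℕ) (c : ℕ → k) (v : Fin d × Fin m → k) : k[X][X] :=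
  ∑ j : Fin d, C (kq (c j) m fun i => v (j, i)) * X ^ (j : ℕ)

private theorem bp_degree (d m : ℕ) (c : ℕ → k) (v : Fin d × Fin m → k) :
    (bp d m c v).degree < d :=
  degree_sum_fin_lt _

private theorem bp_coeff (d m : ℕ) (c : ℕ → k) (v : Fin d × Fin m → k) (j : Fin d) :
    (bp d m c v).coeff j = kq (c j) m fun i => v (j, i) := by
  unfold bp
  rw [finsetSum_coeff, Finset.sum_eq_single j]
  · simp
  · intro i _ hi
    rw [coeff_C_mul_X_pow, if_neg]
    intro h
    exact hi (Fin.ext h.symm)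
  · intro h
    exact absurd (Finset.mem_univ _) h

private theorem bp_map {p : k[X]} {d : ℕ} (h : p.degree < d) (m : ℕ) (v : Fin d × Fin m → k) :
    (bp d m p.coeff v).map (evalRingHom 0) = p := by
  ext j
  rw [coeff_map]
  by_cases hj : j < d
  · have h1 := bp_coeff d m p.coeff v ⟨j, hj⟩
    simp only at h1
    rw [h1, coe_evalRingHom, kq_eval]
  · push Not at hj
    rw [coeff_eq_zero_of_degree_lt ((bp_degree d m p.coeff v).trans_le (by exact_mod_cast hj)),
      coeff_eq_zero_of_degree_lt (h.trans_le (by exact_mod_cast hj)), map_zero]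

private theorem bp_eval (d m : ℕ) (c : ℕ → k) (v : Fin d × Fin m → k) (θ : k) :
    (bp d m c v).eval (C θ) = sv d m c v θ := by
  unfold bp sv
  rw [eval_finsetSum]
  refine Finset.sum_congr rfl fun j _ => ?_
  rw [eval_mul, eval_C, eval_pow, eval_X, mul_comm, algebraMap_eq, C_pow]

private theorem bp_const {p : k[X]} {d m : ℕ} {v : Fin d × Fin m → k}
    (h : bp d m p.coeff v = p.map C) : ∀ i, v i = 0 := by
  rintro ⟨j, i⟩
  have h1 := congrArg (fun q => q.coeff j) h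
  simp only [bp_coeff, coeff_map] at h1
  exact kq_const h1 i

/-- The value of the norm at the parameters `v`. -/
private def nv {S : Type*} [CommRing S] [Algebra k S] {ρ : ℕ} (p : MvPolynomial (Fin ρ) k[X])
    (v : Fin ρ → S) : S[X] :=
  MvPolynomial.eval₂ (mapRingHom (algebraMap k S)) (fun m => C (v m)) p

private theorem nv_map {S T : Type*} [CommRing S] [Algebra k S] [CommRing T] [Algebra k T]
    (f : S →ₐ[k] T) {ρ : ℕ} (p : MvPolynomial (Fin ρ) k[X]) (v : Fin ρ → S) :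
    Polynomial.mapAlgHom f (nv p v) = nv p fun i => f (v i) := by
  unfold nv
  have h1 : (Polynomial.mapAlgHom f) (MvPolynomial.eval₂ (mapRingHom (algebraMap k S))
      (fun m => C (v m)) p) = (mapRingHom f.toRingHom) (MvPolynomial.eval₂
        (mapRingHom (algebraMap k S)) (fun m => C (v m)) p) := rfl
  rw [h1, MvPolynomial.hom_eval₂]
  have h2 : (mapRingHom f.toRingHom).comp (mapRingHom (algebraMap k S)) =
      mapRingHom (algebraMap k T) := by
    rw [mapRingHom_comp]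
    congr 1
    ext x
    simp
  rw [h2]
  congr 1
  funext m
  simp

private theorem nv_eq {ρ : ℕ} (p : MvPolynomial (Fin ρ) k[X]) (v : Fin ρ → k) :
    nv p v = p.eval fun m => C (v m) := by
  unfold nv
  rw [show algebraMap k k = RingHom.id k from rfl, mapRingHom_id]
  rfl

private theorem nv_natDegree {ρ : ℕ} {p : MvPolynomial (Fin ρ) k[X]} {D : ℕ}
    (hp : ∀ m, (p.coeff m).natDegree ≤ D) (v : Fin ρ → k) : (nv p v).natDegree ≤ D := by
  rw [nv_eq, MvPolynomial.eval_eq]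
  refine natDegree_sum_le_of_forall_le _ _ fun m _ => ?_
  have h1 : (∏ i ∈ m.support, (C (v i) : k[X]) ^ m i) = C (∏ i ∈ m.support, v i ^ m i) := by
    rw [map_prod]
    exact Finset.prod_congr rfl fun i _ => by rw [C_pow]
  rw [h1]
  exact (natDegree_mul_C_le _ _).trans (hp m)

/-- The left hand sides of the equations. -/
private def E0 {R : Type*} [CommRing R] (a ν : R) : R :=
  a - ν

private def E1 (θ : k) {R : Type*} [CommRing R] [Algebra k R] (a p m g ν : R) : R :=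
  a ^ 2 + algebraMap k R θ * (p * m) + algebraMap k R (θ * (1 - θ)) * g ^ 2 - ν

private def E2 {r t : ℕ} {R : Type*} [CommRing R] (q y : R) (x a ν : Fin r → R)
    (X α B : Fin t → R) : R :=
  q * y ^ 2 - (∏ i, (x i ^ 3 - 3 * ν i * x i - 2 * a i)) *
    ∏ i, (X i ^ 3 - 3 * α i * X i + B i)

section maps

variable {R T : Type*} [CommRing R] [Algebra k R] [CommRing T] [Algebra k T] (f : R →ₐ[k] T)

private theorem E0_map (a ν : R) : f (E0 a ν) = E0 (f a) (f ν) := by
  unfold E0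
  rw [map_sub]

private theorem E1_map (θ : k) (a p m g ν : R) :
    f (E1 θ a p m g ν) = E1 θ (f a) (f p) (f m) (f g) (f ν) := by
  unfold E1
  simp only [map_sub, map_add, map_mul, map_pow, AlgHom.commutes]

private theorem E2_map {r t : ℕ} (q y : R) (x a ν : Fin r → R) (X α B : Fin t → R) :
    f (E2 q y x a ν X α B) = E2 (f q) (f y) (fun i => f (x i)) (fun i => f (a i))
      (fun i => f (ν i)) (fun i => f (X i)) (fun i => f (α i)) (fun i => f (B i)) := by
  unfold E2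
  simp only [map_sub, map_add, map_mul, map_pow, map_ofNat, map_prod]

end maps

variable {r t : ℕ}

/-- The type of the unknown coefficients. -/
private abbrev Ix (n N ρ : ℕ) (d : Fin r → ℕ) (e : Fin t → ℕ) : Type :=
  Fin ρ ⊕ (Σ i, Fin (N / 2 + 1) × Fin (3 * d i)) ⊕ (Σ i, Fin ((N + 1) / 2) × Fin (3 * d i)) ⊕
    (Σ i, Fin ((N + 1) / 2) × Fin (3 * d i)) ⊕ (Σ i, Fin (N / 2) × Fin (3 * d i)) ⊕
    (Σ i, Fin (d i)) ⊕ Fin (3 * n - 1) ⊕ Fin 2 ⊕ (Σ i, Fin (e i))

/-- The type of the equations. -/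
private abbrev Kx (n N : ℕ) (d : Fin r → ℕ) : Type :=
  (Σ i, Fin (3 * d i)) ⊕ (Σ i, Fin N × Fin (6 * d i)) ⊕ Fin (6 * n)

private theorem card_Ix {n N ρ : ℕ} {d : Fin r → ℕ} {e : Fin t → ℕ}
    (hd : ∑ i, d i + ∑ i, e i = 2 * n) (hn : 0 < n)
    (hρ : n ≤ ρ) : Fintype.card (Kx n N d) < Fintype.card (Ix n N ρ d e) := by
  simp only [Fintype.card_sum, Fintype.card_sigma, Fintype.card_prod, Fintype.card_fin,
    ← Finset.mul_sum]
  generalize (∑ i, d i) = D at *
  generalize (∑ i, e i) = E at *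
  have h1 : N / 2 + 1 + ((N + 1) / 2 + ((N + 1) / 2 + N / 2)) = 2 * N + 1 := by omega
  have h2 : (N / 2 + 1) * (3 * D) + ((N + 1) / 2 * (3 * D) +
      ((N + 1) / 2 * (3 * D) + N / 2 * (3 * D))) = (2 * N + 1) * (3 * D) := by
    rw [← h1]
    ring
  have h3 : (2 * N + 1) * (3 * D) = N * (6 * D) + 3 * D := by ring
  omega

section eqs

variable {S T : Type*} [CommRing S] [Algebra k S] [CommRing T] [Algebra k T]

private def e0 (n N : ℕ) {ρ : ℕ} (d : Fin r → ℕ) {e : Fin t → ℕ} (nb : Fin r → MvPolynomial (Fin ρ) k[X])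
    (A : Fin r → k[X]) (i : Fin r) (z : Ix n N ρ d e → S) : S[X] :=
  E0 (sv (N / 2 + 1) (3 * d i) (A i).coeff (fun j => z (.inr (.inl ⟨i, j⟩))) 0)
    (nv (nb i) fun j => z (.inl j))

private def e1 (n N : ℕ) {ρ : ℕ} (d : Fin r → ℕ) {e : Fin t → ℕ}
    (nθ : Fin r → Fin N → MvPolynomial (Fin ρ) k[X]) (A P M G : Fin r → k[X]) (θ : Fin N → k)
    (i : Fin r) (j₀ : Fin N) (z : Ix n N ρ d e → S) : S[X] :=
  E1 (θ j₀)
    (sv (N / 2 + 1) (3 * d i) (A i).coeff (fun j => z (.inr (.inl ⟨i, j⟩))) (θ j₀))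
    (sv ((N + 1) / 2) (3 * d i) (P i).coeff (fun j => z (.inr (.inr (.inl ⟨i, j⟩)))) (θ j₀))
    (sv ((N + 1) / 2) (3 * d i) (M i).coeff (fun j => z (.inr (.inr (.inr (.inl ⟨i, j⟩)))))
      (θ j₀))
    (sv (N / 2) (3 * d i) (G i).coeff (fun j => z (.inr (.inr (.inr (.inr (.inl ⟨i, j⟩))))))
      (θ j₀))
    (nv (nθ i j₀) fun j => z (.inl j))

private def e2 (n N : ℕ) {ρ : ℕ} (d : Fin r → ℕ) {e : Fin t → ℕ}
    (nα : Fin r → MvPolynomial (Fin ρ) k[X]) (nta ntb : Fin t → MvPolynomial (Fin ρ) k[X])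
    (A : Fin r → k[X]) (x : Fin r → k) (X : Fin t → k) (y : k) (z : Ix n N ρ d e → S) : S[X] :=
  E2 (kq (1 : k) 2 fun j => z (.inr (.inr (.inr (.inr (.inr (.inr (.inr (.inl j)))))))))
    (kq y (3 * n - 1) fun j => z (.inr (.inr (.inr (.inr (.inr (.inr (.inl j))))))))
    (fun i => kq (x i) (d i) fun j => z (.inr (.inr (.inr (.inr (.inr (.inl ⟨i, j⟩)))))))
    (fun i => sv (N / 2 + 1) (3 * d i) (A i).coeff (fun j => z (.inr (.inl ⟨i, j⟩))) 1)
    (fun i => nv (nα i) fun j => z (.inl j))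
    (fun i => kq (X i) (e i) fun j =>
      z (.inr (.inr (.inr (.inr (.inr (.inr (.inr (.inr ⟨i, j⟩)))))))))
    (fun i => nv (nta i) fun j => z (.inl j)) (fun i => nv (ntb i) fun j => z (.inl j))

private theorem e0_map (f : S →ₐ[k] T) (n N : ℕ) {ρ : ℕ} (d : Fin r → ℕ) {e : Fin t → ℕ}
    (nb : Fin r → MvPolynomial (Fin ρ) k[X]) (A : Fin r → k[X]) (i : Fin r)
    (z : Ix n N ρ d e → S) :
    Polynomial.mapAlgHom f (e0 n N d nb A i z) = e0 n N d nb A i fun j => f (z j) := by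
  unfold e0
  rw [E0_map, sv_map, nv_map]

private theorem e1_map (f : S →ₐ[k] T) (n N : ℕ) {ρ : ℕ} (d : Fin r → ℕ) {e : Fin t → ℕ}
    (nθ : Fin r → Fin N → MvPolynomial (Fin ρ) k[X]) (A P M G : Fin r → k[X]) (θ : Fin N → k)
    (i : Fin r) (j₀ : Fin N) (z : Ix n N ρ d e → S) :
    Polynomial.mapAlgHom f (e1 n N d nθ A P M G θ i j₀ z) =
      e1 n N d nθ A P M G θ i j₀ fun j => f (z j) := by
  unfold e1
  rw [E1_map, sv_map, sv_map, sv_map, sv_map, nv_map]

private theorem e2_map (f : S →ₐ[k] T) (n N : ℕ) {ρ : ℕ} (d : Fin r → ℕ) {e : Fin t → ℕ}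
    (nα : Fin r → MvPolynomial (Fin ρ) k[X]) (nta ntb : Fin t → MvPolynomial (Fin ρ) k[X])
    (A : Fin r → k[X]) (x : Fin r → k) (X : Fin t → k) (y : k)
    (z : Ix n N ρ d e → S) :
    Polynomial.mapAlgHom f (e2 n N d nα nta ntb A x X y z) =
      e2 n N d nα nta ntb A x X y fun j => f (z j) := by
  unfold e2
  simp only [E2_map, sv_map, nv_map, kq_map]

end eqs

/-- a polynomial of degree at most `d` whose coefficients of `t, …, t ^ d` and value at `0` are
zero is zero -/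
private theorem eq_zero_of {F : k[X]} {d : ℕ} (hd : F.natDegree ≤ d)
    (h : ∀ j : Fin d, F.coeff (j + 1) = 0) (h0 : F.eval 0 = 0) : F = 0 := by
  ext j
  rw [coeff_zero]
  rcases j with _ | j
  · rw [coeff_zero_eq_eval_zero]
    exact h0
  · by_cases hj : j < d
    · exact h ⟨j, hj⟩
    · exact coeff_eq_zero_of_natDegree_lt (by omega)

private theorem natDegree_mul_le' {p q : k[X]} {m n : ℕ} (hp : p.natDegree ≤ m)
    (hq : q.natDegree ≤ n) : (p * q).natDegree ≤ m + n :=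
  natDegree_mul_le.trans (Nat.add_le_add hp hq)

private theorem natDegree_pow_le' {p : k[X]} {m : ℕ} (hp : p.natDegree ≤ m) (n : ℕ) :
    (p ^ n).natDegree ≤ n * m :=
  natDegree_pow_le.trans (Nat.mul_le_mul_left _ hp)

section bounds

variable {n N ρ : ℕ} {d : Fin r → ℕ} {e : Fin t → ℕ} {nα nb : Fin r → MvPolynomial (Fin ρ) k[X]}
  {nθ : Fin r → Fin N → MvPolynomial (Fin ρ) k[X]} {nta ntb : Fin t → MvPolynomial (Fin ρ) k[X]}

private theorem e0_natDegree (hb : ∀ i m, ((nb i).coeff m).natDegree ≤ 3 * d i)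
    (A : Fin r → k[X]) (i : Fin r) (z : Ix n N ρ d e → k) :
    (e0 n N d nb A i z).natDegree ≤ 3 * d i := by
  unfold e0 E0
  exact (natDegree_sub_le_of_le (sv_natDegree _ _ _ _ _) (nv_natDegree (hb i) _)).trans (by simp)

private theorem e1_natDegree (hθ : ∀ i j m, ((nθ i j).coeff m).natDegree ≤ 6 * d i)
    (A P M G : Fin r → k[X]) (θ : Fin N → k) (i : Fin r) (j : Fin N)
    (z : Ix n N ρ d e → k) : (e1 n N d nθ A P M G θ i j z).natDegree ≤ 6 * d i := by
  unfold e1 E1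
  have h1 : ∀ (e : ℕ) (c : ℕ → k) (v : Fin e × Fin (3 * d i) → k),
      (sv e (3 * d i) c v (θ j)).natDegree ≤ 3 * d i := fun e c v => sv_natDegree _ _ _ _ _
  have h2 : ∀ (c : k) (p : k[X]), p.natDegree ≤ 6 * d i →
      (algebraMap k k[X] c * p).natDegree ≤ 6 * d i := by
    intro c p hp
    rw [algebraMap_eq]
    exact (natDegree_C_mul_le _ _).trans hp
  refine (natDegree_sub_le_of_le (natDegree_add_le_of_le (natDegree_add_le_of_le
    (m := 6 * d i) (n := 6 * d i) ((natDegree_pow_le' (h1 _ _ _) 2).trans (by omega))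
    (h2 _ _ ((natDegree_mul_le' (h1 _ _ _) (h1 _ _ _)).trans (by omega))))
    (n := 6 * d i) (h2 _ _ ((natDegree_pow_le' (h1 _ _ _) 2).trans (by omega))))
    (n := 6 * d i) (nv_natDegree (hθ i j) _)).trans (by simp)

private theorem e2_natDegree (hn : 0 < n) (hd : ∑ i, d i + ∑ i, e i = 2 * n)
    (hα : ∀ i m, ((nα i).coeff m).natDegree ≤ 2 * d i)
    (hta : ∀ i m, ((nta i).coeff m).natDegree ≤ 2 * e i)
    (htb : ∀ i m, ((ntb i).coeff m).natDegree ≤ 3 * e i) (A : Fin r → k[X]) (x : Fin r → k)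
    (X : Fin t → k) (y : k)
    (z : Ix n N ρ d e → k) : (e2 n N d nα nta ntb A x X y z).natDegree ≤ 6 * n := by
  unfold e2 E2
  have t1 : ∀ (c : k) (v : Fin 2 → k) (v' : Fin (3 * n - 1) → k),
      (kq c 2 v * kq y (3 * n - 1) v' ^ 2).natDegree ≤ 6 * n := fun c v v' =>
    (natDegree_mul_le' (kq_natDegree _ _ _) (natDegree_pow_le' (kq_natDegree _ _ _) 2)).trans
      (by omega)
  have t2 : ∀ (i : Fin r) (v : Fin (d i) → k), (kq (x i) (d i) v ^ 3).natDegree ≤ 3 * d i :=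
    fun i v => (natDegree_pow_le' (kq_natDegree _ _ _) 3)
  have c3 : (3 : k[X]).natDegree ≤ 0 := (natDegree_ofNat 3).le
  have c2 : (2 : k[X]).natDegree ≤ 0 := (natDegree_ofNat 2).le
  have t3 : ∀ (w : Fin ρ → k) (i : Fin r) (v : Fin (d i) → k),
      (3 * nv (nα i) w * kq (x i) (d i) v).natDegree ≤ 3 * d i := fun w i v =>
    (natDegree_mul_le' (natDegree_mul_le' c3 (nv_natDegree (hα i) _))
      (kq_natDegree _ _ _)).trans (by omega)
  have t4 : ∀ (i : Fin r) (v : Fin (N / 2 + 1) × Fin (3 * d i) → k),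
      (2 * sv (N / 2 + 1) (3 * d i) (A i).coeff v 1).natDegree ≤ 3 * d i := fun i v =>
    (natDegree_mul_le' c2 (sv_natDegree _ _ _ _ _)).trans (by omega)
  have t5 : ∀ (i : Fin t) (v : Fin (e i) → k), (kq (X i) (e i) v ^ 3).natDegree ≤ 3 * e i :=
    fun i v => (natDegree_pow_le' (kq_natDegree _ _ _) 3)
  have t6 : ∀ (w : Fin ρ → k) (i : Fin t) (v : Fin (e i) → k),
      (3 * nv (nta i) w * kq (X i) (e i) v).natDegree ≤ 3 * e i := fun w i v =>
    (natDegree_mul_le' (natDegree_mul_le' c3 (nv_natDegree (hta i) _))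
      (kq_natDegree _ _ _)).trans (by omega)
  refine (natDegree_sub_le_of_le (t1 _ _ _) (n := 6 * n) ?_).trans (by simp)
  have hsum : 3 * (∑ i, d i) + 3 * ∑ i, e i ≤ 6 * n := by omega
  refine (natDegree_mul_le' (m := 3 * ∑ i, d i) (n := 3 * ∑ i, e i) ?_ ?_).trans hsum
  · refine (natDegree_prod_le _ _).trans ?_
    refine (Finset.sum_le_sum fun i _ => (natDegree_sub_le_of_le
      (natDegree_sub_le_of_le (t2 i _) (t3 _ i _)) (t4 i _))).trans ?_
    simp only [max_self, ← Finset.mul_sum]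
    exact le_rfl
  · refine (natDegree_prod_le _ _).trans ?_
    refine (Finset.sum_le_sum fun i _ => (natDegree_add_le_of_le
      (natDegree_sub_le_of_le (t5 i _) (t6 _ i _)) (nv_natDegree (htb i) _))).trans ?_
    simp only [max_self, ← Finset.mul_sum]
    exact le_rfl

private theorem nv_zero {p : MvPolynomial (Fin ρ) k[X]} {c : k} (h : p.eval 0 = C c) :
    nv p (fun _ => (0 : k)) = C c := by
  rw [nv_eq, ← h]
  have h1 : (fun _ : Fin ρ => (C (0 : k) : k[X])) = 0 := by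
    funext m
    simp
  rw [h1]

/-- the values of the equations at the origin -/
private theorem e0_zero {A : Fin r → k[X]} (hA : ∀ i, (A i).degree < (N / 2 + 1 : ℕ))
    {vb : Fin r → k} (cb : ∀ i, (nb i).eval 0 = C (vb i)) (i : Fin r) :
    e0 n N d nb A i (fun _ : Ix n N ρ d e => (0 : k)) = C (E0 ((A i).eval 0) (vb i)) := by
  unfold e0
  rw [sv_zero (hA i), nv_zero (cb i)]
  exact (E0_map (Algebra.ofId k k[X]) ((A i).eval 0) (vb i)).symm

private theorem e1_zero {A P M G : Fin r → k[X]} (hA : ∀ i, (A i).degree < (N / 2 + 1 : ℕ))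
    (hP : ∀ i, (P i).degree < ((N + 1) / 2 : ℕ)) (hM : ∀ i, (M i).degree < ((N + 1) / 2 : ℕ))
    (hG : ∀ i, (G i).degree < (N / 2 : ℕ)) (θ : Fin N → k) {vθ : Fin r → Fin N → k}
    (cθ : ∀ i j, (nθ i j).eval 0 = C (vθ i j)) (i : Fin r) (j : Fin N) :
    e1 n N d nθ A P M G θ i j (fun _ : Ix n N ρ d e => (0 : k)) =
      C (E1 (θ j) ((A i).eval (θ j)) ((P i).eval (θ j)) ((M i).eval (θ j)) ((G i).eval (θ j))
        (vθ i j)) := by
  unfold e1
  rw [sv_zero (hA i), sv_zero (hP i), sv_zero (hM i), sv_zero (hG i), nv_zero (cθ i j)]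
  exact (E1_map (Algebra.ofId k k[X]) (θ j) ((A i).eval (θ j)) ((P i).eval (θ j))
    ((M i).eval (θ j)) ((G i).eval (θ j)) (vθ i j)).symm

private theorem e2_zero {A : Fin r → k[X]} (hA : ∀ i, (A i).degree < (N / 2 + 1 : ℕ))
    {vα : Fin r → k} (cα : ∀ i, (nα i).eval 0 = C (vα i)) {vta vtb : Fin t → k}
    (cta : ∀ i, (nta i).eval 0 = C (vta i)) (ctb : ∀ i, (ntb i).eval 0 = C (vtb i))
    (x : Fin r → k) (X : Fin t → k) (y : k) :
    e2 n N d nα nta ntb A x X y (fun _ : Ix n N ρ d e => (0 : k)) =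
      C (E2 1 y x (fun i => (A i).eval 1) vα X vta vtb) := by
  unfold e2
  simp only [sv_zero (hA _), nv_zero (cα _), nv_zero (cta _), nv_zero (ctb _), kq_zero]
  exact (E2_map (Algebra.ofId k k[X]) 1 y x (fun i => (A i).eval 1) vα X vta vtb).symm

end bounds

private theorem sv_eval0 {p : k[X]} {d : ℕ} (h : p.degree < d) (m : ℕ) (v : Fin d × Fin m → k)
    (θ : k) : (sv d m p.coeff v θ).eval 0 = p.eval θ := by
  unfold sv
  rw [eval_finsetSum, eval_fin h]
  refine Finset.sum_congr rfl fun j _ => ?_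
  rw [eval_mul, algebraMap_eq, eval_C, kq_eval]

section eval0

variable {n N ρ : ℕ} {d : Fin r → ℕ} {e : Fin t → ℕ} {nα nb : Fin r → MvPolynomial (Fin ρ) k[X]}
  {nθ : Fin r → Fin N → MvPolynomial (Fin ρ) k[X]} {nta ntb : Fin t → MvPolynomial (Fin ρ) k[X]}

private theorem e0_eval0 {A : Fin r → k[X]} (hA : ∀ i, (A i).degree < (N / 2 + 1 : ℕ))
    {vb : Fin r → k} (zb : ∀ i (z : Fin ρ → k), ((nb i).eval fun m => C (z m)).eval 0 = vb i)
    (i : Fin r) (z : Ix n N ρ d e → k) :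
    (e0 n N d nb A i z).eval 0 = E0 ((A i).eval 0) (vb i) := by
  unfold e0
  rw [← coe_aeval_eq_eval, E0_map, coe_aeval_eq_eval, sv_eval0 (hA i), nv_eq, zb]

private theorem e1_eval0 {A P M G : Fin r → k[X]} (hA : ∀ i, (A i).degree < (N / 2 + 1 : ℕ))
    (hP : ∀ i, (P i).degree < ((N + 1) / 2 : ℕ)) (hM : ∀ i, (M i).degree < ((N + 1) / 2 : ℕ))
    (hG : ∀ i, (G i).degree < (N / 2 : ℕ)) (θ : Fin N → k) {vθ : Fin r → Fin N → k}
    (zθ : ∀ i j (z : Fin ρ → k), ((nθ i j).eval fun m => C (z m)).eval 0 = vθ i j)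
    (i : Fin r) (j : Fin N) (z : Ix n N ρ d e → k) :
    (e1 n N d nθ A P M G θ i j z).eval 0 =
      E1 (θ j) ((A i).eval (θ j)) ((P i).eval (θ j)) ((M i).eval (θ j)) ((G i).eval (θ j))
        (vθ i j) := by
  unfold e1
  rw [← coe_aeval_eq_eval, E1_map, coe_aeval_eq_eval, sv_eval0 (hA i),
    sv_eval0 (hP i), sv_eval0 (hM i), sv_eval0 (hG i), nv_eq, zθ]

private theorem e2_eval0 {A : Fin r → k[X]} (hA : ∀ i, (A i).degree < (N / 2 + 1 : ℕ))
    {vα : Fin r → k} (zα : ∀ i (z : Fin ρ → k), ((nα i).eval fun m => C (z m)).eval 0 = vα i)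
    {vta vtb : Fin t → k}
    (zta : ∀ i (z : Fin ρ → k), ((nta i).eval fun m => C (z m)).eval 0 = vta i)
    (ztb : ∀ i (z : Fin ρ → k), ((ntb i).eval fun m => C (z m)).eval 0 = vtb i)
    (x : Fin r → k) (X : Fin t → k) (y : k) (z : Ix n N ρ d e → k) :
    (e2 n N d nα nta ntb A x X y z).eval 0 =
      E2 1 y x (fun i => (A i).eval 1) vα X vta vtb := by
  unfold e2
  rw [← coe_aeval_eq_eval, E2_map]
  simp only [coe_aeval_eq_eval, sv_eval0 (hA _), kq_eval, nv_eq, zα, zta, ztb]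

end eval0

/-- Through every point of the symmetric model passes a rational curve. -/
theorem krull [IsAlgClosed k] {n N ρ : ℕ} {d : Fin r → ℕ} {e : Fin t → ℕ}
    (hd : ∑ i, d i + ∑ i, e i = 2 * n) (hn : 0 < n)
    (hρ : n ≤ ρ) {nα nb : Fin r → MvPolynomial (Fin ρ) k[X]}
    {nθ : Fin r → Fin N → MvPolynomial (Fin ρ) k[X]} {nta ntb : Fin t → MvPolynomial (Fin ρ) k[X]}
    (dα : ∀ i m, ((nα i).coeff m).natDegree ≤ 2 * d i)
    (db : ∀ i m, ((nb i).coeff m).natDegree ≤ 3 * d i)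
    (dθ : ∀ i j m, ((nθ i j).coeff m).natDegree ≤ 6 * d i)
    (dta : ∀ i m, ((nta i).coeff m).natDegree ≤ 2 * e i)
    (dtb : ∀ i m, ((ntb i).coeff m).natDegree ≤ 3 * e i)
    {vα vb : Fin r → k} {vθ : Fin r → Fin N → k} {vta vtb : Fin t → k}
    (zα : ∀ i (z : Fin ρ → k), ((nα i).eval fun m => C (z m)).eval 0 = vα i)
    (zb : ∀ i (z : Fin ρ → k), ((nb i).eval fun m => C (z m)).eval 0 = vb i)
    (zθ : ∀ i j (z : Fin ρ → k), ((nθ i j).eval fun m => C (z m)).eval 0 = vθ i j)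
    (zta : ∀ i (z : Fin ρ → k), ((nta i).eval fun m => C (z m)).eval 0 = vta i)
    (ztb : ∀ i (z : Fin ρ → k), ((ntb i).eval fun m => C (z m)).eval 0 = vtb i)
    (cα : ∀ i, (nα i).eval 0 = C (vα i)) (cb : ∀ i, (nb i).eval 0 = C (vb i))
    (cθ : ∀ i j, (nθ i j).eval 0 = C (vθ i j)) (cta : ∀ i, (nta i).eval 0 = C (vta i))
    (ctb : ∀ i, (ntb i).eval 0 = C (vtb i)) {A P M G : Fin r → k[X]}
    (hA : ∀ i, (A i).degree < (N / 2 + 1 : ℕ)) (hP : ∀ i, (P i).degree < ((N + 1) / 2 : ℕ))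
    (hM : ∀ i, (M i).degree < ((N + 1) / 2 : ℕ)) (hG : ∀ i, (G i).degree < (N / 2 : ℕ))
    {x : Fin r → k} {xx : Fin t → k} {y : k} (hy : y ≠ 0) (θ : Fin N → k)
    (h0 : ∀ i, (A i).eval 0 = vb i)
    (h1 : ∀ i j, (A i).eval (θ j) ^ 2 + θ j * ((P i).eval (θ j) * (M i).eval (θ j)) +
      θ j * (1 - θ j) * (G i).eval (θ j) ^ 2 = vθ i j)
    (h2 : y ^ 2 = (∏ i, (x i ^ 3 - 3 * vα i * x i - 2 * (A i).eval 1)) *
      ∏ i, (xx i ^ 3 - 3 * vta i * xx i + vtb i)) :
    ∃ (z : Fin ρ → k) (A' P' M' G' : Fin r → k[X][X]) (x' : Fin r → k[X]) (xx' : Fin t → k[X])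
      (y' q : k[X]),
      (∀ i, (A' i).degree < (N / 2 + 1 : ℕ)) ∧ (∀ i, (P' i).degree < ((N + 1) / 2 : ℕ)) ∧
      (∀ i, (M' i).degree < ((N + 1) / 2 : ℕ)) ∧ (∀ i, (G' i).degree < (N / 2 : ℕ)) ∧
      (∀ i, (A' i).map (evalRingHom 0) = A i) ∧ (∀ i, (P' i).map (evalRingHom 0) = P i) ∧
      (∀ i, (M' i).map (evalRingHom 0) = M i) ∧ (∀ i, (G' i).map (evalRingHom 0) = G i) ∧
      (∀ i, (x' i).eval 0 = x i) ∧ (∀ i, (xx' i).eval 0 = xx i) ∧ y'.eval 0 = y ∧
      q.eval 0 = 1 ∧ q.natDegree ≤ 2 ∧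
      (∀ i, (A' i).eval 0 = (nb i).eval fun m => C (z m)) ∧
      (∀ i j, (A' i).eval (C (θ j)) ^ 2 +
        C (θ j) * ((P' i).eval (C (θ j)) * (M' i).eval (C (θ j))) +
        C (θ j * (1 - θ j)) * (G' i).eval (C (θ j)) ^ 2 =
          (nθ i j).eval fun m => C (z m)) ∧
      q * y' ^ 2 = (∏ i, (x' i ^ 3 - 3 * ((nα i).eval fun m => C (z m)) * x' i -
        2 * (A' i).eval 1)) * (∏ i, (xx' i ^ 3 - 3 * ((nta i).eval fun m => C (z m)) * xx' i +
          (ntb i).eval fun m => C (z m))) ∧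
      ¬ (z = 0 ∧ (∀ i, A' i = (A i).map C ∧ P' i = (P i).map C ∧ M' i = (M i).map C ∧
        G' i = (G i).map C ∧ x' i = C (x i)) ∧ ∀ i, xx' i = C (xx i)) := by
  classical
  have hE0 : ∀ i, E0 ((A i).eval 0) (vb i) = 0 := by
    intro i
    unfold E0
    rw [h0, sub_self]
  have hE1 : ∀ i j, E1 (θ j) ((A i).eval (θ j)) ((P i).eval (θ j))
      ((M i).eval (θ j)) ((G i).eval (θ j)) (vθ i j) = 0 := by
    intro i j
    unfold E1
    have h3 := h1 i j
    simp only [Algebra.algebraMap_self, RingHom.id_apply]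
    rw [h3, sub_self]
  have hE2 : E2 1 y x (fun i => (A i).eval 1) vα xx vta vtb = 0 := by
    unfold E2
    rw [h2]
    ring
  let R := MvPolynomial (Ix n N ρ d e) k
  let zX : Ix n N ρ d e → R := MvPolynomial.X
  let F : Kx n N d → R :=
    Sum.elim (fun j => (e0 n N d nb A j.1 zX).coeff (j.2 + 1))
      (Sum.elim (fun j => (e1 n N d nθ A P M G θ j.1 j.2.1 zX).coeff (j.2.2 + 1))
        (fun j => (e2 n N d nα nta ntb A x xx y zX).coeff (j + 1)))
  have hmap : ∀ z : Ix n N ρ d e → k, (fun i => MvPolynomial.aeval z (zX i)) = z := by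
    intro z
    funext i
    simp [zX]
  have hev : ∀ (z : Ix n N ρ d e → k) (Q : R[X]) (j : ℕ), MvPolynomial.eval z (Q.coeff j) =
      (Polynomial.mapAlgHom (MvPolynomial.aeval z : R →ₐ[k] k) Q).coeff j := by
    intro z Q j
    rw [Polynomial.coe_mapAlgHom, coeff_map]
    show _ = MvPolynomial.aeval z (Q.coeff j)
    rw [MvPolynomial.aeval_eq_eval]
  have key0 : ∀ (z : Ix n N ρ d e → k) (i : Fin r),
      Polynomial.mapAlgHom (MvPolynomial.aeval z : R →ₐ[k] k) (e0 n N d nb A i zX) =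
        e0 n N d nb A i z := by
    intro z i
    rw [e0_map, hmap]
  have key1 : ∀ (z : Ix n N ρ d e → k) (i : Fin r) (j : Fin N),
      Polynomial.mapAlgHom (MvPolynomial.aeval z : R →ₐ[k] k)
        (e1 n N d nθ A P M G θ i j zX) = e1 n N d nθ A P M G θ i j z := by
    intro z i j
    rw [e1_map, hmap]
  have key2 : ∀ z : Ix n N ρ d e → k, Polynomial.mapAlgHom (MvPolynomial.aeval z : R →ₐ[k] k)
      (e2 n N d nα nta ntb A x xx y zX) = e2 n N d nα nta ntb A x xx y z := by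
    intro z
    rw [e2_map, hmap]
  obtain ⟨z, hz0, hz⟩ := Pool.Agent.ZIso.exists_ne_zero (K := k) (card_Ix hd hn hρ) F (by
    rintro (j | j | j)
    · show MvPolynomial.eval 0 ((e0 n N d nb A j.1 zX).coeff (j.2 + 1)) = 0
      rw [hev, key0, show (0 : Ix n N ρ d e → k) = fun _ => 0 from rfl, e0_zero hA cb, hE0]
      simp
    · show MvPolynomial.eval 0 ((e1 n N d nθ A P M G θ j.1 j.2.1 zX).coeff (j.2.2 + 1)) = 0
      rw [hev, key1, show (0 : Ix n N ρ d e → k) = fun _ => 0 from rfl,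
        e1_zero hA hP hM hG θ cθ, hE1]
      simp
    · show MvPolynomial.eval 0 ((e2 n N d nα nta ntb A x xx y zX).coeff (j + 1)) = 0
      rw [hev, key2, show (0 : Ix n N ρ d e → k) = fun _ => 0 from rfl, e2_zero hA cα cta ctb, hE2]
      simp)
  have hz0' : ∀ (i : Fin r) (j : Fin (3 * d i)), (e0 n N d nb A i z).coeff (j + 1) = 0 := by
    intro i j
    have h3 : MvPolynomial.eval z ((e0 n N d nb A i zX).coeff (j + 1)) = 0 := hz (.inl ⟨i, j⟩)
    rwa [hev, key0] at h3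
  have hz1' : ∀ (i : Fin r) (j : Fin N) (j' : Fin (6 * d i)),
      (e1 n N d nθ A P M G θ i j z).coeff (j' + 1) = 0 := by
    intro i j j'
    have h3 : MvPolynomial.eval z ((e1 n N d nθ A P M G θ i j zX).coeff (j' + 1)) = 0 :=
      hz (.inr (.inl ⟨i, (j, j')⟩))
    rwa [hev, key1] at h3
  have hz2' : ∀ j : Fin (6 * n), (e2 n N d nα nta ntb A x xx y z).coeff (j + 1) = 0 := by
    intro j
    have h3 : MvPolynomial.eval z ((e2 n N d nα nta ntb A x xx y zX).coeff (j + 1)) = 0 :=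
      hz (.inr (.inr j))
    rwa [hev, key2] at h3
  have r0 : ∀ i, e0 n N d nb A i z = 0 := fun i =>
    eq_zero_of (e0_natDegree db A i z) (hz0' i) (by rw [e0_eval0 hA zb, hE0])
  have r1 : ∀ i j, e1 n N d nθ A P M G θ i j z = 0 := fun i j =>
    eq_zero_of (e1_natDegree dθ A P M G θ i j z) (hz1' i j)
      (by rw [e1_eval0 hA hP hM hG θ zθ, hE1])
  have r2 : e2 n N d nα nta ntb A x xx y z = 0 :=
    eq_zero_of (e2_natDegree hn hd dα dta dtb A x xx y z) hz2'
      (by rw [e2_eval0 hA zα zta ztb, hE2])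
  unfold e0 E0 at r0
  unfold e1 E1 at r1
  unfold e2 E2 at r2
  simp only [nv_eq] at r0 r1 r2
  set q : k[X] := kq (1 : k) 2 fun i =>
    z (.inr (.inr (.inr (.inr (.inr (.inr (.inr (.inl i)))))))) with hq
  set y' : k[X] := kq y (3 * n - 1) fun i => z (.inr (.inr (.inr (.inr (.inr (.inr (.inl i)))))))
    with hy'
  set x' : Fin r → k[X] := fun i => kq (x i) (d i) fun j =>
    z (.inr (.inr (.inr (.inr (.inr (.inl ⟨i, j⟩)))))) with hx'
  set xx' : Fin t → k[X] := fun i => kq (xx i) (e i) fun j =>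
    z (.inr (.inr (.inr (.inr (.inr (.inr (.inr (.inr ⟨i, j⟩)))))))) with hxx'
  refine ⟨fun i => z (.inl i),
    fun i => bp (N / 2 + 1) (3 * d i) (A i).coeff fun j => z (.inr (.inl ⟨i, j⟩)),
    fun i => bp ((N + 1) / 2) (3 * d i) (P i).coeff fun j => z (.inr (.inr (.inl ⟨i, j⟩))),
    fun i => bp ((N + 1) / 2) (3 * d i) (M i).coeff fun j => z (.inr (.inr (.inr (.inl ⟨i, j⟩)))),
    fun i => bp (N / 2) (3 * d i) (G i).coeff fun j =>
      z (.inr (.inr (.inr (.inr (.inl ⟨i, j⟩))))),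
    x', xx', y', q, fun i => bp_degree _ _ _ _, fun i => bp_degree _ _ _ _,
    fun i => bp_degree _ _ _ _, fun i => bp_degree _ _ _ _, fun i => bp_map (hA i) _ _,
    fun i => bp_map (hP i) _ _, fun i => bp_map (hM i) _ _, fun i => bp_map (hG i) _ _,
    fun i => kq_eval _ _ _, fun i => kq_eval _ _ _, kq_eval _ _ _, kq_eval _ _ _,
    kq_natDegree _ _ _, ?_, ?_, ?_, ?_⟩
  · intro i
    rw [← C_0, bp_eval]
    exact sub_eq_zero.1 (r0 i)
  · intro i j
    rw [bp_eval, bp_eval, bp_eval, bp_eval]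
    exact sub_eq_zero.1 (r1 i j)
  · simp only [← C_1, bp_eval]
    exact sub_eq_zero.1 r2
  · rintro ⟨g1, g, gg⟩
    beta_reduce at g gg
    have g1' : (fun m : Fin ρ => (C (z (.inl m)) : k[X])) = 0 := by
      funext m
      have := congrFun g1 m
      simp only [Pi.zero_apply] at this ⊢
      rw [this, C_0]
    -- the product `q * y' ^ 2` is the constant `y ^ 2`
    have h5 : q * y' ^ 2 = C (y ^ 2) := by
      have h6 := sub_eq_zero.1 r2
      have h7 : ∀ i, sv (N / 2 + 1) (3 * d i) (A i).coeff (fun j => z (.inr (.inl ⟨i, j⟩))) 1 =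
          C ((A i).eval 1) := by
        intro i
        rw [← bp_eval, (g i).1, eval_map, eval₂_hom]
      have c3 : (C (3 : k) : k[X]) = 3 := map_ofNat _ 3
      have c2 : (C (2 : k) : k[X]) = 2 := map_ofNat _ 2
      rw [h6, h2, C_mul, map_prod, map_prod]
      congr 1
      · refine Finset.prod_congr rfl fun i _ => ?_
        have h10 : (kq (x i) (d i) fun j =>
            z (.inr (.inr (.inr (.inr (.inr (.inl ⟨i, j⟩)))))) : k[X]) = C (x i) := (g i).2.2.2.2
        rw [h7, g1', cα, h10]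
        simp [c3, c2]
      · refine Finset.prod_congr rfl fun i _ => ?_
        have h10 : (kq (xx i) (e i) fun j =>
            z (.inr (.inr (.inr (.inr (.inr (.inr (.inr (.inr ⟨i, j⟩)))))))) : k[X]) =
              C (xx i) := gg i
        rw [g1', cta, ctb, h10]
        simp [c3]
    have hT2 : y ^ 2 ≠ 0 := pow_ne_zero 2 hy
    have h6 : q * y' ^ 2 ≠ 0 := by
      rw [h5]
      exact C_ne_zero.2 hT2
    have hq0 : q ≠ 0 := fun h => h6 (by rw [h, zero_mul])
    have hg0 : y' ≠ 0 := fun h => h6 (by rw [h]; ring)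
    have h7 : q.natDegree + 2 * y'.natDegree = 0 := by
      have h8 := congrArg natDegree h5
      rw [natDegree_mul hq0 (pow_ne_zero 2 hg0), natDegree_pow, natDegree_C] at h8
      exact h8
    have h8 : q = C (q.coeff 0) := eq_C_of_natDegree_eq_zero (by omega)
    have h9 : y' = C (y'.coeff 0) := eq_C_of_natDegree_eq_zero (by omega)
    apply hz0
    have k7 := kq_const (hy' ▸ h9)
    have k8 := kq_const (hq ▸ h8)
    funext i
    rcases i with i | ⟨i, j⟩ | ⟨i, j⟩ | ⟨i, j⟩ | ⟨i, j⟩ | ⟨i, j⟩ | i | i | ⟨i, j⟩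
    · exact congrFun g1 i
    · exact bp_const (g i).1 j
    · exact bp_const (g i).2.1 j
    · exact bp_const (g i).2.2.1 j
    · exact bp_const (g i).2.2.2.1 j
    · exact kq_const (g i).2.2.2.2 j
    · exact k7 i
    · exact k8 i
    · exact kq_const (gg i) j

end Pool.Agent.KFam.Iso
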