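import Pool.Agent.KIso.Defs
import Pool.Agent.TInf.EVal

/-!
# Three points on a line
-/

set_option autoImplicit false

noncomputable section

namespace Pool.Agent.KFam.Iso

open Pool.Agent.ZCyc Pool.Agent.TInf Polynomial
open Pool.Agent.VFP (Om tt)

universe u

/-- the roots of a cubic polynomial -/
theorem cubic_roots {K : Type*} [Field K] [IsAlgClosed K] (a b c : K) :
    ∃ r : Fin 3 → K, r 0 + r 1 + r 2 = -a ∧ r 0 * r 1 + r 0 * r 2 + r 1 * r 2 = b ∧
      r 0 * r 1 * r 2 = -c := by
  obtain ⟨r₀, h0⟩ := IsAlgClosed.exists_root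
    (X ^ 3 + C a * X ^ 2 + C b * X + C c : K[X]) (by
      have : (X ^ 3 + C a * X ^ 2 + C b * X + C c : K[X]).degree = 3 := by compute_degree!
      rw [this]
      decide)
  have h0' : r₀ ^ 3 + a * r₀ ^ 2 + b * r₀ + c = 0 := by
    have := h0
    rw [IsRoot.def] at this
    simpa using this
  obtain ⟨r₁, h1⟩ := IsAlgClosed.exists_root
    (X ^ 2 + C (r₀ + a) * X + C (r₀ ^ 2 + a * r₀ + b) : K[X]) (by
      have : (X ^ 2 + C (r₀ + a) * X + C (r₀ ^ 2 + a * r₀ + b) : K[X]).degree = 2 := by
        compute_degree!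
      rw [this]
      decide)
  have h1' : r₁ ^ 2 + (r₀ + a) * r₁ + (r₀ ^ 2 + a * r₀ + b) = 0 := by
    have := h1
    rw [IsRoot.def] at this
    simpa using this
  refine ⟨![r₀, r₁, -a - r₀ - r₁], ?_, ?_, ?_⟩
  · simp only [Matrix.cons_val_zero, Matrix.cons_val_one, Matrix.cons_val]
    ring
  · simp only [Matrix.cons_val_zero, Matrix.cons_val_one, Matrix.cons_val]
    linear_combination -h1'
  · simp only [Matrix.cons_val_zero, Matrix.cons_val_one, Matrix.cons_val]
    linear_combination h0' - r₀ * h1'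

/-- a function which is additive on roots has the same sum for the roots of the same cubic -/
theorem roots_sum {K V : Type*} [Field K] [AddCommGroup V] (q x : Fin 3 → K) (F : K → V)
    (h1 : q 0 + q 1 + q 2 = x 0 + x 1 + x 2)
    (h2 : q 0 * q 1 + q 0 * q 2 + q 1 * q 2 = x 0 * x 1 + x 0 * x 2 + x 1 * x 2)
    (h3 : q 0 * q 1 * q 2 = x 0 * x 1 * x 2) :
    F (q 0) + F (q 1) + F (q 2) = F (x 0) + F (x 1) + F (x 2) := by
  have key : ∀ a b c d : K, a + b = c + d → a * b = c * d →
      F a + F b = F c + F d := by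
    intro a b c d h3 h4
    have h5 : (a - c) * (a - d) = 0 := by linear_combination a * h3 - h4
    rcases mul_eq_zero.1 h5 with h6 | h6
    · have e1 : a = c := sub_eq_zero.1 h6
      have e2 : b = d := by
        rw [e1] at h3
        exact add_left_cancel h3
      rw [e1, e2]
    · have e1 : a = d := sub_eq_zero.1 h6
      have e2 : b = c := by
        rw [e1, add_comm c d] at h3
        exact add_left_cancel h3
      rw [e1, e2, add_comm]
  have h0 : (q 0 - x 0) * (q 0 - x 1) * (q 0 - x 2) = 0 := by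
    linear_combination q 0 ^ 2 * h1 - q 0 * h2 + h3
  rcases mul_eq_zero.1 h0 with h6 | h6
  · rcases mul_eq_zero.1 h6 with h7 | h7
    · have e : q 0 = x 0 := sub_eq_zero.1 h7
      have h8 := key (q 1) (q 2) (x 1) (x 2) (by linear_combination h1 - e)
        (by linear_combination h2 - e * (q 1 + q 2) - x 0 * (h1 - e))
      rw [e, add_assoc, h8, add_assoc]
    · have e : q 0 = x 1 := sub_eq_zero.1 h7
      have h8 := key (q 1) (q 2) (x 0) (x 2) (by linear_combination h1 - e)
        (by linear_combination h2 - e * (q 1 + q 2) - x 1 * (h1 - e))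
      rw [e, add_assoc, h8]
      abel
  · have e : q 0 = x 2 := sub_eq_zero.1 h6
    have h8 := key (q 1) (q 2) (x 0) (x 1) (by linear_combination h1 - e)
      (by linear_combination h2 - e * (q 1 + q 2) - x 2 * (h1 - e))
    rw [e, add_assoc, h8]
    abel

variable {k : Type u} [Field k] [IsAlgClosed k] [CharZero k]

omit [IsAlgClosed k] [CharZero k] in
/-- integral elements are in the ring of the place -/
theorem cubic_mem (v : Place k (Om k)) {x a b c : Om k} (ha : a ∈ v.ring) (hb : b ∈ v.ring)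
    (hc : c ∈ v.ring) (h : x ^ 3 + a * x ^ 2 + b * x + c = 0) : x ∈ v.ring := by
  by_contra hx
  have hx0 : x ≠ 0 := by
    rintro rfl
    exact hx (zero_mem _)
  have h1 : v.Vanishes x⁻¹ := by
    rw [Place.vanishes_iff_or]
    right
    rwa [inv_inv]
  have h2 : v.Vanishes (x⁻¹ ^ 2) := h1.pow v (by norm_num)
  have h3 : v.Vanishes (x⁻¹ ^ 3) := h1.pow v (by norm_num)
  have h4 : v.Vanishes (x⁻¹ * (-a) + x⁻¹ ^ 2 * (-b) + x⁻¹ ^ 3 * (-c)) :=
    Place.Vanishes.add v (Place.Vanishes.add v (h1.mul v (neg_mem ha)) (h2.mul v (neg_mem hb)))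
      (h3.mul v (neg_mem hc))
  have h5 : x⁻¹ * (-a) + x⁻¹ ^ 2 * (-b) + x⁻¹ ^ 3 * (-c) = algebraMap k (Om k) 1 := by
    rw [map_one]
    field_simp
    linear_combination -h
  rw [h5] at h4
  exact v.const_unit one_ne_zero h4

/-- values of the three roots -/
theorem cubic_val (v : Place k (Om k)) {A B C : Om k} {a b c : k} (hA : v.At A a)
    (hB : v.At B b) (hC : v.At C c) {r : Fin 3 → Om k} (h1 : r 0 + r 1 + r 2 = -A)
    (h2 : r 0 * r 1 + r 0 * r 2 + r 1 * r 2 = B) (h3 : r 0 * r 1 * r 2 = -C) :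
    ∃ q : Fin 3 → k, (∀ i, v.At (r i) (q i)) ∧ q 0 + q 1 + q 2 = -a ∧
      q 0 * q 1 + q 0 * q 2 + q 1 * q 2 = b ∧ q 0 * q 1 * q 2 = -c := by
  have hcub : ∀ i, r i ^ 3 + A * r i ^ 2 + B * r i + C = 0 := by
    intro i
    fin_cases i
    · show r 0 ^ 3 + A * r 0 ^ 2 + B * r 0 + C = 0
      linear_combination r 0 ^ 2 * h1 - (r 0) * h2 + h3
    · show r 1 ^ 3 + A * r 1 ^ 2 + B * r 1 + C = 0
      linear_combination r 1 ^ 2 * h1 - (r 1) * h2 + h3
    · show r 2 ^ 3 + A * r 2 ^ 2 + B * r 2 + C = 0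
      linear_combination r 2 ^ 2 * h1 - (r 2) * h2 + h3
  choose q hq using fun i => DCI57.exists_at v
    (cubic_mem v hA.mem hB.mem hC.mem (hcub i))
  refine ⟨q, hq, ?_, ?_, ?_⟩
  · have h4 := ((hq 0).add (hq 1)).add (hq 2)
    rw [h1] at h4
    exact h4.unique hA.neg
  · have h4 := (((hq 0).mul (hq 1)).add ((hq 0).mul (hq 2))).add ((hq 1).mul (hq 2))
    rw [h2] at h4
    exact h4.unique hB
  · have h4 := ((hq 0).mul (hq 1)).mul (hq 2)
    rw [h3] at h4
    exact h4.unique hC.neg

variable {n : ℕ} {W : Type*} [AddCommGroup W] [Module ℚ W] {α B : Fin n → k}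
  {f : (Fin n → EPt k) → W}

omit [IsAlgClosed k] [CharZero k] in
/-- the class of a point of order two is zero -/
theorem f_two (hf : ClassFn α B f) (p : Fin n → EPt k) (j : Fin n) {x : k}
    (h : p j = some (x, 0)) : f p = 0 := by
  have h1 := hf.odd p j x 0 h
  rw [neg_zero, ← h, Function.update_eq_self] at h1
  have h2 : (2 : ℚ) • f p = 0 := by
    rw [two_smul]
    nth_rewrite 1 [h1]
    exact neg_add_cancel _
  exact (smul_eq_zero.1 h2).resolve_left two_ne_zero

/-- Three points on the line `y = m x + c`: consider the lines `y = t (m x + c)`. -/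
theorem line_gen (hf : ClassFn α B f) (p : Fin n → EPt k) (hp : ∀ i, EOn (α i) (B i) (p i))
    (j : Fin n) (m c : k) (x : Fin 3 → k)
    (h : ∀ X : k, X ^ 3 - 3 * α j * X + B j - (m * X + c) ^ 2 =
      (X - x 0) * (X - x 1) * (X - x 2)) :
    ∑ i, f (Function.update p j (some (x i, m * x i + c))) = 0 := by
  set am : k →+* Om k := algebraMap k (Om k) with ham
  obtain ⟨r, hr1, hr2, hr3⟩ := cubic_roots (-(am m ^ 2 * tt k ^ 2))
    (-3 * am (α j) - 2 * am m * am c * tt k ^ 2) (am (B j) - am c ^ 2 * tt k ^ 2)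
  set P : Fin 3 → Fin n → EPt (Om k) := fun i =>
    Function.update (fun l => cpt (p l)) j (some (r i, tt k * (am m * r i + am c))) with hP
  have hcub : ∀ i, (tt k * (am m * r i + am c)) ^ 2 = r i ^ 3 - 3 * am (α j) * r i +
      am (B j) := by
    intro i
    have e : ∀ X : Om k, X ^ 3 - (am m ^ 2 * tt k ^ 2) * X ^ 2 +
        (-3 * am (α j) - 2 * am m * am c * tt k ^ 2) * X + (am (B j) - am c ^ 2 * tt k ^ 2) =
        (X - r 0) * (X - r 1) * (X - r 2) := by
      intro X
      linear_combination X ^ 2 * hr1 - X * hr2 + hr3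
    have e2 : (r i - r 0) * (r i - r 1) * (r i - r 2) = 0 := by
      fin_cases i
      · show (r 0 - r 0) * (r 0 - r 1) * (r 0 - r 2) = 0
        ring
      · show (r 1 - r 0) * (r 1 - r 1) * (r 1 - r 2) = 0
        ring
      · show (r 2 - r 0) * (r 2 - r 1) * (r 2 - r 2) = 0
        ring
    have e3 := e (r i)
    rw [e2] at e3
    linear_combination -e3
  have hon : ∀ i l, EOn (am (α l)) (am (B l)) (P i l) := by
    intro i l
    by_cases hl : l = j
    · subst hl
      simp only [hP, Function.update_self]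
      exact hcub i
    · simp only [hP, Function.update_of_ne hl]
      exact eon_cpt rfl rfl (hp l)
  have hval : ∀ (v : Place k (Om k)) (t : k) (q : Fin 3 → k), v.At (tt k) t →
      (∀ i, v.At (r i) (q i)) → ∀ i l, EVal v (P i l)
        (Function.update p j (some (q i, t * (m * q i + c))) l) := by
    intro v t q hv hq i l
    by_cases hl : l = j
    · subst hl
      simp only [hP, Function.update_self]
      exact ⟨hq i, hv.mul (((Place.at_const m).mul (hq i)).add (Place.at_const c))⟩
    · simp only [hP, Function.update_of_ne hl]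
      exact eval_cpt v (p l)
  have hlim : ∀ (v : Place k (Om k)) (t : k), v.At (tt k) t → ∃ q : Fin 3 → k,
      (∀ i, v.At (r i) (q i)) ∧ q 0 + q 1 + q 2 = -(-(m ^ 2 * t ^ 2)) ∧
      q 0 * q 1 + q 0 * q 2 + q 1 * q 2 = -3 * α j - 2 * m * c * t ^ 2 ∧
      q 0 * q 1 * q 2 = -(B j - c ^ 2 * t ^ 2) := by
    intro v t hv
    refine cubic_val v ?_ ?_ ?_ hr1 hr2 hr3
    · exact (((Place.at_const m).pow 2).mul (hv.pow 2)).neg
    · have h3 : v.At (-3 : Om k) (-3 : k) := by
        have := Place.at_const (v := v) (-3 : k)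
        rwa [map_neg, map_ofNat] at this
      have h2 : v.At (2 : Om k) (2 : k) := by
        have := Place.at_const (v := v) (2 : k)
        rwa [map_ofNat] at this
      exact (h3.mul (Place.at_const _)).sub
        (((h2.mul (Place.at_const m)).mul (Place.at_const c)).mul (hv.pow 2))
    · exact (Place.at_const _).sub (((Place.at_const c).pow 2).mul (hv.pow 2))
  have hx : x 0 + x 1 + x 2 = m ^ 2 ∧ x 0 * x 1 + x 0 * x 2 + x 1 * x 2 = -3 * α j - 2 * m * c ∧
      x 0 * x 1 * x 2 = -(B j - c ^ 2) := by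
    have e0 := h 0
    have e1 := h 1
    have e2 := h (-1)
    have h2 : (2 : k) ≠ 0 := two_ne_zero
    have e3 : x 0 + x 1 + x 2 = m ^ 2 := by
      have : 2 * (x 0 + x 1 + x 2 - m ^ 2) = 0 := by linear_combination e1 + e2 - 2 * e0
      have := (mul_eq_zero.1 this).resolve_left h2
      linear_combination this
    refine ⟨e3, ?_, ?_⟩
    · linear_combination e0 - e1 + e3
    · linear_combination e0
  have key := hf.bridge (fun _ : Fin 3 => (1 : ℚ)) P hon 1 0
    (∑ i, f (Function.update p j (some (x i, m * x i + c)))) 0 ?_ ?_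
  · exact key
  · intro v hv
    obtain ⟨q, hq, q1, q2, q3⟩ := hlim v 1 hv
    refine ⟨fun i => Function.update p j (some (q i, 1 * (m * q i + c))), hval v 1 q hv hq, ?_⟩
    simp only [one_mul, one_smul]
    have e := roots_sum q x (fun X => f (Function.update p j (some (X, m * X + c))))
      (by rw [q1, hx.1]; ring) (by rw [q2, hx.2.1]; ring) (by rw [q3, hx.2.2]; ring)
    rw [Fin.sum_univ_three, Fin.sum_univ_three]
    exact e
  · intro v hv
    obtain ⟨q, hq, -⟩ := hlim v 0 hv
    refine ⟨fun i => Function.update p j (some (q i, 0 * (m * q i + c))), hval v 0 q hv hq, ?_⟩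
    refine Finset.sum_eq_zero fun i _ => ?_
    beta_reduce
    rw [f_two hf _ j (x := q i) (by rw [Function.update_self, zero_mul]), smul_zero]

end Pool.Agent.KFam.Iso
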