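import Pool.Agent.KIso.Row

/-!
# The system for the restricted base
-/

set_option autoImplicit false

noncomputable section

namespace Pool.Agent.KFam.Iso

open Pool.Agent.ZCyc Pool.Agent.TInf Polynomial
open Pool.Agent.VFP (Om tt)

universe u

variable {k : Type u} [Field k] [IsAlgClosed k] [CharZero k] {N r n q : ℕ}

/-- the data for the isotrivial indices: the constant curves, the index `j₀`, and fixed points -/
structure Dt (D : Base k N) (E : Fin r ⊕ Fin q ≃ Fin N) (n : ℕ) where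
  /-- the coefficient of the constant curve -/
  a : Fin q → k
  /-- the coefficient of the constant curve -/
  b : Fin q → k
  idx : ∀ i, IsoIdx D (E (.inr i)) (a i) (b i)
  /-- the index of the variable point -/
  j₀ : Fin n
  /-- the fixed points -/
  Z : Fin q → Fin n → EPt k
  on : ∀ i j, EOn (a i) (b i) (Z i j)

variable {D : Base k N} {E : Fin r ⊕ Fin q ≃ Fin N} (t : Dt D E n)

/-- the twists -/
def Dt.c (s : Fin n → (subBase D E).P) (i : Fin q) (j : Fin n) : k :=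
  rt (t.a i) (t.b i) (D.al (E (.inr i)) (s j).1) (D.be (E (.inr i)) (s j).1)

/-- the twists over `Om k` -/
def Dt.C (S : Fin n → (subBase D E).Q) (i : Fin q) (j : Fin n) : Om k :=
  rt (algebraMap k (Om k) (t.a i)) (algebraMap k (Om k) (t.b i))
    (D.alQ (E (.inr i)) (S j).1) (D.beQ (E (.inr i)) (S j).1)

omit [IsAlgClosed k] [CharZero k] in
theorem Dt.kind (i : Fin q) : (t.a i = 0 ∧ t.b i = 1) ∨ (t.a i = 1 ∧ t.b i = 0) := by
  rcases t.idx i with h | h
  · exact Or.inl ⟨h.1, h.2.1⟩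
  · exact Or.inr ⟨h.1, h.2.1⟩

omit [IsAlgClosed k] [CharZero k] in
theorem Dt.kindQ (i : Fin q) :
    (algebraMap k (Om k) (t.a i) = 0 ∧ algebraMap k (Om k) (t.b i) = 1) ∨
      (algebraMap k (Om k) (t.a i) = 1 ∧ algebraMap k (Om k) (t.b i) = 0) := by
  rcases t.kind i with ⟨h1, h2⟩ | ⟨h1, h2⟩
  · exact Or.inl ⟨by rw [h1, map_zero], by rw [h2, map_one]⟩
  · exact Or.inr ⟨by rw [h1, map_one], by rw [h2, map_zero]⟩

omit [CharZero k] in
theorem Dt.twd (s : Fin n → (subBase D E).P) (i : Fin q) :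
    Twd (D.ea (fun j => (s j).1) (E (.inr i))) (D.eb (fun j => (s j).1) (E (.inr i)))
      (t.a i) (t.b i) (t.c s i) := by
  have h : ∀ j, t.c s i j ≠ 0 ∧ D.al (E (.inr i)) (s j).1 = t.c s i j ^ 4 * t.a i ∧
      D.be (E (.inr i)) (s j).1 = t.c s i j ^ 6 * t.b i := by
    intro j
    refine rt_spec (rt_exists ?_ ((s j).2 i))
    rcases t.idx i with h | h
    · exact Or.inl ⟨h.1, h.2.1, h.2.2.1 _⟩
    · exact Or.inr ⟨h.1, h.2.1, h.2.2.1 _⟩
  exact ⟨fun j => (h j).1, fun j => (h j).2.1, fun j => (h j).2.2⟩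

theorem Dt.twdQ (S : Fin n → (subBase D E).Q) (i : Fin q) :
    Twd (D.EA (fun j => (S j).1) (E (.inr i))) (D.EB (fun j => (S j).1) (E (.inr i)))
      (algebraMap k (Om k) (t.a i)) (algebraMap k (Om k) (t.b i)) (t.C S i) := by
  have h : ∀ j, t.C S i j ≠ 0 ∧
      D.alQ (E (.inr i)) (S j).1 = t.C S i j ^ 4 * algebraMap k (Om k) (t.a i) ∧
      D.beQ (E (.inr i)) (S j).1 = t.C S i j ^ 6 * algebraMap k (Om k) (t.b i) := by
    intro j
    refine rt_spec (rt_exists ?_ ((S j).2 i))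
    rcases t.idx i with h | h
    · exact Or.inl ⟨by rw [h.1, map_zero], by rw [h.2.1, map_one], h.2.2.2 _⟩
    · exact Or.inr ⟨by rw [h.1, map_one], by rw [h.2.1, map_zero], h.2.2.2 _⟩
  exact ⟨fun j => (h j).1, fun j => (h j).2.1, fun j => (h j).2.2⟩

/-- all rows over `k` -/
def Dt.rows (s : Fin n → (subBase D E).P) (g : Fin q → EPt k) (i : Fin q) (j : Fin n) : EPt k :=
  row t.j₀ (t.c s i) (t.Z i) (g i) j

/-- all rows over `Om k` -/
def Dt.rowsQ (S : Fin n → (subBase D E).Q) (G : Fin q → EPt (Om k)) (i : Fin q) (j : Fin n) :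
    EPt (Om k) :=
  row t.j₀ (t.C S i) (fun j => cpt (t.Z i j)) (G i) j

omit [CharZero k] in
theorem Dt.ta_eq (s : Fin n → (subBase D E).P) (i : Fin q) :
    (subTot D E : Tot _ n q).ta s i = (∏ j, t.c s i j) ^ 4 * t.a i ∧
      (subTot D E : Tot _ n q).tb s i = (∏ j, t.c s i j) ^ 6 * t.b i :=
  prod_twd (t.twd s i) (t.kind i) t.j₀

theorem Dt.taQ_eq (S : Fin n → (subBase D E).Q) (i : Fin q) :
    (subTot D E : Tot _ n q).taQ S i = (∏ j, t.C S i j) ^ 4 * algebraMap k (Om k) (t.a i) ∧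
      (subTot D E : Tot _ n q).tbQ S i = (∏ j, t.C S i j) ^ 6 * algebraMap k (Om k) (t.b i) :=
  prod_twd (t.twdQ S i) (t.kindQ i) t.j₀

omit [CharZero k] in
theorem Dt.g_on {s : Fin n → (subBase D E).P} {g : Fin q → EPt k}
    (h : (subTot D E : Tot _ n q).On s g) (i : Fin q) :
    EOn ((∏ l, t.c s i l) ^ 4 * t.a i) ((∏ l, t.c s i l) ^ 6 * t.b i) (g i) := by
  have h1 := h i
  rw [(t.ta_eq s i).1, (t.ta_eq s i).2] at h1
  exact h1

omit [CharZero k] in
theorem Dt.rows_on {s : Fin n → (subBase D E).P} {g : Fin q → EPt k}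
    (h : (subTot D E : Tot _ n q).On s g) (i : Fin q) (j : Fin n) :
    EOn (D.ea (fun j => (s j).1) (E (.inr i)) j) (D.eb (fun j => (s j).1) (E (.inr i)) j)
      (t.rows s g i j) :=
  (t.twd s i).on (rr_on (t.twd s i).ne (t.on i) (t.g_on h i) j) j

theorem Dt.onQ {S : Fin n → (subBase D E).Q} {P : Fin r → Fin n → EPt (Om k)}
    (hP : (subBase D E).OnQ S P) {G : Fin q → EPt (Om k)}
    (hG : (subTot D E : Tot _ n q).OnQ S G) :
    D.OnQ (fun j => (S j).1) (comb E P (t.rowsQ S G)) := by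
  intro i
  refine comb_ind (C := fun i R => ∀ j, EOn (D.EA (fun j => (S j).1) i j)
    (D.EB (fun j => (S j).1) i j) (R j)) (fun i => hP i) (fun i j => ?_) i
  refine (t.twdQ S i).on (rr_on (t.twdQ S i).ne (fun j => eon_cpt rfl rfl (t.on i j)) ?_ j) j
  have h1 := hG i
  rw [(t.taQ_eq S i).1, (t.taQ_eq S i).2] at h1
  exact h1

omit [CharZero k] in
theorem Dt.off_rows {s : Fin n → (subBase D E).P} {g : Fin q → EPt k}
    {p : Fin r → Fin n → EPt k}
    (h : D.On (fun j => (s j).1) (comb E p (t.rows s g))) :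
    (subTot D E : Tot _ n q).On s g := by
  intro i
  have h1 := h (E (.inr i)) t.j₀
  rw [comb_inr] at h1
  unfold Dt.rows at h1
  rw [row_self, (t.twd s i).al t.j₀, (t.twd s i).be t.j₀] at h1
  have hp0 : ∏ l, t.c s i l ≠ 0 := Finset.prod_ne_zero_iff.2 fun l _ => (t.twd s i).ne l
  have hc0 := (t.twd s i).ne t.j₀
  have h2 := tw_on (c := (∏ l, t.c s i l) / t.c s i t.j₀) h1
  rw [tw_tw] at h2
  have e1 : (∏ l, t.c s i l) / t.c s i t.j₀ * (t.c s i t.j₀ * (∏ l, t.c s i l)⁻¹) = 1 := by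
    field_simp
  have e2 : ((∏ l, t.c s i l) / t.c s i t.j₀) ^ 4 * (t.c s i t.j₀ ^ 4 * t.a i) =
      (∏ l, t.c s i l) ^ 4 * t.a i := by
    rw [← mul_assoc, ← mul_pow, div_mul_cancel₀ _ hc0]
  have e3 : ((∏ l, t.c s i l) / t.c s i t.j₀) ^ 6 * (t.c s i t.j₀ ^ 6 * t.b i) =
      (∏ l, t.c s i l) ^ 6 * t.b i := by
    rw [← mul_assoc, ← mul_pow, div_mul_cancel₀ _ hc0]
  rw [e1, tw_one, e2, e3, ← (t.ta_eq s i).1, ← (t.ta_eq s i).2] at h2
  exact h2

omit [IsAlgClosed k] [CharZero k] in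
theorem mem_of_pow (v : Place k (Om k)) {x : Om k} {m : ℕ} (h : x ^ (m + 1) ∈ v.ring) :
    x ∈ v.ring := by
  rcases v.ring.mem_or_inv_mem x with h1 | h1
  · exact h1
  · by_cases hx0 : x = 0
    · rw [hx0]
      exact zero_mem _
    · have h2 : x = x ^ (m + 1) * x⁻¹ ^ m := by
        rw [pow_succ', mul_assoc, ← mul_pow, mul_inv_cancel₀ hx0, one_pow, mul_one]
      rw [h2]
      exact mul_mem h (pow_mem h1 m)

/-- the values of the twists are twists -/
theorem Dt.c_val {v : Place k (Om k)} {S : Fin n → (subBase D E).Q}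
    {s : Fin n → (subBase D E).P} (h : ∀ j, (subBase D E).At v (S j) (s j)) (i : Fin q) :
    ∃ c : Fin n → k, (∀ j, v.At (t.C S i j) (c j)) ∧
      Twd (D.ea (fun j => (s j).1) (E (.inr i))) (D.eb (fun j => (s j).1) (E (.inr i)))
        (t.a i) (t.b i) c := by
  have hal : ∀ j, v.At (D.alQ (E (.inr i)) (S j).1) (D.al (E (.inr i)) (s j).1) := fun j =>
    D.at_al v _ _ (h j) _
  have hbe : ∀ j, v.At (D.beQ (E (.inr i)) (S j).1) (D.be (E (.inr i)) (s j).1) := fun j =>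
    D.at_be v _ _ (h j) _
  have hT := t.twdQ S i
  have hex : ∀ j, ∃ c : k, v.At (t.C S i j) c := by
    intro j
    have h4 := hT.al j
    have h6 := hT.be j
    rcases t.kindQ i with ⟨h1, h2⟩ | ⟨h1, h2⟩
    · rw [h2, mul_one] at h6
      refine DCI57.exists_at v (mem_of_pow v (m := 5) ?_)
      rw [← h6]
      exact (hbe j).mem
    · rw [h1, mul_one] at h4
      refine DCI57.exists_at v (mem_of_pow v (m := 3) ?_)
      rw [← h4]
      exact (hal j).mem
  choose c hc using hex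
  have h4 : ∀ j, D.al (E (.inr i)) (s j).1 = c j ^ 4 * t.a i := by
    intro j
    have h1 := ((hc j).pow 4).mul (Place.at_const (v := v) (t.a i))
    have h2 := hT.al j
    rw [← h2] at h1
    exact (hal j).unique h1
  have h6 : ∀ j, D.be (E (.inr i)) (s j).1 = c j ^ 6 * t.b i := by
    intro j
    have h1 := ((hc j).pow 6).mul (Place.at_const (v := v) (t.b i))
    have h2 := hT.be j
    rw [← h2] at h1
    exact (hbe j).unique h1
  refine ⟨c, hc, ⟨fun j hj => ?_, h4, h6⟩⟩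
  rcases (s j).2 i with h | h
  · apply h
    rw [h4 j, hj]
    ring
  · apply h
    rw [h6 j, hj]
    ring

end Pool.Agent.KFam.Iso
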