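import Pool.Agent.KIso.Make

/-!
# The system for the restricted base: construction
-/

set_option autoImplicit false

noncomputable section

namespace Pool.Agent.KFam.Iso

open Pool.Agent.ZCyc Pool.Agent.TInf Polynomial
open Pool.Agent.VFP (Om tt)

universe u

variable {k : Type u} [Field k] [IsAlgClosed k] [CharZero k] {N r n q : ℕ}
  {D : Base k N} {E : Fin r ⊕ Fin q ≃ Fin N} (t : Dt D E n) {W : Type*} [AddCommGroup W]
  [Module ℚ W]

omit [IsAlgClosed k] [CharZero k] in
theorem comb_comp (E : Fin r ⊕ Fin q ≃ Fin N) (p : Fin r → Fin n → EPt k)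
    (R : Fin q → Fin n → EPt k) (π : Equiv.Perm (Fin n)) :
    comb E (fun i => p i ∘ π) (fun i => R i ∘ π) = fun i => comb E p R i ∘ π := by
  funext i
  obtain ⟨x, rfl⟩ := E.surjective i
  rcases x with i | i
  · rw [comb_inl, comb_inl]
  · rw [comb_inr, comb_inr]

theorem Dt.perm (Y : SysB D n W) {s : Fin n → (subBase D E).P} {g : Fin q → EPt k}
    (hg : (subTot D E : Tot _ n q).On s g) (p : Fin r → Fin n → EPt k)
    (π : Equiv.Perm (Fin n)) :
    Y.F (fun j => ((s ∘ π) j).1) (comb E (fun i => p i ∘ π) (t.rows (s ∘ π) g)) =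
      (((Equiv.Perm.sign π : ℤˣ) : ℤ) ^ r) • Y.F (fun j => (s j).1) (comb E p (t.rows s g)) := by
  obtain ⟨R, hR⟩ : ∃ R : Fin q → Fin n → EPt k, ∀ i j, R i j =
      rr t.j₀ (t.c s i) (t.Z i) (g i) j := ⟨_, fun _ _ => rfl⟩
  obtain ⟨X, hX⟩ : ∃ X : Fin q → Fin n → EPt k, ∀ i, X i = fun l =>
      tw (t.c s i l) (R i (π⁻¹ l)) := ⟨_, fun _ => rfl⟩
  have e1 : t.rows (s ∘ π) g = fun i => X i ∘ π := by
    funext i j
    rw [hX]
    have e3 : π⁻¹ (π j) = j := π.symm_apply_apply j
    show _ = tw (t.c s i (π j)) (R i (π⁻¹ (π j)))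
    rw [e3, hR]
    unfold Dt.rows row rr
    have e2 : ∏ l, t.c (s ∘ π) i l = ∏ l, t.c s i l := Equiv.prod_comp π fun l => t.c s i l
    rw [e2]
    rfl
  rw [e1, comb_comp]
  have h1 := Y.perm (fun j => (s j).1) (comb E p X) π
  have h2 : (fun j => ((s ∘ π) j).1) = (fun j => (s j).1) ∘ π := rfl
  rw [h2, h1]
  have h3 := rows_smul E (Y.F fun j => (s j).1) ((Equiv.Perm.sign π⁻¹ : ℤˣ) : ℤ) p
    (t.rows s g) X (by
      intro i P
      have h4 := perm_tw ((Y.multi fun j => (s j).1).single (E (.inr i)) P) (t.twd s i) π⁻¹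
        (R i) (fun j => by
          rw [hR]
          exact rr_on (t.twd s i).ne (t.on i) (t.g_on hg i) j)
      rw [hX]
      rw [h4]
      have e3 : (fun j => tw (t.c s i j) (R i j)) = t.rows s g i := by
        funext j
        rw [hR]
        rfl
      rw [e3])
  rw [h3, smul_smul]
  congr 1
  have hN : N = r + q := by
    have := Fintype.card_congr E
    simpa using this.symm
  rw [hN, Equiv.Perm.sign_inv, ← pow_add]
  have h5 : (((Equiv.Perm.sign π : ℤˣ) : ℤ)) ^ 2 = 1 := by
    rcases Int.units_eq_one_or (Equiv.Perm.sign π) with h | h <;> rw [h] <;> norm_num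
  have h6 : r + q + q = r + 2 * q := by ring
  rw [h6, pow_add, pow_mul, h5, one_pow, mul_one]

/-- the values of the rows -/
theorem Dt.fin (Y : SysB D n W) {v : Place k (Om k)} {S : Fin n → (subBase D E).Q}
    {G : Fin q → EPt (Om k)} {P : Fin r → Fin n → EPt (Om k)} (hP : (subBase D E).OnQ S P)
    (hG : (subTot D E : Tot _ n q).OnQ S G) {s : Fin n → (subBase D E).P}
    {g : Fin q → EPt k} {p : Fin r → Fin n → EPt k}
    (hs : ∀ j, (subBase D E).At v (S j) (s j)) (hg : ∀ i, EVal v (G i) (g i))
    (hp : ∀ i j, EVal v (P i j) (p i j)) :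
    Y.Val v (fun j => (S j).1) (comb E P (t.rowsQ S G))
      (Y.F (fun j => (s j).1) (comb E p (t.rows s g))) := by
  have hgon : (subTot D E : Tot _ n q).On s g := fun i =>
    evalue_on ((subTot D E : Tot _ n q).at_ta v S s hs i)
      ((subTot D E : Tot _ n q).at_tb v S s hs i) (hG i) (hg i)
  choose c hc hT using fun i => t.c_val hs i
  obtain ⟨R, hR⟩ : ∃ R : Fin q → Fin n → EPt k, R = fun i => row t.j₀ (c i) (t.Z i) (g i) :=
    ⟨_, rfl⟩
  have h1 : Y.F (fun j => (s j).1) (comb E p R) =
      Y.F (fun j => (s j).1) (comb E p (t.rows s g)) := by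
    have h2 := rows_smul E (Y.F fun j => (s j).1) 1 p (t.rows s g) R (by
      intro i P'
      rw [one_smul, hR]
      refine row_congr ((Y.multi fun j => (s j).1).single (E (.inr i)) P') (t.twd s i) (hT i)
        t.j₀ (t.on i) ?_
      have h3 := hgon i
      have h4 := prod_twd (hT i) (t.kind i) t.j₀
      have h5 : (subTot D E : Tot _ n q).ta s i = (∏ j, c i j) ^ 4 * t.a i := h4.1
      have h6 : (subTot D E : Tot _ n q).tb s i = (∏ j, c i j) ^ 6 * t.b i := h4.2
      rw [h5, h6] at h3
      exact h3)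
    rw [one_pow, one_smul] at h2
    exact h2
  rw [← h1]
  refine Y.fin v _ _ (t.onQ hP hG) (fun j => (s j).1) _ hs ?_
  intro i j
  obtain ⟨x, rfl⟩ := E.surjective i
  rcases x with i | i
  · rw [comb_inl, comb_inl]
    exact hp i j
  · rw [comb_inr, comb_inr, hR]
    exact eval_row (hc i) (hT i).ne (t.Z i) (hg i) j

/-- the system -/
def Dt.sys (Y : SysB D n W) : SysG (subBase D E) (subTot D E : Tot _ n q) W where
  F s g p := Y.F (fun j => (s j).1) (comb E p (t.rows s g))
  Val v S G P C := Y.Val v (fun j => (S j).1) (comb E P (t.rowsQ S G)) C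
  perm := by
    intro s g p π
    by_cases hg : (subTot D E : Tot _ n q).On s g
    · exact t.perm Y hg p π
    · have h1 : ¬ (subTot D E : Tot _ n q).On (s ∘ π) g := by
        intro h
        apply hg
        intro i
        have h2 := h i
        have e1 : (subTot D E : Tot _ n q).ta (s ∘ π) i = (subTot D E : Tot _ n q).ta s i :=
          Equiv.prod_comp π fun j => D.al (E (.inr i)) (s j).1
        have e2 : (subTot D E : Tot _ n q).tb (s ∘ π) i = (subTot D E : Tot _ n q).tb s i :=
          Equiv.prod_comp π fun j => D.be (E (.inr i)) (s j).1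
        rw [e1, e2] at h2
        exact h2
      rw [Y.off (fun j => (s j).1) _ fun h => hg (t.off_rows h), smul_zero]
      exact Y.off _ _ fun h => h1 (t.off_rows h)
  odd := by
    intro s g p i j x y h
    rw [comb_update_inl]
    have h1 := Y.odd (fun j => (s j).1) (comb E p (t.rows s g)) (E (.inl i)) j x y
      (by rw [comb_inl]; exact h)
    rw [comb_inl] at h1
    exact h1
  inf := by
    intro s g p i j h
    exact Y.inf _ _ (E (.inl i)) j (by rw [comb_inl]; exact h)
  off := by
    intro s g p h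
    refine Y.off _ _ fun h1 => h fun i j => ?_
    have h2 := h1 (E (.inl i)) j
    rw [comb_inl] at h2
    exact h2
  oddG := by
    intro s g p i x y h
    have e1 : t.rows s (Function.update g i (some (x, -y))) =
        Function.update (t.rows s g) i (Function.update (t.rows s g i) t.j₀
          (tw (t.c s i t.j₀ * (∏ l, t.c s i l)⁻¹) (some (x, -y)))) := by
      funext i'
      by_cases hi : i' = i
      · subst hi
        rw [Function.update_self]
        have := row_update t.j₀ (t.c s i') (t.Z i') (g i') (some (x, -y))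
        funext j
        have h2 := congrFun this j
        unfold Dt.rows
        rw [Function.update_self]
        exact h2
      · rw [Function.update_of_ne hi]
        funext j
        unfold Dt.rows
        rw [Function.update_of_ne hi]
    rw [e1, comb_update_inr]
    set c := t.c s i t.j₀ * (∏ l, t.c s i l)⁻¹ with hc
    have h1 := Y.odd (fun j => (s j).1) (comb E p (t.rows s g)) (E (.inr i)) t.j₀
      (c ^ 2 * x) (c ^ 3 * y) (by
        rw [comb_inr]
        unfold Dt.rows
        rw [row_self, h]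
        rfl)
    rw [comb_inr] at h1
    rw [tw_some, mul_neg]
    exact h1
  infG := by
    intro s g p i h
    refine Y.inf _ _ (E (.inr i)) t.j₀ ?_
    rw [comb_inr]
    unfold Dt.rows
    rw [row_self, h]
    rfl
  offG := by
    intro s g p h
    exact Y.off _ _ fun h1 => h (t.off_rows h1)
  fin := by
    intro v S G P hP hG s g p hs hg hp
    exact t.fin Y hP hG hs hg hp
  pole := by
    intro v S G P hP hG i j c hc h
    refine Y.pole v _ _ (t.onQ hP hG) (E (.inl i)) j c.1 hc ?_
    rw [comb_inl]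
    exact h
  poleG := by
    intro v S G P hP hG i s hs h
    refine Y.pole v _ _ (t.onQ hP hG) (E (.inr i)) t.j₀ (s t.j₀).1 (hs _) ?_
    rw [comb_inr]
    unfold Dt.rowsQ
    rw [row_self]
    obtain ⟨c, hc, hT⟩ := t.c_val hs i
    have hp : v.At (∏ l, t.C S i l) (∏ l, c l) := Place.At.prod fun l _ => hc l
    have hp0 : ∏ l, c l ≠ 0 := Finset.prod_ne_zero_iff.2 fun l _ => hT.ne l
    exact eval_tw h ((hc t.j₀).mul (hp.inv hp0)) (mul_ne_zero (hT.ne _) (inv_ne_zero hp0))
  sing := by
    intro v S G P hP hG j h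
    obtain ⟨i, hi⟩ := h
    exact Y.sing v _ _ (t.onQ hP hG) i j hi
  bridge := by
    intro I _ w S G P hP hG c₀ c₁ C₀ C₁ h₀ h₁
    exact Y.bridge w (fun x j => (S x j).1) (fun x => comb E (P x) (t.rowsQ (S x) (G x)))
      (fun x => t.onQ (hP x) (hG x)) c₀ c₁ C₀ C₁ h₀ h₁

end Pool.Agent.KFam.Iso
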