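import Pool.Agent.KIso.Base

/-!
# The rows with isotrivial indices
-/

set_option autoImplicit false

noncomputable section

namespace Pool.Agent.KFam.Iso

open Pool.Agent.ZCyc Pool.Agent.TInf Polynomial
open Pool.Agent.VFP (Om tt)

universe u

section field

variable {K : Type*} [Field K] {n : ℕ}

/-- the coordinates on the constant curve: the fixed points `Z j`, and `g` at `j₀` -/
def rr (j₀ : Fin n) (c : Fin n → K) (Z : Fin n → EPt K) (g : EPt K) (j : Fin n) : EPt K :=
  if j = j₀ then tw (∏ l, c l)⁻¹ g else Z j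

/-- the points -/
def row (j₀ : Fin n) (c : Fin n → K) (Z : Fin n → EPt K) (g : EPt K) (j : Fin n) : EPt K :=
  tw (c j) (rr j₀ c Z g j)

theorem tw_inv_on {a b C : K} (hC : C ≠ 0) {g : EPt K} (h : EOn (C ^ 4 * a) (C ^ 6 * b) g) :
    EOn a b (tw C⁻¹ g) := by
  have h1 := tw_on (c := C⁻¹) h
  have e1 : C⁻¹ ^ 4 * (C ^ 4 * a) = a := by
    rw [← mul_assoc, ← mul_pow, inv_mul_cancel₀ hC, one_pow, one_mul]
  have e2 : C⁻¹ ^ 6 * (C ^ 6 * b) = b := by
    rw [← mul_assoc, ← mul_pow, inv_mul_cancel₀ hC, one_pow, one_mul]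
  rw [e1, e2] at h1
  exact h1

theorem rr_on {j₀ : Fin n} {c : Fin n → K} {Z : Fin n → EPt K} {g : EPt K} {a b : K}
    (hc : ∀ j, c j ≠ 0) (hZ : ∀ j, EOn a b (Z j))
    (hg : EOn ((∏ l, c l) ^ 4 * a) ((∏ l, c l) ^ 6 * b) g) (j : Fin n) :
    EOn a b (rr j₀ c Z g j) := by
  unfold rr
  split_ifs
  · exact tw_inv_on (Finset.prod_ne_zero_iff.2 fun l _ => hc l) hg
  · exact hZ j

theorem row_self (j₀ : Fin n) (c : Fin n → K) (Z : Fin n → EPt K) (g : EPt K) :
    row j₀ c Z g j₀ = tw (c j₀ * (∏ l, c l)⁻¹) g := by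
  unfold row rr
  rw [if_pos rfl, tw_tw]

theorem row_update (j₀ : Fin n) (c : Fin n → K) (Z : Fin n → EPt K) (g g' : EPt K) :
    row j₀ c Z g' = Function.update (row j₀ c Z g) j₀ (tw (c j₀ * (∏ l, c l)⁻¹) g') := by
  funext j
  by_cases hj : j = j₀
  · subst hj
    rw [Function.update_self, row_self]
  · rw [Function.update_of_ne hj]
    unfold row rr
    rw [if_neg hj, if_neg hj]

/-- the coefficients of the total curve -/
theorem prod_twd {α B : Fin n → K} {a b : K} {c : Fin n → K} (hc : Twd α B a b c)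
    (h : (a = 0 ∧ b = 1) ∨ (a = 1 ∧ b = 0)) (j₀ : Fin n) :
    ∏ j, α j = (∏ j, c j) ^ 4 * a ∧ ∏ j, B j = (∏ j, c j) ^ 6 * b := by
  rcases h with ⟨h1, h2⟩ | ⟨h1, h2⟩
  · constructor
    · rw [h1, mul_zero]
      exact Finset.prod_eq_zero (Finset.mem_univ j₀) (by rw [hc.al, h1, mul_zero])
    · rw [h2, mul_one, ← Finset.prod_pow]
      exact Finset.prod_congr rfl fun j _ => by rw [hc.be, h2, mul_one]
  · constructor
    · rw [h1, mul_one, ← Finset.prod_pow]
      exact Finset.prod_congr rfl fun j _ => by rw [hc.al, h1, mul_one]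
    · rw [h2, mul_zero]
      exact Finset.prod_eq_zero (Finset.mem_univ j₀) (by rw [hc.be, h2, mul_zero])

end field

section val

variable {k : Type u} [Field k] {n : ℕ}

theorem inv_mem_of_at {v : Place k (Om k)} {C : Om k} {c : k} (h : v.At C c) (hc : c ≠ 0) :
    C⁻¹ ∈ v.ring := (h.inv hc).mem

theorem ne_of_at {v : Place k (Om k)} {C : Om k} {c : k} (h : v.At C c) (hc : c ≠ 0) :
    C ≠ 0 := by
  rintro rfl
  exact hc (h.unique VFP.at_zero)

/-- values of twisted points -/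
theorem eval_tw {v : Place k (Om k)} {P : EPt (Om k)} {p : EPt k} (h : EVal v P p) {C : Om k}
    {c : k} (hC : v.At C c) (hc : c ≠ 0) : EVal v (tw C P) (tw c p) := by
  rcases P with _ | ⟨X, Y⟩
  · rcases p with _ | ⟨x, y⟩
    · trivial
    · exact h.elim
  · rcases p with _ | ⟨x, y⟩
    · show C ^ 2 * X ∉ v.ring
      intro hmem
      have h1 : X ∉ v.ring := h
      apply h1
      have hC0 := ne_of_at hC hc
      have h2 : X = C⁻¹ ^ 2 * (C ^ 2 * X) := by field_simp
      rw [h2]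
      exact mul_mem (pow_mem (inv_mem_of_at hC hc) 2) hmem
    · exact ⟨(hC.pow 2).mul h.1, (hC.pow 3).mul h.2⟩

theorem eval_row {v : Place k (Om k)} {j₀ : Fin n} {C : Fin n → Om k} {c : Fin n → k}
    (hC : ∀ j, v.At (C j) (c j)) (hc : ∀ j, c j ≠ 0) (Z : Fin n → EPt k) {G : EPt (Om k)}
    {g : EPt k} (hG : EVal v G g) (j : Fin n) :
    EVal v (row j₀ C (fun j => cpt (Z j)) G j) (row j₀ c Z g j) := by
  have hp : v.At (∏ l, C l) (∏ l, c l) := Place.At.prod fun l _ => hC l
  have hp0 : ∏ l, c l ≠ 0 := Finset.prod_ne_zero_iff.2 fun l _ => hc l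
  refine eval_tw ?_ (hC j) (hc j)
  unfold rr
  split_ifs
  · exact eval_tw hG (hp.inv hp0) (inv_ne_zero hp0)
  · exact eval_cpt v _

end val

variable {k : Type u} [Field k] [IsAlgClosed k] [CharZero k] {n : ℕ}
  {W : Type*} [AddCommGroup W] [Module ℚ W] {α B : Fin n → k}
  {f : (Fin n → EPt k) → W} {a₀ b₀ : k}

/-- The class does not depend on the choice of the twists. -/
theorem row_congr (hf : ClassFn α B f) {c c' : Fin n → k} (hc : Twd α B a₀ b₀ c)
    (hc' : Twd α B a₀ b₀ c') (j₀ : Fin n) {Z : Fin n → EPt k} (hZ : ∀ j, EOn a₀ b₀ (Z j))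
    {g : EPt k} (hg : EOn ((∏ l, c' l) ^ 4 * a₀) ((∏ l, c' l) ^ 6 * b₀) g) :
    f (row j₀ c' Z g) = f (row j₀ c Z g) := by
  have hr : ∀ j, a₀ = (c' j / c j) ^ 4 * a₀ ∧ b₀ = (c' j / c j) ^ 6 * b₀ := by
    intro j
    have hj0 := hc.ne j
    constructor
    · have h1 := hc.al j
      rw [hc'.al j] at h1
      rw [div_pow, div_mul_eq_mul_div, h1, mul_div_cancel_left₀ _ (pow_ne_zero 4 hj0)]
    · have h1 := hc.be j
      rw [hc'.be j] at h1
      rw [div_pow, div_mul_eq_mul_div, h1, mul_div_cancel_left₀ _ (pow_ne_zero 6 hj0)]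
  have hrJ : a₀ = (∏ i, (c' i / c i)) ^ 4 * a₀ ∧ b₀ = (∏ i, (c' i / c i)) ^ 6 * b₀ := by
    have : ∀ J : Finset (Fin n), a₀ = (∏ i ∈ J, (c' i / c i)) ^ 4 * a₀ ∧
        b₀ = (∏ i ∈ J, (c' i / c i)) ^ 6 * b₀ := by
      intro J
      induction J using Finset.induction_on with
      | empty => simp
      | insert i J hi ih =>
        rw [Finset.prod_insert hi, mul_pow, mul_pow, mul_assoc, mul_assoc, ← ih.1, ← ih.2]
        exact hr i
    exact this _
  have hp0 : ∏ l, c l ≠ 0 := Finset.prod_ne_zero_iff.2 fun l _ => hc.ne l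
  have hp0' : ∏ l, c' l ≠ 0 := Finset.prod_ne_zero_iff.2 fun l _ => hc'.ne l
  obtain ⟨x, hx⟩ : ∃ x : k, x = ∏ i, (c' i / c i) := ⟨_, rfl⟩
  have hx' : x = (∏ i, c' i) / ∏ i, c i := by rw [hx, Finset.prod_div_distrib]
  have hx0 : x ≠ 0 := by
    rw [hx']
    exact div_ne_zero hp0' hp0
  rw [← hx] at hrJ
  have hd : Twd α B a₀ b₀ (Function.update c j₀ (c j₀ * x)) := by
    refine ⟨fun l => ?_, fun l => ?_, fun l => ?_⟩
    · by_cases hl : l = j₀
      · subst hl
        rw [Function.update_self]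
        exact mul_ne_zero (hc.ne _) hx0
      · rw [Function.update_of_ne hl]
        exact hc.ne l
    · by_cases hl : l = j₀
      · subst hl
        rw [Function.update_self, mul_pow, mul_assoc, ← hrJ.1]
        exact hc.al _
      · rw [Function.update_of_ne hl]
        exact hc.al l
    · by_cases hl : l = j₀
      · subst hl
        rw [Function.update_self, mul_pow, mul_assoc, ← hrJ.2]
        exact hc.be _
      · rw [Function.update_of_ne hl]
        exact hc.be l
  have hprod : ∏ j, Function.update c j₀ (c j₀ * x) j = ∏ j, c' j := by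
    rw [Finset.prod_update_of_mem (Finset.mem_univ j₀), mul_right_comm]
    have h1 : ∏ i, c i = c j₀ * ∏ i ∈ Finset.univ \ {j₀}, c i := by
      rw [← Finset.prod_update_of_mem (Finset.mem_univ j₀), Function.update_eq_self]
    rw [← h1, hx', mul_div_cancel₀ _ hp0]
  have h1 := twist_all hf hc' hd hprod (R := rr j₀ c' Z g) (rr_on hc'.ne hZ hg)
  have h2 : row j₀ c' Z g = fun l => tw (c' l) (rr j₀ c' Z g l) := rfl
  rw [h2, ← h1]
  congr 1
  funext l
  unfold row rr
  by_cases hl : l = j₀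
  · subst hl
    rw [if_pos rfl, if_pos rfl, Function.update_self, tw_tw, tw_tw]
    congr 1
    rw [hx']
    field_simp
  · rw [if_neg hl, if_neg hl, Function.update_of_ne hl]

end Pool.Agent.KFam.Iso
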