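import Pool.Agent.KIso.Graph

/-!
# Isotrivial families: permutations of the points and changes of the twists
-/

set_option autoImplicit false

noncomputable section

namespace Pool.Agent.KFam.Iso

open Pool.Agent.ZCyc Pool.Agent.TInf Polynomial
open Pool.Agent.VFP (Om tt)

universe u

/-- the third point of a line through two points -/
theorem third_point {K : Type*} [Field K] {a b x₁ y₁ x₂ y₂ : K} (h1 : y₁ ^ 2 = x₁ ^ 3 - 3 * a * x₁ + b)
    (h2 : y₂ ^ 2 = x₂ ^ 3 - 3 * a * x₂ + b) (hx : x₁ ≠ x₂) :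
    ∃ m c x₃ : K, m * x₁ + c = y₁ ∧ m * x₂ + c = y₂ ∧
      ∀ X : K, X ^ 3 - 3 * a * X + b - (m * X + c) ^ 2 = (X - x₁) * (X - x₂) * (X - x₃) := by
  have h12 : x₂ - x₁ ≠ 0 := sub_ne_zero.2 hx.symm
  obtain ⟨m, hm⟩ : ∃ m : K, m * (x₂ - x₁) = y₂ - y₁ := ⟨(y₂ - y₁) / (x₂ - x₁),
    div_mul_cancel₀ _ h12⟩
  obtain ⟨c, hc⟩ : ∃ c : K, c = y₁ - m * x₁ := ⟨_, rfl⟩
  obtain ⟨x₃, hx₃⟩ : ∃ x₃ : K, x₃ = m ^ 2 - x₁ - x₂ := ⟨_, rfl⟩
  have e1 : m * x₁ + c = y₁ := by rw [hc]; ring
  have e2 : m * x₂ + c = y₂ := by rw [hc]; linear_combination hm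
  refine ⟨m, c, x₃, e1, e2, ?_⟩
  obtain ⟨u, hu⟩ : ∃ u : K, u = -3 * a - 2 * m * c - (x₁ * x₂ + x₁ * x₃ + x₂ * x₃) := ⟨_, rfl⟩
  obtain ⟨w, hw⟩ : ∃ w : K, w = b - c ^ 2 + x₁ * x₂ * x₃ := ⟨_, rfl⟩
  have key : ∀ X : K, X ^ 3 - 3 * a * X + b - (m * X + c) ^ 2 -
      (X - x₁) * (X - x₂) * (X - x₃) = u * X + w := by
    intro X
    rw [hu, hw]
    linear_combination X ^ 2 * hx₃
  have k1 : u * x₁ + w = 0 := by
    rw [← key x₁, e1]
    linear_combination -h1
  have k2 : u * x₂ + w = 0 := by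
    rw [← key x₂, e2]
    linear_combination -h2
  have k3 : u = 0 := by
    have : u * (x₂ - x₁) = 0 := by linear_combination k2 - k1
    exact (mul_eq_zero.1 this).resolve_right h12
  have k4 : w = 0 := by
    rw [k3, zero_mul, zero_add] at k1
    exact k1
  intro X
  have := key X
  rw [k3, k4] at this
  linear_combination this

variable {k : Type u} [Field k] [IsAlgClosed k] [CharZero k] {n : ℕ}
  {W : Type*} [AddCommGroup W] [Module ℚ W] {α B : Fin n → k}
  {f : (Fin n → EPt k) → W} {a₀ b₀ : k}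

omit [IsAlgClosed k] [CharZero k] in
theorem on_update {p : Fin n → EPt k} (hp : ∀ i, EOn (α i) (B i) (p i)) {j : Fin n} {A : EPt k}
    (hA : EOn (α j) (B j) A) : ∀ i, EOn (α i) (B i) (Function.update p j A i) := by
  intro i
  by_cases hi : i = j
  · subst hi
    rw [Function.update_self]
    exact hA
  · rw [Function.update_of_ne hi]
    exact hp i

/-- additivity in one coordinate -/
theorem line_tw (hf : ClassFn α B f) {c : Fin n → k} (hc : Twd α B a₀ b₀ c) (j : Fin n)
    (p : Fin n → EPt k) (hp : ∀ i, EOn (α i) (B i) (p i)) {m c₀ x₁ x₂ x₃ : k}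
    (h : ∀ X : k, X ^ 3 - 3 * a₀ * X + b₀ - (m * X + c₀) ^ 2 =
      (X - x₁) * (X - x₂) * (X - x₃)) :
    f (Function.update p j (tw (c j) (some (x₁, m * x₁ + c₀)))) +
      f (Function.update p j (tw (c j) (some (x₂, m * x₂ + c₀)))) +
      f (Function.update p j (tw (c j) (some (x₃, m * x₃ + c₀)))) = 0 := by
  have hc0 := hc.ne j
  have h1 := line_gen hf p hp j (c j * m) (c j ^ 3 * c₀)
    ![c j ^ 2 * x₁, c j ^ 2 * x₂, c j ^ 2 * x₃] (by
      intro X
      simp only [Matrix.cons_val_zero, Matrix.cons_val_one, Matrix.cons_val]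
      have h2 := h (X / c j ^ 2)
      rw [hc.al j, hc.be j]
      have h3 : X = c j ^ 2 * (X / c j ^ 2) := by field_simp
      generalize X / c j ^ 2 = Z at h2 h3
      rw [h3]
      linear_combination c j ^ 6 * h2)
  rw [Fin.sum_univ_three] at h1
  simp only [Matrix.cons_val_zero, Matrix.cons_val_one, Matrix.cons_val] at h1
  have e : ∀ x : k, (some (c j ^ 2 * x, c j * m * (c j ^ 2 * x) + c j ^ 3 * c₀) : EPt k) =
      tw (c j) (some (x, m * x + c₀)) := by
    intro x
    rw [tw_some]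
    congr 2
    ring
  rw [e, e, e] at h1
  exact h1

/-- the class is antisymmetric in the coordinates of the constant curve -/
theorem swap2 (hf : ClassFn α B f) {c : Fin n → k} (hc : Twd α B a₀ b₀ c) {j j' : Fin n}
    (hj : j ≠ j') (p : Fin n → EPt k) (hp : ∀ i, EOn (α i) (B i) (p i)) {P Q : EPt k}
    (hP : EOn a₀ b₀ P) (hQ : EOn a₀ b₀ Q) :
    f (Function.update (Function.update p j (tw (c j) P)) j' (tw (c j') Q)) =
      -f (Function.update (Function.update p j (tw (c j) Q)) j' (tw (c j') P)) := by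
  obtain ⟨G, hG⟩ : ∃ G : EPt k → EPt k → W, ∀ P Q, G P Q =
      f (Function.update (Function.update p j (tw (c j) P)) j' (tw (c j') Q)) :=
    ⟨_, fun _ _ => rfl⟩
  rw [← hG, ← hG]
  have hgr : ∀ Z : EPt k, EOn a₀ b₀ Z → G Z Z = 0 := by
    intro Z hZ
    rw [hG]
    exact graph hf hc hj p hp hZ
  have hl : ∀ Z : EPt k, G none Z = 0 := by
    intro Z
    rw [hG]
    exact hf.inf _ j (by rw [Function.update_of_ne hj, Function.update_self]; rfl)
  have hr : ∀ Z : EPt k, G Z none = 0 := by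
    intro Z
    rw [hG]
    exact hf.inf _ j' (by rw [Function.update_self]; rfl)
  have hnl : ∀ (x y : k) (Z : EPt k), G (some (x, -y)) Z = -G (some (x, y)) Z := by
    intro x y Z
    rw [hG, hG, tw_some, tw_some, mul_neg]
    have h1 := hf.odd (Function.update (Function.update p j (some (c j ^ 2 * x, c j ^ 3 * y))) j'
      (tw (c j') Z)) j (c j ^ 2 * x) (c j ^ 3 * y)
      (by rw [Function.update_of_ne hj, Function.update_self])
    rw [upd3 hj] at h1
    exact h1
  have hnr : ∀ (x y : k) (Z : EPt k), G Z (some (x, -y)) = -G Z (some (x, y)) := by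
    intro x y Z
    rw [hG, hG, tw_some, tw_some, mul_neg]
    have h1 := hf.odd (Function.update (Function.update p j (tw (c j) Z)) j'
      (some (c j' ^ 2 * x, c j' ^ 3 * y))) j' (c j' ^ 2 * x) (c j' ^ 3 * y)
      (Function.update_self _ _ _)
    rw [Function.update_idem] at h1
    exact h1
  rcases P with _ | ⟨x₁, y₁⟩
  · rw [hl, hr, neg_zero]
  rcases Q with _ | ⟨x₂, y₂⟩
  · rw [hl, hr, neg_zero]
  have h1 : y₁ ^ 2 = x₁ ^ 3 - 3 * a₀ * x₁ + b₀ := hP
  have h2 : y₂ ^ 2 = x₂ ^ 3 - 3 * a₀ * x₂ + b₀ := hQ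
  by_cases hx : x₁ = x₂
  · subst hx
    rcases sq_eq_sq_iff_eq_or_eq_neg.1 (h2.trans h1.symm) with h | h
    · rw [h, hgr _ hP, neg_zero]
    · rw [h, hnr, hnl, hgr _ hP, neg_neg, neg_zero]
  obtain ⟨m, c₀, x₃, e1, e2, key⟩ := third_point h1 h2 hx
  have hR : EOn a₀ b₀ (some (x₃, m * x₃ + c₀)) := by
    have := key x₃
    rw [sub_self, mul_zero, sub_eq_zero] at this
    exact this.symm
  have hL : ∀ Z : EPt k, EOn a₀ b₀ Z → G (some (x₁, y₁)) Z + G (some (x₂, y₂)) Z +
      G (some (x₃, m * x₃ + c₀)) Z = 0 := by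
    intro Z hZ
    have h3 := line_tw hf hc j (Function.update p j' (tw (c j') Z))
      (on_update hp (hc.on hZ j')) key
    rw [e1, e2, Function.update_comm hj.symm, Function.update_comm hj.symm,
      Function.update_comm hj.symm] at h3
    rw [hG, hG, hG]
    exact h3
  have hRr : ∀ Z : EPt k, EOn a₀ b₀ Z → G Z (some (x₁, y₁)) + G Z (some (x₂, y₂)) +
      G Z (some (x₃, m * x₃ + c₀)) = 0 := by
    intro Z hZ
    have h3 := line_tw hf hc j' (Function.update p j (tw (c j) Z))
      (on_update hp (hc.on hZ j)) key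
    rw [e1, e2] at h3
    rw [hG, hG, hG]
    exact h3
  have a1 := hL _ hR
  have a2 := hRr _ hP
  have a3 := hRr _ hQ
  rw [hgr _ hR, add_zero] at a1
  rw [hgr _ hP, zero_add] at a2
  rw [hgr _ hQ, add_zero] at a3
  rw [eq_neg_iff_add_eq_zero]
  have a4 := eq_neg_of_add_eq_zero_right a2
  have a5 := eq_neg_of_add_eq_zero_right a3
  rw [a4, a5, ← neg_add, neg_eq_zero] at a1
  exact a1

/-- the class is antisymmetric in the coordinates of the constant curve -/
theorem perm_tw (hf : ClassFn α B f) {c : Fin n → k} (hc : Twd α B a₀ b₀ c)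
    (π : Equiv.Perm (Fin n)) : ∀ R : Fin n → EPt k, (∀ j, EOn a₀ b₀ (R j)) →
      f (fun j => tw (c j) (R (π j))) =
        ((Equiv.Perm.sign π : ℤˣ) : ℤ) • f (fun j => tw (c j) (R j)) := by
  induction π using Equiv.Perm.swap_induction_on with
  | one =>
    intro R _
    simp
  | swap_mul π x y hxy ih =>
    intro R hR
    have h1 := ih (fun j => R (Equiv.swap x y j)) (fun j => hR _)
    have h2 : (fun j => tw (c j) (R ((Equiv.swap x y * π) j))) =
        fun j => tw (c j) (R (Equiv.swap x y (π j))) := by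
      funext j
      rw [Equiv.Perm.mul_apply]
    rw [h2, h1, Equiv.Perm.sign_mul, Equiv.Perm.sign_swap hxy]
    have h3 := swap2 hf hc hxy (fun j => tw (c j) (R j)) (fun j => hc.on (hR j) j) (hR y) (hR x)
    have e1 : Function.update (Function.update (fun j => tw (c j) (R j)) x (tw (c x) (R y))) y
        (tw (c y) (R x)) = fun j => tw (c j) (R (Equiv.swap x y j)) := by
      funext j
      by_cases hy : j = y
      · subst hy
        rw [Function.update_self, Equiv.swap_apply_right]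
      · rw [Function.update_of_ne hy]
        by_cases hx : j = x
        · subst hx
          rw [Function.update_self, Equiv.swap_apply_left]
        · rw [Function.update_of_ne hx, Equiv.swap_apply_of_ne_of_ne hx hy]
    have e2 : Function.update (Function.update (fun j => tw (c j) (R j)) x (tw (c x) (R x))) y
        (tw (c y) (R y)) = fun j => tw (c j) (R j) := by
      rw [Function.update_eq_self x (fun j => tw (c j) (R j)),
        Function.update_eq_self y (fun j => tw (c j) (R j))]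
    rw [e1, e2] at h3
    rw [h3]
    simp

end Pool.Agent.KFam.Iso
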