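import Pool.Agent.KIso.Swap

/-!
# Isotrivial families: the class depends only on the product of the twists
-/

set_option autoImplicit false

noncomputable section

namespace Pool.Agent.KFam.Iso

open Pool.Agent.ZCyc Pool.Agent.TInf Polynomial
open Pool.Agent.VFP (Om tt)

universe u

variable {k : Type u} [Field k] [IsAlgClosed k] [CharZero k] {n : ℕ}
  {W : Type*} [AddCommGroup W] [Module ℚ W] {α B : Fin n → k}
  {f : (Fin n → EPt k) → W} {a₀ b₀ : k}

omit [IsAlgClosed k] [CharZero k] in
/-- the function with two values replaced -/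
theorem upd2_eq {V : Type*} {j j' : Fin n} (hj : j ≠ j') {p p' : Fin n → V}
    (h : ∀ l, l ≠ j → l ≠ j' → p' l = p l) :
    p' = Function.update (Function.update p j (p' j)) j' (p' j') := by
  funext l
  by_cases hl' : l = j'
  · subst hl'
    rw [Function.update_self]
  · rw [Function.update_of_ne hl']
    by_cases hl : l = j
    · subst hl
      rw [Function.update_self]
    · rw [Function.update_of_ne hl, h l hl hl']

/-- two twists are changed -/
theorem twist_two (hf : ClassFn α B f) {c c' : Fin n → k} (hc : Twd α B a₀ b₀ c)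
    (hc' : Twd α B a₀ b₀ c') {j j' : Fin n} (hj : j ≠ j') (h : ∀ l, l ≠ j → l ≠ j' → c' l = c l)
    (hp : c' j * c' j' = c j * c j') {R : Fin n → EPt k} (hR : ∀ l, EOn a₀ b₀ (R l)) :
    f (fun l => tw (c' l) (R l)) = f (fun l => tw (c l) (R l)) := by
  -- the family with the twists `c' j`, `c j'`
  have hd : Twd α B a₀ b₀ (Function.update c j (c' j)) := by
    refine ⟨fun l => ?_, fun l => ?_, fun l => ?_⟩
    · by_cases hl : l = j
      · subst hl
        rw [Function.update_self]
        exact hc'.ne _
      · rw [Function.update_of_ne hl]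
        exact hc.ne l
    · by_cases hl : l = j
      · subst hl
        rw [Function.update_self]
        exact hc'.al _
      · rw [Function.update_of_ne hl]
        exact hc.al l
    · by_cases hl : l = j
      · subst hl
        rw [Function.update_self]
        exact hc'.be _
      · rw [Function.update_of_ne hl]
        exact hc.be l
  obtain ⟨v, hv⟩ : ∃ v : k, v = c j / c' j := ⟨_, rfl⟩
  have hj0 := hc'.ne j
  have hv1 : c' j * v = c j := by rw [hv, mul_div_cancel₀ _ hj0]
  have hv2 : c' j' = c j' * v := by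
    have h1 : c' j * c' j' = c' j * (c j' * v) := by rw [hp, ← hv1]; ring
    exact mul_left_cancel₀ hj0 h1
  have hva : a₀ = v ^ 4 * a₀ := by
    have h1 := hc'.al j
    rw [hc.al j, ← hv1] at h1
    have h2 : c' j ^ 4 * a₀ = c' j ^ 4 * (v ^ 4 * a₀) := by rw [← h1]; ring
    exact mul_left_cancel₀ (pow_ne_zero 4 hj0) h2
  have hvb : b₀ = v ^ 6 * b₀ := by
    have h1 := hc'.be j
    rw [hc.be j, ← hv1] at h1
    have h2 : c' j ^ 6 * b₀ = c' j ^ 6 * (v ^ 6 * b₀) := by rw [← h1]; ring
    exact mul_left_cancel₀ (pow_ne_zero 6 hj0) h2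
  have hQ : EOn a₀ b₀ (tw v (R j')) := by
    have h1 := tw_on (c := v) (hR j')
    rw [← hva, ← hvb] at h1
    exact h1
  have e1 := upd2_eq hj (p := fun l => tw (c l) (R l)) (p' := fun l => tw (c' l) (R l))
    (fun l h1 h2 => by
      show tw (c' l) (R l) = tw (c l) (R l)
      rw [h l h1 h2])
  have s1 := swap2 hf hd hj (fun l => tw (c l) (R l)) (fun l => hc.on (hR l) l) (hR j) hQ
  have s2 := swap2 hf hc hj (fun l => tw (c l) (R l)) (fun l => hc.on (hR l) l) (hR j) (hR j')
  rw [Function.update_self, Function.update_of_ne hj.symm, tw_tw, tw_tw, hv1, ← hv2] at s1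
  have e2 := upd2_eq hj (p := fun l => tw (c l) (R l)) (p' := fun l => tw (c l) (R l))
    (fun _ _ _ => rfl)
  rw [e1, s1, ← s2, ← e2]

/-- The class depends only on the product of the twists. -/
theorem twist_all (hf : ClassFn α B f) {c c' : Fin n → k} (hc : Twd α B a₀ b₀ c)
    (hc' : Twd α B a₀ b₀ c') (hp : ∏ j, c' j = ∏ j, c j) {R : Fin n → EPt k}
    (hR : ∀ l, EOn a₀ b₀ (R l)) :
    f (fun l => tw (c' l) (R l)) = f (fun l => tw (c l) (R l)) := by
  classical
  rcases Nat.eq_zero_or_pos n with hn | hn
  · subst hn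
    congr 1
    funext l
    exact l.elim0
  set j₀ : Fin n := ⟨0, hn⟩ with hj₀
  set C : Finset (Fin n) → Fin n → k := fun J j =>
    if j = j₀ then c j₀ * ∏ i ∈ J, (c i / c' i) else if j ∈ J then c' j else c j with hC
  have hr : ∀ j, a₀ = (c j / c' j) ^ 4 * a₀ ∧ b₀ = (c j / c' j) ^ 6 * b₀ := by
    intro j
    have hj0 := hc'.ne j
    constructor
    · have h1 := hc'.al j
      rw [hc.al j] at h1
      rw [div_pow, div_mul_eq_mul_div, h1, mul_div_cancel_left₀ _ (pow_ne_zero 4 hj0)]
    · have h1 := hc'.be j
      rw [hc.be j] at h1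
      rw [div_pow, div_mul_eq_mul_div, h1, mul_div_cancel_left₀ _ (pow_ne_zero 6 hj0)]
  have hrJ : ∀ J : Finset (Fin n), a₀ = (∏ i ∈ J, (c i / c' i)) ^ 4 * a₀ ∧
      b₀ = (∏ i ∈ J, (c i / c' i)) ^ 6 * b₀ := by
    intro J
    induction J using Finset.induction_on with
    | empty => simp
    | insert i J hi ih =>
      rw [Finset.prod_insert hi, mul_pow, mul_pow, mul_assoc, mul_assoc, ← ih.1, ← ih.2]
      exact hr i
  have hT : ∀ J : Finset (Fin n), Twd α B a₀ b₀ (C J) := by
    intro J
    refine ⟨fun l => ?_, fun l => ?_, fun l => ?_⟩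
    · simp only [hC]
      split_ifs
      · exact mul_ne_zero (hc.ne _) (Finset.prod_ne_zero_iff.2 fun i _ =>
          div_ne_zero (hc.ne i) (hc'.ne i))
      · exact hc'.ne l
      · exact hc.ne l
    · simp only [hC]
      split_ifs with h1 h2
      · rw [h1, hc.al j₀, mul_pow, mul_assoc, ← (hrJ J).1]
      · exact hc'.al l
      · exact hc.al l
    · simp only [hC]
      split_ifs with h1 h2
      · rw [h1, hc.be j₀, mul_pow, mul_assoc, ← (hrJ J).2]
      · exact hc'.be l
      · exact hc.be l
  have key : ∀ J : Finset (Fin n), j₀ ∉ J →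
      f (fun l => tw (C J l) (R l)) = f (fun l => tw (c l) (R l)) := by
    intro J
    induction J using Finset.induction_on with
    | empty =>
      intro _
      have e : C ∅ = c := by
        funext j
        simp only [hC, Finset.notMem_empty, if_false, Finset.prod_empty, mul_one]
        split_ifs with h1
        · rw [h1]
        · rfl
      rw [e]
    | insert i J hi ih =>
      intro hJ
      have hi0 : i ≠ j₀ := fun h => hJ (by rw [← h]; exact Finset.mem_insert_self i J)
      have hJ0 : j₀ ∉ J := fun h => hJ (Finset.mem_insert_of_mem h)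
      rw [← ih hJ0]
      refine twist_two hf (hT J) (hT _) hi0 ?_ ?_ hR
      · intro l h1 h2
        simp only [hC, h2, if_false, Finset.mem_insert, h1, false_or]
      · simp only [hC, hi0, if_false, if_true, Finset.mem_insert_self, hi]
        rw [Finset.prod_insert hi]
        have := hc'.ne i
        field_simp
  have e : C (Finset.univ.erase j₀) = c' := by
    funext j
    simp only [hC]
    split_ifs with h1 h2
    · rw [h1, Finset.prod_div_distrib]
      have h3 := Finset.mul_prod_erase Finset.univ c (Finset.mem_univ j₀)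
      have h4 := Finset.mul_prod_erase Finset.univ c' (Finset.mem_univ j₀)
      have h5 : ∏ i ∈ Finset.univ.erase j₀, c' i ≠ 0 :=
        Finset.prod_ne_zero_iff.2 fun i _ => hc'.ne i
      rw [← mul_div_assoc, h3, ← hp, ← h4, mul_div_cancel_right₀ _ h5]
    · rfl
    · exact absurd (Finset.mem_erase.2 ⟨h1, Finset.mem_univ j⟩) h2
  rw [← e]
  exact key _ (Finset.notMem_erase j₀ _)

end Pool.Agent.KFam.Iso
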